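import Mathlib

set_option autoImplicit false

/-!
# Signed chain complexes of flag complexes
-/

namespace Pool.Agent.P8H61

open Classical Finsupp

section supp

variable {k X N : Type} [CommRing k] [AddCommGroup N] [Module k N]

theorem supp_mem {s : Set X} (L : (X →₀ k) →ₗ[k] N) (P : Submodule k N)
    (h : ∀ a ∈ s, L (single a 1) ∈ P) {z : X →₀ k} (hz : z ∈ supported k k s) : L z ∈ P := by
  have h1 : z = z.sum fun a c => c • single a (1 : k) := by
    conv_lhs => rw [← Finsupp.sum_single z]
    apply Finsupp.sum_congr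
    intro a _
    rw [smul_single, smul_eq_mul, mul_one]
  rw [h1, map_finsuppSum]
  apply Submodule.sum_mem
  intro a ha
  beta_reduce
  rw [map_smul]
  exact P.smul_mem _ (h a (hz ha))

theorem supp_eq {s : Set X} (L L' : (X →₀ k) →ₗ[k] N)
    (h : ∀ a ∈ s, L (single a 1) = L' (single a 1)) {z : X →₀ k}
    (hz : z ∈ supported k k s) : L z = L' z := by
  have h1 := supp_mem (L - L') ⊥ (s := s) (fun a ha => by
    rw [LinearMap.sub_apply, h a ha, sub_self]; exact Submodule.zero_mem _) hz
  rw [Submodule.mem_bot, LinearMap.sub_apply, sub_eq_zero] at h1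
  exact h1

theorem lin_ext {L L' : (X →₀ k) →ₗ[k] N}
    (h : ∀ a, L (single a 1) = L' (single a 1)) (z : X →₀ k) : L z = L' z :=
  supp_eq L L' (s := Set.univ) (fun a _ => h a) (by simp)

theorem single_supp {s : Set X} {a : X} (h : a ∈ s) (c : k) :
    single a c ∈ supported k k s := single_mem_supported k c h

/-- the linear map given by the images of the basis elements -/
noncomputable def lin (f : X → N) : (X →₀ k) →ₗ[k] N := Finsupp.linearCombination k f

@[simp] theorem lin_single (f : X → N) (a : X) : lin (k := k) f (single a 1) = f a := by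
  simp [lin]

end supp

variable {α : Type} (pos : α → ℕ)

/-- the sign of `a` relative to `E` -/
noncomputable def sg (E : Finset α) (a : α) : ℤ := (-1) ^ (E.filter fun f => pos f < pos a).card

theorem sg_sq (E : Finset α) (a : α) : sg pos E a * sg pos E a = 1 := by
  unfold sg
  rw [← mul_pow]
  simp

theorem sg_insert_self (E : Finset α) (a : α) : sg pos (insert a E) a = sg pos E a := by
  unfold sg
  rw [Finset.filter_insert, if_neg (lt_irrefl _)]

theorem sg_insert {E : Finset α} {a e : α} (ha : a ∉ E) :
    sg pos (insert a E) e = sg pos E e * (if pos a < pos e then -1 else 1) := by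
  unfold sg
  rw [Finset.filter_insert]
  split
  · rw [Finset.card_insert_of_notMem (fun h => ha (Finset.mem_filter.1 h).1), pow_succ]
  · rw [mul_one]

theorem sg_erase {E : Finset α} {a e : α} (he : e ∈ E) :
    sg pos (E.erase e) a = sg pos E a * (if pos e < pos a then -1 else 1) := by
  have h := sg_insert pos (E := E.erase e) (a := e) (e := a) (Finset.notMem_erase e E)
  rw [Finset.insert_erase he] at h
  rw [h]
  split <;> simp

theorem sg_erase_self (E : Finset α) (a : α) : sg pos (E.erase a) a = sg pos E a := by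
  by_cases h : a ∈ E
  · rw [sg_erase pos h, if_neg (lt_irrefl _), mul_one]
  · rw [Finset.erase_eq_of_notMem h]

theorem sg_anti {E : Finset α} {e f : α} (he : e ∈ E) (hf : f ∈ E) (h : pos e ≠ pos f) :
    sg pos E e * sg pos (E.erase e) f = - (sg pos E f * sg pos (E.erase f) e) := by
  rw [sg_erase pos he, sg_erase pos hf]
  rcases lt_or_gt_of_ne h with h1 | h1
  · rw [if_pos h1, if_neg (by omega)]; ring
  · rw [if_neg (by omega), if_pos h1]; ring

/-- boundary -/
noncomputable def bd : (Finset α →₀ ℤ) →ₗ[ℤ] (Finset α →₀ ℤ) :=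
  lin fun E => ∑ e ∈ E, sg pos E e • single (E.erase e) 1

/-- adding the vertex `a` -/
noncomputable def co (a : α) : (Finset α →₀ ℤ) →ₗ[ℤ] (Finset α →₀ ℤ) :=
  lin fun E => if a ∈ E then 0 else sg pos E a • single (insert a E) 1

/-- removing the vertex `a` -/
noncomputable def re (a : α) : (Finset α →₀ ℤ) →ₗ[ℤ] (Finset α →₀ ℤ) :=
  lin fun E => if a ∈ E then sg pos E a • single (E.erase a) 1 else 0

theorem bd_single (E : Finset α) : bd pos (single E 1) = ∑ e ∈ E, sg pos E e • single (E.erase e) 1 :=
  lin_single _ _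

theorem co_in {a : α} {E : Finset α} (h : a ∈ E) : co pos a (single E 1) = 0 := by
  rw [co, lin_single, if_pos h]

theorem co_out {a : α} {E : Finset α} (h : a ∉ E) :
    co pos a (single E 1) = sg pos E a • single (insert a E) 1 := by
  rw [co, lin_single, if_neg h]

theorem re_in {a : α} {E : Finset α} (h : a ∈ E) :
    re pos a (single E 1) = sg pos E a • single (E.erase a) 1 := by
  rw [re, lin_single, if_pos h]

theorem re_out {a : α} {E : Finset α} (h : a ∉ E) : re pos a (single E 1) = 0 := by
  rw [re, lin_single, if_neg h]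

/-- the homotopy formula for sets not containing `a` -/
theorem bd_co_out {a : α} {E : Finset α} (h : a ∉ E) (hp : ∀ e ∈ E, pos e ≠ pos a) :
    bd pos (co pos a (single E 1)) + co pos a (bd pos (single E 1)) = single E 1 := by
  rw [co_out pos h, map_smul, bd_single, Finset.sum_insert h, Finset.erase_insert h,
    sg_insert_self, bd_single, map_sum, smul_add, smul_smul, sg_sq, one_smul, Finset.smul_sum,
    add_assoc, ← Finset.sum_add_distrib]
  conv_rhs => rw [← add_zero (single E (1 : ℤ))]
  congr 1
  apply Finset.sum_eq_zero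
  intro e he
  have hae : a ≠ e := fun h' => h (h' ▸ he)
  have h1 : a ∉ E.erase e := fun h' => h (Finset.mem_of_mem_erase h')
  rw [map_smul, co_out pos h1, sg_insert pos h, sg_erase pos he,
    Finset.erase_insert_of_ne hae, smul_smul, smul_smul, ← add_smul]
  have h2 : sg pos E a * (sg pos E e * (if pos a < pos e then -1 else 1)) +
      sg pos E e * (sg pos E a * (if pos e < pos a then -1 else 1)) = 0 := by
    rcases lt_or_gt_of_ne (hp e he) with h3 | h3
    · rw [if_neg (by omega), if_pos h3]; ring
    · rw [if_pos h3, if_neg (by omega)]; ring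
  rw [h2, zero_smul]

theorem bd_co_in {a : α} {E : Finset α} (h : a ∈ E) :
    bd pos (co pos a (single E 1)) + co pos a (bd pos (single E 1)) = single E 1 := by
  rw [co_in pos h, map_zero, zero_add, bd_single, map_sum, Finset.sum_eq_single a]
  · rw [map_smul, co_out pos (Finset.notMem_erase a E), sg_erase_self, smul_smul, sg_sq, one_smul,
      Finset.insert_erase h]
  · intro e he hea
    rw [map_smul, co_in pos (Finset.mem_erase.2 ⟨fun h' => hea h'.symm, h⟩), smul_zero]
  · intro h'
    exact absurd h h'

theorem bd_co {a : α} {z : Finset α →₀ ℤ}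
    (hz : z ∈ supported ℤ ℤ {E : Finset α | ∀ e ∈ E, e ≠ a → pos e ≠ pos a}) :
    bd pos (co pos a z) + co pos a (bd pos z) = z := by
  have h1 := supp_eq ((bd pos).comp (co pos a) + (co pos a).comp (bd pos)) LinearMap.id
    (s := {E : Finset α | ∀ e ∈ E, e ≠ a → pos e ≠ pos a}) (fun E hE => by
      by_cases h : a ∈ E
      · exact bd_co_in pos h
      · exact bd_co_out pos h (fun e he => hE e he (fun h' => h (h' ▸ he)))) hz
  exact h1

variable (R : α → α → Prop)

/-- cliques with `k` elements in `S` -/
def Cl (S : Set α) (k : ℕ) (E : Finset α) : Prop :=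
  (∀ e ∈ E, e ∈ S) ∧ (∀ e ∈ E, ∀ f ∈ E, e ≠ f → R e f) ∧ E.card = k

/-- exactness in degree `k` of the augmented chain complex of the flag complex on `S` -/
def Acyc (S : Set α) (k : ℕ) : Prop :=
  ∀ z ∈ supported ℤ ℤ {E | Cl R S k E}, bd pos z = 0 →
    ∃ w ∈ supported ℤ ℤ {E | Cl R S (k + 1) E}, bd pos w = z

variable {R} {pos}

theorem Cl.erase {S : Set α} {k : ℕ} {E : Finset α} {e : α} (h : Cl R S (k + 1) E) (he : e ∈ E) :
    Cl R S k (E.erase e) := by
  refine ⟨fun f hf => h.1 f (Finset.mem_of_mem_erase hf), fun f hf g hg hne =>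
    h.2.1 f (Finset.mem_of_mem_erase hf) g (Finset.mem_of_mem_erase hg) hne, ?_⟩
  rw [Finset.card_erase_of_mem he, h.2.2]
  rfl

theorem Cl.insert {S : Set α} {k : ℕ} {E : Finset α} {a : α} (hR : ∀ x y, R x y → R y x)
    (h : Cl R S k E) (ha : a ∉ E)
    (haS : a ∈ S) (hr : ∀ e ∈ E, R a e) : Cl R S (k + 1) (insert a E) := by
  refine ⟨?_, ?_, ?_⟩
  · intro e he
    rcases Finset.mem_insert.1 he with rfl | he
    · exact haS
    · exact h.1 e he
  · intro e he f hf hne
    rcases Finset.mem_insert.1 he with rfl | he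
    · rcases Finset.mem_insert.1 hf with rfl | hf
      · exact absurd rfl hne
      · exact hr f hf
    · rcases Finset.mem_insert.1 hf with hfa | hf
      · rw [hfa]; exact hR _ _ (hr e he)
      · exact h.2.1 e he f hf hne
  · rw [Finset.card_insert_of_notMem ha, h.2.2]

theorem bd_mem {S : Set α} {k : ℕ} {z : Finset α →₀ ℤ}
    (hz : z ∈ supported ℤ ℤ {E | Cl R S (k + 1) E}) :
    bd pos z ∈ supported ℤ ℤ {E | Cl R S k E} := by
  refine supp_mem _ _ (fun E hE => ?_) hz
  rw [bd_single]
  apply Submodule.sum_mem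
  intro e he
  exact Submodule.smul_mem _ _ (single_supp (s := {E | Cl R S k E}) (Cl.erase hE he) _)

/-- `bd ∘ bd = 0` -/
theorem bd_bd_single (hp : ∀ x y, R x y → pos x ≠ pos y) {S : Set α} (E : Finset α) :
    ∀ k, Cl R S k E → bd pos (bd pos (single E 1)) = 0 := by
  induction E using Finset.induction_on with
  | empty => intro k _; simp [bd_single]
  | insert a E ha ih =>
    intro k hE
    obtain ⟨k, rfl⟩ : ∃ k', k = k' + 1 := ⟨E.card, by
      rw [← hE.2.2, Finset.card_insert_of_notMem ha]⟩
    have hE' : Cl R S k E := by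
      have := hE.erase (Finset.mem_insert_self a E)
      rwa [Finset.erase_insert ha] at this
    have hpa : ∀ e ∈ E, pos e ≠ pos a := fun e he => hp _ _ (hE.2.1 e
      (Finset.mem_insert_of_mem he) a (Finset.mem_insert_self a E) (fun h => ha (h ▸ he)))
    have h1 := bd_co_out pos ha hpa
    have h2 : bd pos (single E 1) ∈
        supported ℤ ℤ {E : Finset α | ∀ e ∈ E, e ≠ a → pos e ≠ pos a} := by
      rw [bd_single]
      apply Submodule.sum_mem
      intro e he
      refine Submodule.smul_mem _ _ (single_supp ?_ _)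
      intro f hf _
      exact hpa f (Finset.mem_of_mem_erase hf)
    have h3 := bd_co pos h2
    rw [ih k hE', map_zero, add_zero] at h3
    have h4 := congrArg (bd pos) h1
    rw [map_add, h3] at h4
    have h5 : bd pos (bd pos (co pos a (single E 1))) = 0 := by
      have : bd pos (bd pos (co pos a (single E 1))) + bd pos (single E 1) =
        0 + bd pos (single E 1) := by rw [h4, zero_add]
      exact add_right_cancel this
    rw [co_out pos ha, map_smul, map_smul] at h5
    have h6 := congrArg (fun x => sg pos E a • x) h5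
    beta_reduce at h6
    rwa [smul_smul, sg_sq, one_smul, smul_zero] at h6

theorem bd_bd (hp : ∀ x y, R x y → pos x ≠ pos y) {S : Set α} {k : ℕ} {z : Finset α →₀ ℤ}
    (hz : z ∈ supported ℤ ℤ {E | Cl R S k E}) : bd pos (bd pos z) = 0 := by
  have h := supp_eq ((bd pos).comp (bd pos)) 0 (s := {E | Cl R S k E})
    (fun E hE => by
      rw [LinearMap.comp_apply, LinearMap.zero_apply]
      exact bd_bd_single hp E k hE) hz
  exact h

/-- cones are acyclic -/
theorem acyc_cone (hR : ∀ x y, R x y → R y x) (hp : ∀ x y, R x y → pos x ≠ pos y)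
    {S : Set α} {a : α} (ha : a ∈ S) (h : ∀ b ∈ S, b ≠ a → R a b) (k : ℕ) : Acyc pos R S k := by
  intro z hz hd
  refine ⟨co pos a z, ?_, ?_⟩
  · refine supp_mem _ _ (fun E hE => ?_) hz
    by_cases haE : a ∈ E
    · rw [co_in pos haE]
      exact Submodule.zero_mem _
    · rw [co_out pos haE]
      refine Submodule.smul_mem _ _ (single_supp ?_ _)
      exact Cl.insert hR hE haE ha (fun e he => h e (hE.1 e he) (fun h' => haE (h' ▸ he)))
  · have h1 : z ∈ supported ℤ ℤ {E : Finset α | ∀ e ∈ E, e ≠ a → pos e ≠ pos a} := by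
      refine supported_mono ?_ hz
      intro E hE e he hea
      exact (hp _ _ (h e (hE.1 e he) hea)).symm
    have h2 := bd_co pos h1
    rw [hd, map_zero, add_zero] at h2
    exact h2

/-- gluing a cone along a link -/
theorem acyc_link (hR : ∀ x y, R x y → R y x) (hp : ∀ x y, R x y → pos x ≠ pos y)
    {S : Set α} {b : α} (hb : b ∈ S) {k : ℕ} (h0 : Acyc pos R (S \ {b}) k)
    (h1 : ∀ j, j + 1 = k → Acyc pos R {c | c ∈ S ∧ R b c} j) : Acyc pos R S k := by
  intro z hz hd
  have hbp : ∀ E : Finset α, ∀ j, Cl R {c | c ∈ S ∧ R b c} j E → b ∉ E := by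
    intro E j hE hbE
    exact hp _ _ (hE.1 b hbE).2 rfl
  -- decomposition
  set z0 : Finset α →₀ ℤ := lin (k := ℤ) (fun E => if b ∈ E then 0 else single E 1) z with hz0
  have hzd : z = z0 + co pos b (re pos b z) := by
    have h2 := lin_ext (L := LinearMap.id) (L' := (lin (k := ℤ)
      fun E => if b ∈ E then 0 else single E 1) + (co pos b).comp (re pos b)) (fun E => by
        rw [LinearMap.add_apply, LinearMap.comp_apply, lin_single]
        by_cases hbE : b ∈ E
        · rw [if_pos hbE, re_in pos hbE, map_smul, co_out pos (Finset.notMem_erase b E),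
            sg_erase_self, smul_smul, sg_sq, one_smul, Finset.insert_erase hbE, zero_add]
          rfl
        · rw [if_neg hbE, re_out pos hbE, map_zero, add_zero]
          rfl) z
    exact h2
  set y := re pos b z with hy
  have hz0m : z0 ∈ supported ℤ ℤ {E | Cl R (S \ {b}) k E} := by
    refine supp_mem _ _ (fun E hE => ?_) hz
    rw [lin_single]
    split
    · exact Submodule.zero_mem _
    · rename_i hbE
      refine single_supp (s := {E | Cl R (S \ {b}) k E}) ⟨fun e he => ⟨hE.1 e he, ?_⟩, hE.2⟩ _
      rintro rfl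
      exact hbE he
  have hym : ∀ j, j + 1 = k → y ∈ supported ℤ ℤ {E | Cl R {c | c ∈ S ∧ R b c} j E} := by
    intro j hj
    refine supp_mem _ _ (fun E hE => ?_) hz
    by_cases hbE : b ∈ E
    · rw [re_in pos hbE]
      refine Submodule.smul_mem _ _ (single_supp
        (s := {E | Cl R {c | c ∈ S ∧ R b c} j E}) ?_ _)
      subst hj
      have h3 := hE.erase hbE
      refine ⟨fun e he => ⟨h3.1 e he, ?_⟩, h3.2⟩
      exact hE.2.1 b hbE e (Finset.mem_of_mem_erase he) (fun h' => by
        subst h'; exact Finset.notMem_erase _ _ he)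
    · rw [re_out pos hbE]
      exact Submodule.zero_mem _
  have hpb : ∀ {j E}, Cl R {c | c ∈ S ∧ R b c} j E → ∀ e ∈ E, e ≠ b → pos e ≠ pos b :=
    fun hE e he _ => (hp _ _ (hE.1 e he).2).symm
  cases k with
  | zero =>
    have hy0 : y = 0 := by
      have h3 : y ∈ (⊥ : Submodule ℤ (Finset α →₀ ℤ)) := by
        refine supp_mem (re pos b) _ (fun E hE => ?_) hz
        rw [re_out pos]
        · exact Submodule.zero_mem _
        · rw [Finset.card_eq_zero.1 hE.2.2]
          exact Finset.notMem_empty _
      exact (Submodule.mem_bot _).1 h3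
    rw [hy0, map_zero, add_zero] at hzd
    obtain ⟨w, hw, hw'⟩ := h0 z0 hz0m (by rw [← hzd]; exact hd)
    refine ⟨w, supported_mono ?_ hw, by rw [hw', ← hzd]⟩
    intro E hE
    exact ⟨fun e he => (hE.1 e he).1, hE.2⟩
  | succ j =>
    have hym := hym j rfl
    have e1 := bd_co pos (a := b) (z := y) (supported_mono (fun E hE => hpb hE) hym)
    have hdy : bd pos y ∈ supported ℤ ℤ {E : Finset α | b ∉ E} := by
      refine supp_mem _ _ (fun E hE => ?_) hym
      rw [bd_single]
      refine Submodule.sum_mem _ (fun e he => Submodule.smul_mem _ _ (single_supp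
        (s := {E : Finset α | b ∉ E}) ?_ _))
      exact fun h' => hbp E j hE (Finset.mem_of_mem_erase h')
    have hrc : ∀ u ∈ supported ℤ ℤ {E : Finset α | b ∉ E}, re pos b (co pos b u) = u := by
      intro u hu
      have := supp_eq ((re pos b).comp (co pos b)) LinearMap.id
        (s := {E : Finset α | b ∉ E}) (fun E hE => by
          rw [LinearMap.comp_apply, co_out pos hE, map_smul, re_in pos (Finset.mem_insert_self b E),
            sg_insert_self, smul_smul, sg_sq, one_smul, Finset.erase_insert hE]
          rfl) hu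
      exact this
    have hr0 : ∀ u ∈ supported ℤ ℤ {E : Finset α | b ∉ E}, re pos b u = 0 := by
      intro u hu
      have := supp_eq (re pos b) 0 (s := {E : Finset α | b ∉ E}) (fun E hE => by
          rw [re_out pos hE]
          rfl) hu
      exact this
    have hz0b : bd pos z0 ∈ supported ℤ ℤ {E : Finset α | b ∉ E} := by
      refine supp_mem _ _ (fun E hE => ?_) hz0m
      rw [bd_single]
      refine Submodule.sum_mem _ (fun e he => Submodule.smul_mem _ _ (single_supp
        (s := {E : Finset α | b ∉ E}) ?_ _))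
      exact fun h' => (hE.1 b (Finset.mem_of_mem_erase h')).2 rfl
    have hdy0 : bd pos y = 0 := by
      have e2 := hd
      rw [hzd, map_add] at e2
      have e3 : bd pos (co pos b y) = y - co pos b (bd pos y) := by
        rw [eq_sub_iff_add_eq]; exact e1
      rw [e3] at e2
      have e4 := congrArg (re pos b) e2
      rw [map_add, map_sub, hr0 _ hz0b, hrc _ hdy, map_zero, zero_add,
        hr0 y (supported_mono (fun E hE => hbp E j hE) hym), zero_sub, neg_eq_zero] at e4
      exact e4
    obtain ⟨x, hx, hxy⟩ := h1 j rfl y hym hdy0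
    have e5 := bd_co pos (a := b) (z := x) (supported_mono (fun E hE => hpb hE) hx)
    rw [hxy] at e5
    have hx' : x ∈ supported ℤ ℤ {E | Cl R (S \ {b}) (j + 1) E} := by
      refine supported_mono ?_ hx
      intro E hE
      refine ⟨fun e he => ⟨(hE.1 e he).1, ?_⟩, hE.2⟩
      rintro rfl
      exact hp _ _ (hE.1 e he).2 rfl
    have e6 : bd pos (z0 + x) = 0 := by
      have e7 : z0 + x = z + bd pos (co pos b x) := by
        rw [hzd, add_assoc, add_comm (co pos b y), e5]
      have hcx : co pos b x ∈ supported ℤ ℤ {E | Cl R S (j + 2) E} := by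
        refine supp_mem _ _ (fun E hE => ?_) hx
        rw [co_out pos (hbp E _ hE)]
        refine Submodule.smul_mem _ _ (single_supp (s := {E | Cl R S (j + 2) E}) ?_ _)
        refine Cl.insert hR ⟨fun e he => (hE.1 e he).1, hE.2⟩ (hbp E _ hE) hb
          (fun e he => (hE.1 e he).2)
      rw [e7, map_add, hd, bd_bd hp hcx, add_zero]
    obtain ⟨w, hw, hw'⟩ := h0 (z0 + x) (Submodule.add_mem _ hz0m hx') e6
    refine ⟨w - co pos b x, Submodule.sub_mem _ (supported_mono ?_ hw) ?_, ?_⟩
    · intro E hE
      exact ⟨fun e he => (hE.1 e he).1, hE.2⟩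
    · refine supp_mem _ _ (fun E hE => ?_) hx
      rw [co_out pos (hbp E _ hE)]
      refine Submodule.smul_mem _ _ (single_supp (s := {E | Cl R S (j + 2) E}) ?_ _)
      refine Cl.insert hR ⟨fun e he => (hE.1 e he).1, hE.2⟩ (hbp E _ hE) hb
        (fun e he => (hE.1 e he).2)
    · have e8 : bd pos (co pos b x) = x - co pos b y := by
        rw [eq_sub_iff_add_eq]; exact e5
      rw [map_sub, hw', e8, hzd]
      abel

end Pool.Agent.P8H61
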