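import Pool.Agent.P8H96.FP.Perm
import Pool.Agent.P8H61.Flag

set_option autoImplicit false

/-!
# Finiteness properties of groups acting freely on chain complexes inside one permutation module
-/

namespace Pool.Agent.P8H61

open Finsupp Pool.Agent.Y72.Ty Pool.Agent.P8H96.FP

theorem typeFP_ambient {H X : Type} [Group H] [MulAction H X] (n : ℕ) (C : ℕ → Set X)
    (hC : ∀ k (h : H), ∀ x ∈ C k, h • x ∈ C k) (hfree : ∀ (h : H) (x : X), h • x = x → h = 1)
    (hfin : ∀ k, k ≤ n → ∃ s : Set X, s.Finite ∧ s ⊆ C k ∧ ∀ x ∈ C k, ∃ y ∈ s, ∃ h : H, h • y = x)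
    (hne : (C 0).Nonempty) (D : (X →₀ ℤ) →ₗ[ℤ] (X →₀ ℤ))
    (hDm : ∀ k, ∀ z ∈ supported ℤ ℤ (C (k + 1)), D z ∈ supported ℤ ℤ (C k))
    (hDe : ∀ k (h : H), ∀ x ∈ C (k + 1), D (single (h • x) 1) =
      mapDomain (h • ·) (D (single x 1)))
    (haug : ∀ z, (D z).sum (fun _ a => a) = 0)
    (hDD : ∀ k, ∀ z ∈ supported ℤ ℤ (C (k + 2)), D (D z) = 0)
    (hex0 : 0 < n → ∀ z ∈ supported ℤ ℤ (C 0), z.sum (fun _ a => a) = 0 →
      ∃ y ∈ supported ℤ ℤ (C 1), D y = z)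
    (hex : ∀ k, k + 1 < n → ∀ z ∈ supported ℤ ℤ (C (k + 1)), D z = 0 →
      ∃ y ∈ supported ℤ ℤ (C (k + 2)), D y = z) : TypeFP H n := by
  classical
  let A : ∀ k, MulAction H (C k) := fun k =>
    { smul := fun h x => ⟨h • x.1, hC k h x.1 x.2⟩
      one_smul := fun x => Subtype.ext (one_smul H x.1)
      mul_smul := fun g h x => Subtype.ext (mul_smul g h x.1) }
  have hA : ∀ k (h : H) (x : C k), (h • x).1 = h • x.1 := fun k h x => rfl
  let em : ∀ k, (C k →₀ ℤ) →ₗ[ℤ] (X →₀ ℤ) := fun k => lmapDomain ℤ ℤ Subtype.val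
  let rs : ∀ k, (X →₀ ℤ) →ₗ[ℤ] (C k →₀ ℤ) := fun k => lsubtypeDomain (C k)
  have hem : ∀ k (z : C k →₀ ℤ), em k z ∈ supported ℤ ℤ (C k) := by
    intro k z x hx
    have h1 := mapDomain_support hx
    obtain ⟨y, _, rfl⟩ := Finset.mem_image.1 h1
    exact y.2
  have hrs : ∀ k (z : X →₀ ℤ), z ∈ supported ℤ ℤ (C k) → em k (rs k z) = z := by
    intro k z hz
    ext x
    by_cases hx : x ∈ C k
    · have h1 : em k (rs k z) x = (rs k z) ⟨x, hx⟩ :=
        mapDomain_apply Subtype.val_injective (rs k z) ⟨x, hx⟩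
      rw [h1]
      rfl
    · have h1 : z x = 0 := by
        by_contra hc
        exact hx (hz (mem_support_iff.2 hc))
      rw [h1]
      by_contra hc
      exact hx (hem k _ (mem_support_iff.2 hc))
  have hemi : ∀ k, Function.Injective (em k) := fun k => mapDomain_injective Subtype.val_injective
  have hems : ∀ k (x : C k), em k (single x 1) = single x.1 1 := fun k x => mapDomain_single
  have haugem : ∀ k (z : C k →₀ ℤ), (em k z).sum (fun _ a => a) = z.sum (fun _ a => a) := by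
    intro k z
    exact sum_mapDomain_index (fun _ => rfl) (fun _ _ _ => rfl)
  let d : ∀ k, (C (k + 1) →₀ ℤ) →ₗ[ℤ] (C k →₀ ℤ) := fun k => (rs k).comp (D.comp (em (k + 1)))
  have hd : ∀ k z, em k (d k z) = D (em (k + 1) z) := fun k z =>
    hrs k _ (hDm k _ (hem (k + 1) z))
  refine typeFP_of_perm n (fun k => C k) ?_ ?_ ?_ d ?_ ?_ ?_ ?_ ?_
  · intro k h x hx
    exact hfree h x.1 (by rw [← hA, hx])
  · intro k hk
    obtain ⟨s, hs, hsC, hs'⟩ := hfin k hk
    refine ⟨Subtype.val ⁻¹' s, hs.preimage Subtype.val_injective.injOn, ?_⟩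
    intro x
    obtain ⟨y, hy, h, hh⟩ := hs' x.1 x.2
    exact ⟨⟨y, hsC hy⟩, hy, h, Subtype.ext hh⟩
  · exact hne.to_subtype
  · intro k h x
    apply hemi k
    rw [hd, hems, hA, hDe k h x.1 x.2, ← hems, ← hd]
    change mapDomain _ (mapDomain _ _) = mapDomain _ (mapDomain _ _)
    rw [← mapDomain_comp, ← mapDomain_comp]
    rfl
  · intro x
    rw [← haugem, hd]
    exact haug _
  · intro k z
    apply hemi k
    rw [hd, hd, map_zero]
    exact hDD k _ (hem _ _)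
  · intro hn z hz
    obtain ⟨y, hy, hyz⟩ := hex0 hn (em 0 z) (hem 0 z) (by rw [haugem]; exact hz)
    refine ⟨rs 1 y, hemi 0 ?_⟩
    rw [hd, hrs 1 y hy, hyz]
  · intro k hk z hz
    obtain ⟨y, hy, hyz⟩ := hex k hk (em (k + 1) z) (hem _ z) (by rw [← hd, hz, map_zero])
    refine ⟨rs (k + 2) y, hemi (k + 1) ?_⟩
    rw [hd, hrs (k + 2) y hy, hyz]

end Pool.Agent.P8H61
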