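import Mathlib

set_option autoImplicit false

/-!
# A branch group on the binary tree with an automorphism not induced by the tree

`L` is the group of all automorphisms of the binary tree which act on the second level by a
translation `(a, b) ↦ (a + c, b + d)`. Exchanging the first two coordinates of the boundary
normalizes `L`, but it does not respect the first level.
-/

namespace Pool.Agent.P8H61.Branch

/-- Vertices of the binary tree. -/
abbrev T : Type := {l : List ℕ // ∀ i (h : i < l.length), l.get ⟨i, h⟩ < 2}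

theorem ok_of {l : List ℕ} (h : ∀ x ∈ l, x < 2) : ∀ i (h : i < l.length), l.get ⟨i, h⟩ < 2 :=
  fun _ _ => h _ (List.get_mem _ _)

theorem lt_two (v : T) {x : ℕ} (hx : x ∈ v.1) : x < 2 := by
  obtain ⟨i, hi⟩ := List.mem_iff_get.1 hx
  rw [← hi]
  exact v.2 i.1 i.2

theorem getD_lt (v : T) (n : ℕ) : v.1.getD n 0 < 2 := by
  by_cases h : n < v.1.length
  · rw [List.getD_eq_getElem _ _ h]
    exact v.2 n h
  · rw [List.getD_eq_default _ _ (not_lt.1 h)]
    norm_num

/-- Truncation. -/
def tk (n : ℕ) (v : T) : T := ⟨v.1.take n, ok_of fun _ hx => lt_two v (List.mem_of_mem_take hx)⟩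

/-- Prolongation by two zeros. -/
def pad (v : T) : T := ⟨v.1 ++ [0, 0], ok_of fun x hx => by
  rcases List.mem_append.1 hx with h | h
  · exact lt_two v h
  · have : x = 0 := by simpa using h
    omega⟩

/-- Exchange of the first two entries. -/
def sw : List ℕ → List ℕ
  | a :: b :: w => b :: a :: w
  | l => l

theorem mem_sw {l : List ℕ} {x : ℕ} (h : x ∈ sw l) : x ∈ l := by
  match l with
  | [] => exact h
  | [_] => exact h
  | a :: b :: w =>
    simp only [sw, List.mem_cons] at h ⊢
    tauto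

/-- Exchange of the first two entries of a vertex. -/
def hh (v : T) : T := ⟨sw v.1, ok_of fun _ hx => lt_two v (mem_sw hx)⟩

theorem sw_sw (l : List ℕ) : sw (sw l) = l := by
  match l with
  | [] => rfl
  | [_] => rfl
  | a :: b :: w => rfl

theorem hh_hh (v : T) : hh (hh v) = v := Subtype.ext (sw_sw _)

theorem len_sw (l : List ℕ) : (sw l).length = l.length := by
  match l with
  | [] => rfl
  | [_] => rfl
  | a :: b :: w => rfl

theorem len_hh (v : T) : (hh v).1.length = v.1.length := len_sw _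

theorem len_pad (v : T) : (pad v).1.length = v.1.length + 2 := by
  simp [pad]

theorem len_tk (n : ℕ) (v : T) : (tk n v).1.length = min n v.1.length := by
  simp [tk]

theorem tk_of_le {n : ℕ} {v : T} (h : v.1.length ≤ n) : tk n v = v :=
  Subtype.ext (List.take_of_length_le h)

theorem tk_tk (n k : ℕ) (v : T) : tk n (tk k v) = tk (min n k) v :=
  Subtype.ext (by simp [tk, List.take_take])

theorem take_sw (n : ℕ) (hn : n ≠ 1) (l : List ℕ) : (sw l).take n = sw (l.take n) := by
  match l with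
  | [] => simp [sw]
  | [a] =>
    match n with
    | 0 => rfl
    | k + 1 => simp [sw]
  | a :: b :: w =>
    match n with
    | 0 => rfl
    | 1 => exact absurd rfl hn
    | k + 2 => simp [sw]

theorem tk_hh (n : ℕ) (hn : n ≠ 1) (v : T) : tk n (hh v) = hh (tk n v) :=
  Subtype.ext (take_sw n hn _)

theorem tk_pad (v : T) : tk v.1.length (pad v) = v :=
  Subtype.ext (by simp [tk, pad])

theorem getD_sw_zero (l : List ℕ) (h : 2 ≤ l.length) : (sw l).getD 0 0 = l.getD 1 0 := by
  match l with
  | [] => simp at h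
  | [_] => simp at h
  | a :: b :: w => rfl

theorem getD_sw_one (l : List ℕ) (h : 2 ≤ l.length) : (sw l).getD 1 0 = l.getD 0 0 := by
  match l with
  | [] => simp at h
  | [_] => simp at h
  | a :: b :: w => rfl

theorem tk_one_eq {x y : T} (hx : 1 ≤ x.1.length) (hy : 1 ≤ y.1.length)
    (h : x.1.getD 0 0 = y.1.getD 0 0) : tk 1 x = tk 1 y := by
  apply Subtype.ext
  obtain ⟨lx, px⟩ := x
  obtain ⟨ly, py⟩ := y
  match lx, ly with
  | [], _ => simp at hx
  | _, [] => simp at hy
  | a :: u, b :: w =>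
    simp only [List.getD_cons_zero] at h
    simp [tk, h]

theorem getD_zero_of_tk {x y : T} (h : tk 1 x = tk 1 y) : x.1.getD 0 0 = y.1.getD 0 0 := by
  have h1 := congrArg Subtype.val h
  obtain ⟨lx, px⟩ := x
  obtain ⟨ly, py⟩ := y
  match lx, ly with
  | [], [] => rfl
  | [], b :: w => simp [tk] at h1
  | a :: u, [] => simp [tk] at h1
  | a :: u, b :: w =>
    simp only [tk, List.take_succ_cons, List.take_zero, List.cons.injEq, and_true] at h1
    simp [h1]

theorem ais (g : Equiv.Perm T) (x : T) : g (g⁻¹ x) = x := g.apply_symm_apply x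

theorem ias (g : Equiv.Perm T) (x : T) : g⁻¹ (g x) = x := g.symm_apply_apply x

/-- The second level acts by the translation by `(c, d)`. -/
def Tr (g : Equiv.Perm T) (c d : ℕ) : Prop :=
  ∀ v : T, 2 ≤ v.1.length → (g v).1.getD 0 0 = (v.1.getD 0 0 + c) % 2 ∧
    (g v).1.getD 1 0 = (v.1.getD 1 0 + d) % 2

/-- The group of automorphisms of the binary tree which act on the second level by
translations. -/
def L : Subgroup (Equiv.Perm T) where
  carrier := {g | (∀ v, (g v).1.length = v.1.length) ∧ (∀ n v, g (tk n v) = tk n (g v)) ∧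
    ∃ c d : ℕ, Tr g c d}
  one_mem' := by
    refine ⟨fun v => rfl, fun n v => rfl, 0, 0, fun v hv => ?_⟩
    have h0 := getD_lt v 0
    have h1 := getD_lt v 1
    constructor
    · rw [Equiv.Perm.one_apply]; omega
    · rw [Equiv.Perm.one_apply]; omega
  mul_mem' := by
    rintro g k ⟨hg1, hg2, c, d, hg3⟩ ⟨hk1, hk2, c', d', hk3⟩
    refine ⟨fun v => ?_, fun n v => ?_, c + c', d + d', fun v hv => ?_⟩
    · rw [Equiv.Perm.mul_apply, hg1, hk1]
    · rw [Equiv.Perm.mul_apply, hk2, hg2, Equiv.Perm.mul_apply]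
    · have h1 := hk3 v hv
      have h2 := hg3 (k v) (by rw [hk1]; exact hv)
      rw [Equiv.Perm.mul_apply]
      constructor
      · rw [h2.1, h1.1]; omega
      · rw [h2.2, h1.2]; omega
  inv_mem' := by
    rintro g ⟨hg1, hg2, c, d, hg3⟩
    refine ⟨fun v => ?_, fun n v => ?_, c, d, fun v hv => ?_⟩
    · rw [← hg1 (g⁻¹ v), ais]
    · apply g.injective
      rw [hg2, ais, ais]
    · have hl : 2 ≤ (g⁻¹ v).1.length := by
        rw [← hg1 (g⁻¹ v), ais]
        exact hv
      have h1 := hg3 (g⁻¹ v) hl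
      rw [ais] at h1
      have h2 := getD_lt (g⁻¹ v) 0
      have h3 := getD_lt (g⁻¹ v) 1
      constructor
      · rw [h1.1]; omega
      · rw [h1.2]; omega

/-- The action of `g` conjugated by the exchange of the first two coordinates. -/
def Psi (g : Equiv.Perm T) (x : T) : T := hh (g (hh x))

theorem len_Psi {g : Equiv.Perm T} (hg : g ∈ L) (x : T) : (Psi g x).1.length = x.1.length := by
  rw [Psi, len_hh, hg.1, len_hh]

theorem Psi_getD {g : Equiv.Perm T} (hg : g ∈ L) {c d : ℕ} (h : Tr g c d) {x : T}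
    (hx : 2 ≤ x.1.length) : (Psi g x).1.getD 0 0 = (x.1.getD 0 0 + d) % 2 ∧
      (Psi g x).1.getD 1 0 = (x.1.getD 1 0 + c) % 2 := by
  have hx' : 2 ≤ (hh x).1.length := by rw [len_hh]; exact hx
  have hx2 : 2 ≤ (g (hh x)).1.length := by rw [hg.1]; exact hx'
  have h1 := h (hh x) hx'
  constructor
  · change (sw _).getD 0 0 = _
    rw [getD_sw_zero _ hx2, h1.2]
    change ((sw x.1).getD 1 0 + d) % 2 = _
    rw [getD_sw_one _ hx]
  · change (sw _).getD 1 0 = _
    rw [getD_sw_one _ hx2, h1.1]
    change ((sw x.1).getD 0 0 + c) % 2 = _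
    rw [getD_sw_zero _ hx]

theorem tk_Psi {g : Equiv.Perm T} (hg : g ∈ L) {x y : T} (hx : 2 ≤ x.1.length)
    (hy : 2 ≤ y.1.length) {n : ℕ} (h : tk n x = tk n y) : tk n (Psi g x) = tk n (Psi g y) := by
  by_cases hn : n = 1
  · subst hn
    obtain ⟨c, d, hT⟩ := hg.2.2
    apply tk_one_eq
    · rw [len_Psi hg]; omega
    · rw [len_Psi hg]; omega
    · rw [(Psi_getD hg hT hx).1, (Psi_getD hg hT hy).1, getD_zero_of_tk h]
  · rw [Psi, Psi, tk_hh n hn, tk_hh n hn, ← hg.2.1, ← hg.2.1, tk_hh n hn, tk_hh n hn, h]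

/-- The image of `g` under the automorphism, as a function. -/
def ph (g : Equiv.Perm T) (v : T) : T := tk v.1.length (Psi g (pad v))

theorem ph_tk {g : Equiv.Perm T} (hg : g ∈ L) {x : T} (hx : 2 ≤ x.1.length) {n : ℕ}
    (hn : n ≤ x.1.length) : ph g (tk n x) = tk n (Psi g x) := by
  have h1 : (tk n x).1.length = n := by rw [len_tk]; omega
  rw [ph, h1]
  apply tk_Psi hg _ hx
  · have := tk_pad (tk n x)
    rw [h1] at this
    exact this
  · rw [len_pad]; omega

theorem ph_of_two {g : Equiv.Perm T} (hg : g ∈ L) {x : T} (hx : 2 ≤ x.1.length) :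
    ph g x = Psi g x := by
  have h := ph_tk hg hx (le_refl _)
  rwa [tk_of_le (le_refl _), tk_of_le (by rw [len_Psi hg])] at h

theorem len_ph {g : Equiv.Perm T} (hg : g ∈ L) (v : T) : (ph g v).1.length = v.1.length := by
  rw [ph, len_tk, len_Psi hg, len_pad]
  omega

theorem ph_mul {g k : Equiv.Perm T} (hg : g ∈ L) (hk : k ∈ L) (v : T) :
    ph g (ph k v) = ph (g * k) v := by
  have h1 : ph k v = tk v.1.length (Psi k (pad v)) := rfl
  have h2 : 2 ≤ (Psi k (pad v)).1.length := by rw [len_Psi hk, len_pad]; omega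
  rw [h1, ph_tk hg h2 (by rw [len_Psi hk, len_pad]; omega)]
  change tk _ (hh (g (hh (hh (k (hh (pad v))))))) = _
  rw [hh_hh]
  rfl

theorem ph_one (v : T) : ph 1 v = v := by
  change tk _ (hh (hh (pad v))) = v
  rw [hh_hh, tk_pad]

/-- The image of `g` under the automorphism. -/
def Ph (g : Equiv.Perm T) (hg : g ∈ L) : Equiv.Perm T where
  toFun := ph g
  invFun := ph g⁻¹
  left_inv v := by rw [ph_mul (inv_mem hg) hg, inv_mul_cancel, ph_one]
  right_inv v := by rw [ph_mul hg (inv_mem hg), mul_inv_cancel, ph_one]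

theorem tk_ph {g : Equiv.Perm T} (hg : g ∈ L) (n : ℕ) (v : T) :
    ph g (tk n v) = tk n (ph g v) := by
  have h1 : tk n v = tk (min n v.1.length) (pad v) := by
    conv_lhs => rw [← tk_pad v]
    rw [tk_tk]
  have h2 : tk n (ph g v) = tk (min n v.1.length) (Psi g (pad v)) := by
    rw [ph, tk_tk]
  rw [h1, h2]
  apply ph_tk hg
  · rw [len_pad]; omega
  · rw [len_pad]; omega

theorem Ph_tr {g : Equiv.Perm T} (hg : g ∈ L) {c d : ℕ} (h : Tr g c d) : Tr (Ph g hg) d c := by
  intro v hv
  change (ph g v).1.getD 0 0 = _ ∧ (ph g v).1.getD 1 0 = _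
  rw [ph_of_two hg hv]
  exact Psi_getD hg h hv

theorem Ph_mem {g : Equiv.Perm T} (hg : g ∈ L) : Ph g hg ∈ L := by
  obtain ⟨c, d, h⟩ := hg.2.2
  exact ⟨fun v => len_ph hg v, fun n v => tk_ph hg n v, d, c, Ph_tr hg h⟩

theorem Ph_Ph {g : Equiv.Perm T} (hg : g ∈ L) : Ph (Ph g hg) (Ph_mem hg) = g := by
  apply Equiv.ext
  intro v
  change tk _ (hh (ph g (hh (pad v)))) = g v
  have h2 : 2 ≤ (hh (pad v)).1.length := by rw [len_hh, len_pad]; omega
  rw [ph_of_two hg h2]
  change tk _ (hh (hh (g (hh (hh (pad v)))))) = g v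
  rw [hh_hh, hh_hh, ← hg.2.1, tk_pad]

/-- The automorphism of `L`. -/
def phi : L ≃* L where
  toFun g := ⟨Ph g.1 g.2, Ph_mem g.2⟩
  invFun g := ⟨Ph g.1 g.2, Ph_mem g.2⟩
  left_inv g := Subtype.ext (Ph_Ph g.2)
  right_inv g := Subtype.ext (Ph_Ph g.2)
  map_mul' g k := by
    apply Subtype.ext
    apply Equiv.ext
    intro v
    exact (ph_mul g.2 k.2 v).symm

/-! ### Translations -/

/-- Translation of a list by a sequence. -/
def trl (s : ℕ → ℕ) (l : List ℕ) : List ℕ := l.mapIdx fun i a => (a + s i) % 2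

theorem len_trl (s : ℕ → ℕ) (l : List ℕ) : (trl s l).length = l.length := by
  simp [trl]

theorem getD_trl (s : ℕ → ℕ) (l : List ℕ) (i : ℕ) (h : i < l.length) :
    (trl s l).getD i 0 = (l.getD i 0 + s i) % 2 := by
  rw [List.getD_eq_getElem _ _ (by rw [len_trl]; exact h), List.getD_eq_getElem _ _ h]
  simp [trl]

theorem trl_ok (s : ℕ → ℕ) (l : List ℕ) :
    ∀ i (h : i < (trl s l).length), (trl s l).get ⟨i, h⟩ < 2 := by
  intro i h
  have : (trl s l).get ⟨i, h⟩ = (l[i]'(by rw [len_trl] at h; exact h) + s i) % 2 := by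
    simp [trl]
  rw [this]
  exact Nat.mod_lt _ (by norm_num)

theorem ext_getD {v w : T} (h : v.1.length = w.1.length)
    (h2 : ∀ i < v.1.length, v.1.getD i 0 = w.1.getD i 0) : v = w := by
  apply Subtype.ext
  apply List.ext_getElem h
  intro i h3 h4
  have := h2 i h3
  rwa [List.getD_eq_getElem _ _ h3, List.getD_eq_getElem _ _ h4] at this

theorem trl_trl (s : ℕ → ℕ) (v : T) : trl s (trl s v.1) = v.1 := by
  have h : (⟨trl s (trl s v.1), trl_ok _ _⟩ : T) = v := by
    apply ext_getD
    · simp [len_trl]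
    · intro i hi
      simp only [len_trl] at hi
      change (trl s (trl s v.1)).getD i 0 = _
      rw [getD_trl _ _ _ (by rw [len_trl]; exact hi), getD_trl _ _ _ hi]
      have := getD_lt v i
      omega
  exact congrArg Subtype.val h

/-- Translation by a sequence. -/
def tr (s : ℕ → ℕ) : Equiv.Perm T where
  toFun v := ⟨trl s v.1, trl_ok s v.1⟩
  invFun v := ⟨trl s v.1, trl_ok s v.1⟩
  left_inv v := Subtype.ext (trl_trl s v)
  right_inv v := Subtype.ext (trl_trl s v)

theorem tr_Tr (s : ℕ → ℕ) : Tr (tr s) (s 0) (s 1) := fun v hv =>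
  ⟨getD_trl s v.1 0 (by omega), getD_trl s v.1 1 (by omega)⟩

theorem tr_mem (s : ℕ → ℕ) : tr s ∈ L := by
  refine ⟨fun v => len_trl s v.1, fun n v => ?_, s 0, s 1, tr_Tr s⟩
  apply Subtype.ext
  change trl s (v.1.take n) = (trl s v.1).take n
  apply List.ext_getElem
  · simp [len_trl]
  · intro i h1 h2
    simp [trl]


theorem tr_trans {v w : T} (h : v.1.length = w.1.length) : ∃ g ∈ L, g v = w := by
  refine ⟨tr fun i => (v.1.getD i 0 + w.1.getD i 0) % 2, tr_mem _, ?_⟩
  apply ext_getD
  · change (trl _ v.1).length = _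
    rw [len_trl, h]
  · intro i hi
    change i < (trl _ v.1).length at hi
    rw [len_trl] at hi
    change (trl _ v.1).getD i 0 = _
    rw [getD_trl _ _ _ hi]
    have h1 := getD_lt v i
    have h2 := getD_lt w i
    omega

/-! ### Prefixes -/

theorem prefix_iff {v w : T} : List.IsPrefix v.1 w.1 ↔ v = tk v.1.length w := by
  rw [List.prefix_iff_eq_take]
  constructor
  · intro h
    exact Subtype.ext h
  · intro h
    exact congrArg Subtype.val h

theorem L_prefix {g : Equiv.Perm T} (hg : g ∈ L) (v w : T) :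
    (List.IsPrefix v.1 w.1 ↔ List.IsPrefix (g v).1 (g w).1) := by
  rw [prefix_iff, prefix_iff, hg.1, ← hg.2.1]
  exact g.injective.eq_iff.symm

/-! ### Rigid stabilizers -/

open Classical in
/-- The action of `g` below the vertices of `S` of level `N`. -/
noncomputable def cut (N : ℕ) (S : Set T) (g : T → T) (v : T) : T :=
  if N ≤ v.1.length ∧ tk N v ∈ S then g v else v

theorem cut_pos {N : ℕ} {S : Set T} {g : T → T} {v : T} (h : N ≤ v.1.length ∧ tk N v ∈ S) :
    cut N S g v = g v := if_pos h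

theorem cut_neg {N : ℕ} {S : Set T} {g : T → T} {v : T} (h : ¬ (N ≤ v.1.length ∧ tk N v ∈ S)) :
    cut N S g v = v := if_neg h

/-- The elements of `L` which fix all the vertices of level `N`. -/
def St (N : ℕ) (g : Equiv.Perm T) : Prop := g ∈ L ∧ ∀ v : T, v.1.length = N → g v = v

theorem St.inv {N : ℕ} {g : Equiv.Perm T} (h : St N g) : St N g⁻¹ :=
  ⟨inv_mem h.1, fun v hv => by
    have := h.2 v hv
    conv_lhs => rw [← this]
    exact ias _ _⟩

theorem St.tk_apply {N : ℕ} {g : Equiv.Perm T} (h : St N g) {v : T} (hv : N ≤ v.1.length) :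
    tk N (g v) = tk N v := by
  rw [← h.1.2.1, h.2 _ (by rw [len_tk]; omega)]

theorem cut_cut {N : ℕ} {S : Set T} {g : Equiv.Perm T} (h : St N g) (v : T) :
    cut N S (g⁻¹ : Equiv.Perm T) (cut N S g v) = v := by
  by_cases h1 : N ≤ v.1.length ∧ tk N v ∈ S
  · rw [cut_pos h1]
    have h2 : N ≤ (g v).1.length ∧ tk N (g v) ∈ S := by
      rw [h.1.1, h.tk_apply h1.1]
      exact h1
    rw [cut_pos h2, ias]
  · rw [cut_neg h1, cut_neg h1]

/-- The action of `g` below the vertices of `S` of level `N`, as a permutation. -/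
noncomputable def Cut (N : ℕ) (S : Set T) (g : Equiv.Perm T) (h : St N g) : Equiv.Perm T where
  toFun := cut N S g
  invFun := cut N S (g⁻¹ : Equiv.Perm T)
  left_inv v := cut_cut h v
  right_inv v := by
    have := cut_cut (S := S) h.inv v
    rwa [inv_inv] at this

theorem len_cut {N : ℕ} {S : Set T} {g : Equiv.Perm T} (h : St N g) (v : T) :
    (cut N S g v).1.length = v.1.length := by
  by_cases h1 : N ≤ v.1.length ∧ tk N v ∈ S
  · rw [cut_pos h1, h.1.1]
  · rw [cut_neg h1]

theorem cut_tk {N : ℕ} {S : Set T} {g : Equiv.Perm T} (h : St N g) (n : ℕ) (v : T) :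
    cut N S g (tk n v) = tk n (cut N S g v) := by
  by_cases h1 : N ≤ v.1.length ∧ tk N v ∈ S
  · rw [cut_pos h1]
    by_cases h2 : N ≤ n
    · have h3 : N ≤ (tk n v).1.length ∧ tk N (tk n v) ∈ S := by
        rw [len_tk, tk_tk, min_eq_left h2]
        exact ⟨le_min h2 h1.1, h1.2⟩
      rw [cut_pos h3, h.1.2.1]
    · have h3 : ¬ (N ≤ (tk n v).1.length ∧ tk N (tk n v) ∈ S) := by
        rw [len_tk]
        omega
      rw [cut_neg h3]
      have h4 := h.tk_apply h1.1
      have h5 : tk n (tk N (g v)) = tk n (tk N v) := by rw [h4]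
      rw [tk_tk, tk_tk, min_eq_left (by omega)] at h5
      exact h5.symm
  · rw [cut_neg h1]
    have h3 : ¬ (N ≤ (tk n v).1.length ∧ tk N (tk n v) ∈ S) := by
      rintro ⟨h4, h5⟩
      rw [len_tk] at h4
      apply h1
      refine ⟨by omega, ?_⟩
      rwa [tk_tk, min_eq_left (by omega)] at h5
    rw [cut_neg h3]

theorem Cut_mem {N : ℕ} (hN : 2 ≤ N) {S : Set T} {g : Equiv.Perm T} (h : St N g) :
    Cut N S g h ∈ L := by
  refine ⟨fun v => len_cut h v, fun n v => cut_tk h n v, 0, 0, fun v hv => ?_⟩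
  have h1 : ∀ w : T, w.1.length = 2 → cut N S g w = w := by
    intro w hw
    by_cases h2 : N ≤ w.1.length ∧ tk N w ∈ S
    · rw [cut_pos h2]
      exact h.2 w (by omega)
    · exact cut_neg h2
  have h2 : tk 2 (cut N S g v) = tk 2 v := by
    rw [← cut_tk h, h1 _ (by rw [len_tk]; omega)]
  have h3 : ∀ (w : T) (i : ℕ), i < 2 → (tk 2 w).1.getD i 0 = w.1.getD i 0 := by
    intro w i hi
    simp [tk, List.getD_eq_getElem?_getD, hi]
  have h4 := getD_lt v 0
  have h5 := getD_lt v 1
  change (cut N S g v).1.getD 0 0 = _ ∧ (cut N S g v).1.getD 1 0 = _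
  rw [← h3 (cut N S g v) 0 (by norm_num), ← h3 (cut N S g v) 1 (by norm_num), h2,
    h3 _ _ (by norm_num), h3 _ _ (by norm_num)]
  omega

/-- The generators of the rigid stabilizer of level `n`. -/
def Ri (n : ℕ) : Set (Equiv.Perm T) :=
  {g | g ∈ L ∧ ∃ u : T, u.1.length = n ∧ ∀ v : T, ¬ List.IsPrefix u.1 v.1 → g v = v}

theorem Cut_singleton_mem {N : ℕ} (hN : 2 ≤ N) {u : T} (hu : u.1.length = N) {g : Equiv.Perm T}
    (h : St N g) : Cut N {u} g h ∈ Ri N := by
  refine ⟨Cut_mem hN h, u, hu, fun v hv => ?_⟩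
  apply cut_neg
  rintro ⟨h1, h2⟩
  apply hv
  rw [prefix_iff, hu]
  exact (Set.mem_singleton_iff.1 h2).symm

theorem finite_level (N : ℕ) : {v : T | v.1.length = N}.Finite := by
  let f : (Fin N → Fin 2) → T := fun s => ⟨List.ofFn fun i => (s i).1, ok_of fun x hx => by
    obtain ⟨i, rfl⟩ := (List.mem_ofFn' _ _).1 hx
    exact (s i).2⟩
  refine (Set.finite_range f).subset ?_
  rintro v rfl
  refine ⟨fun i => ⟨v.1.get i, v.2 i.1 i.2⟩, ?_⟩
  apply Subtype.ext
  change List.ofFn (fun i => v.1.get i) = v.1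
  exact List.ofFn_get v.1

theorem Cut_closure {N : ℕ} (hN : 2 ≤ N) {S : Set T} (hS : S.Finite) (g : Equiv.Perm T)
    (h : St N g) : Cut N S g h ∈ Subgroup.closure (Ri N) := by
  induction S, hS using Set.Finite.induction_on with
  | empty =>
    have : Cut N ∅ g h = 1 := by
      apply Equiv.ext
      intro v
      exact cut_neg fun h1 => h1.2
    rw [this]
    exact one_mem _
  | @insert u S hu _ ih =>
    by_cases hl : u.1.length = N
    · have : Cut N (insert u S) g h = Cut N {u} g h * Cut N S g h := by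
        apply Equiv.ext
        intro v
        change cut N (insert u S) g v = cut N {u} g (cut N S g v)
        by_cases h1 : N ≤ v.1.length ∧ tk N v ∈ S
        · rw [cut_pos h1, cut_pos ⟨h1.1, Or.inr h1.2⟩, cut_neg]
          rintro ⟨_, h3⟩
          rw [h.tk_apply h1.1] at h3
          exact hu (Set.mem_singleton_iff.1 h3 ▸ h1.2)
        · rw [cut_neg h1]
          by_cases h2 : N ≤ v.1.length ∧ tk N v ∈ ({u} : Set T)
          · rw [cut_pos h2, cut_pos ⟨h2.1, Or.inl h2.2⟩]
          · rw [cut_neg h2, cut_neg]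
            rintro ⟨h3, h4 | h4⟩
            · exact h2 ⟨h3, h4⟩
            · exact h1 ⟨h3, h4⟩
      rw [this]
      exact mul_mem (Subgroup.subset_closure (Cut_singleton_mem hN hl h)) ih
    · have : Cut N (insert u S) g h = Cut N S g h := by
        apply Equiv.ext
        intro v
        change cut N (insert u S) g v = cut N S g v
        by_cases h1 : N ≤ v.1.length ∧ tk N v ∈ S
        · rw [cut_pos h1, cut_pos ⟨h1.1, Or.inr h1.2⟩]
        · rw [cut_neg h1, cut_neg]
          rintro ⟨h3, h4 | h4⟩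
          · apply hl
            rw [← h4, len_tk]
            omega
          · exact h1 ⟨h3, h4⟩
      rw [this]
      exact ih

theorem St_le {N : ℕ} (hN : 2 ≤ N) (g : Equiv.Perm T) (h : St N g) :
    g ∈ Subgroup.closure (Ri N) := by
  have h1 := Cut_closure hN (finite_level N) g h
  have : Cut N {v : T | v.1.length = N} g h = g := by
    apply Equiv.ext
    intro v
    change cut N _ g v = g v
    by_cases h1 : N ≤ v.1.length
    · apply cut_pos
      refine ⟨h1, ?_⟩
      change (tk N v).1.length = N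
      rw [len_tk]
      omega
    · rw [cut_neg (fun h2 => h1 h2.1)]
      -- `v` is shorter than `N`, hence a truncation of a vertex of level `N`
      let w : T := ⟨v.1 ++ List.replicate (N - v.1.length) 0, ok_of fun x hx => by
        rcases List.mem_append.1 hx with h | h
        · exact lt_two v h
        · have := List.eq_of_mem_replicate h
          omega⟩
      have hw : w.1.length = N := by
        change (v.1 ++ List.replicate (N - v.1.length) 0).length = N
        simp
        omega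
      have hv : v = tk v.1.length w := Subtype.ext (by simp [tk, w])
      conv_rhs => rw [hv]
      rw [h.1.2.1, h.2 w hw, ← hv]
  rwa [this] at h1

theorem Ri_mono {n k : ℕ} (h : n ≤ k) : Ri k ⊆ Ri n := by
  rintro g ⟨hg, u, hu, h1⟩
  refine ⟨hg, tk n u, by rw [len_tk]; omega, fun v hv => h1 v fun h2 => hv ?_⟩
  refine List.IsPrefix.trans ?_ h2
  exact List.take_prefix _ _

/-- The action of `L` on a level. -/
instance act (N : ℕ) : MulAction L {v : T // v.1.length = N} where
  smul g v := ⟨g.1 v.1, by rw [g.2.1]; exact v.2⟩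
  one_smul v := rfl
  mul_smul g k v := rfl

instance fin_level (N : ℕ) : Finite {v : T // v.1.length = N} := (finite_level N).to_subtype

theorem index_ne_zero (n : ℕ) : ((Subgroup.closure (Ri n)).subgroupOf L).index ≠ 0 := by
  let N := max n 2
  let f : L →* Equiv.Perm {v : T // v.1.length = N} := MulAction.toPermHom _ _
  have h1 : f.ker ≤ (Subgroup.closure (Ri n)).subgroupOf L := by
    intro g hg
    rw [Subgroup.mem_subgroupOf]
    apply Subgroup.closure_mono (Ri_mono (le_max_left n 2))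
    apply St_le (le_max_right n 2)
    refine ⟨g.2, fun v hv => ?_⟩
    have h2 : f g ⟨v, hv⟩ = ⟨v, hv⟩ := by
      rw [MonoidHom.mem_ker.1 hg]
      rfl
    exact congrArg Subtype.val h2
  have h2 : ((Subgroup.closure (Ri n)).subgroupOf L).FiniteIndex :=
    Subgroup.finiteIndex_of_le h1
  exact h2.index_ne_zero

/-! ### The automorphism is not induced by a permutation of the vertices -/

/-- The translation sequence supported at `1`. -/
def e1 : ℕ → ℕ := fun i => if i = 1 then 1 else 0

theorem no_conj : ¬ ∃ σ : Equiv.Perm T, ∀ g : L,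
    ((phi g : L) : Equiv.Perm T) = σ * (g : Equiv.Perm T) * σ⁻¹ := by
  rintro ⟨σ, h⟩
  let g : L := ⟨tr e1, tr_mem e1⟩
  have hg : ((phi g : L) : Equiv.Perm T) * σ = σ * (g : Equiv.Perm T) := by
    rw [h g]
    group
  let v0 : T := ⟨[], ok_of (by simp)⟩
  let v1 : T := ⟨[0], ok_of (by simp)⟩
  have f0 : (g : Equiv.Perm T) v0 = v0 := rfl
  have f1 : (g : Equiv.Perm T) v1 = v1 := rfl
  have key : ∀ v : T, (g : Equiv.Perm T) v = v → σ v = v0 := by
    intro v hv
    have h1 : ((phi g : L) : Equiv.Perm T) (σ v) = σ v := by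
      have := Equiv.ext_iff.1 hg v
      rw [Equiv.Perm.mul_apply, Equiv.Perm.mul_apply, hv] at this
      exact this
    change ph (tr e1) (σ v) = σ v at h1
    set w := σ v with hw
    by_contra hne
    have hl : 1 ≤ w.1.length := by
      rcases Nat.eq_zero_or_pos w.1.length with h2 | h2
      · exact absurd (Subtype.ext (List.eq_nil_of_length_eq_zero h2)) hne
      · exact h2
    have h2 : 2 ≤ (pad w).1.length := by rw [len_pad]; omega
    have h3 := (Psi_getD (tr_mem e1) (tr_Tr e1) h2).1
    have h4 : tk 1 (ph (tr e1) w) = tk 1 (Psi (tr e1) (pad w)) := by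
      rw [ph, tk_tk, min_eq_left hl]
    have h5 := getD_zero_of_tk h4
    rw [h1, h3] at h5
    have h6 : (pad w).1.getD 0 0 = w.1.getD 0 0 := by
      apply getD_zero_of_tk
      conv_rhs => rw [← tk_pad w]
      rw [tk_tk, min_eq_left hl]
    have h7 : e1 1 = 1 := rfl
    have h8 := getD_lt w 0
    rw [h6, h7] at h5
    omega
  have h2 : σ v0 = σ v1 := by rw [key v0 f0, key v1 f1]
  have h3 := congrArg (fun v : T => v.1.length) (σ.injective h2)
  simp [v0, v1] at h3

end Pool.Agent.P8H61.Branch
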