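import Pool.Agent.P8H61.Res
import Pool.Agent.P8H61.Flag

set_option autoImplicit false

/-!
# The cubical chain complex of the universal covering
-/

namespace Pool.Agent.P8H61

open Classical Finsupp

variable {W E : Type} (S : RS W E)

/-- two edges spanning a square -/
def Perp (e f : E) : Prop := ∃ x y, S.Sq e f x y

/-- the edge parallel to `f` after `e` -/
noncomputable def res (e f : E) : E := if h : ∃ x y, S.Sq e f x y then h.choose else f

/-- the edge `f` seen from the end of `e` -/
noncomputable def tw (e f : E) : E := if f = e then S.inv e else res S e f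

/-- compatibility of a position function with squares -/
structure PosOK (pos : E → ℕ) : Prop where
  ne : ∀ {e f x y}, S.Sq e f x y → pos e ≠ pos f
  par : ∀ {e f g x x' y y' z w}, S.Sq e f x y → S.Sq e g x' y' → S.Sq f g z w →
    (pos f < pos g ↔ pos x < pos x')
  inv : ∀ {e f x y}, S.Sq e f x y → (pos e < pos f ↔ pos (S.inv e) < pos x)

variable {S}

theorem res_eq {e f x y : E} (h : S.Sq e f x y) : res S e f = x := by
  have h' : ∃ x y, S.Sq e f x y := ⟨x, y, h⟩
  unfold res
  rw [dif_pos h']
  exact (S.func h'.choose_spec.choose_spec h).1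

theorem Perp.symm {e f : E} (h : Perp S e f) : Perp S f e := by
  obtain ⟨x, y, h⟩ := h
  exact ⟨y, x, S.symm h⟩

theorem Perp.sq {e f : E} (h : Perp S e f) : S.Sq e f (res S e f) (res S f e) := by
  obtain ⟨x, y, h⟩ := h
  rw [res_eq h, res_eq (S.symm h)]
  exact h

theorem Perp.ne {e f : E} (h : Perp S e f) : e ≠ f := by
  rintro rfl
  exact S.ne h.sq

@[simp] theorem tw_self (e : E) : tw S e e = S.inv e := by
  unfold tw
  rw [if_pos rfl]

theorem tw_of_ne {e f : E} (h : e ≠ f) : tw S e f = res S e f := by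
  unfold tw
  rw [if_neg h.symm]

theorem Perp.res_ne {e f : E} (h : Perp S e f) : S.inv e ≠ res S e f := by
  have h1 := S.rot h.sq
  intro h2
  rw [← h2] at h1
  exact S.ne h1

/-- twisting back -/
theorem Perp.res_res {e f : E} (h : Perp S e f) : res S (S.inv e) (res S e f) = f :=
  res_eq (S.rot h.sq)

theorem Perp.res_inv {e f : E} (h : Perp S e f) : res S (res S e f) (S.inv e) =
    S.inv (res S f e) :=
  res_eq (S.symm (S.rot h.sq))

theorem cube_res {e f g : E} (h1 : Perp S e f) (h2 : Perp S e g) (h3 : Perp S f g) :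
    Perp S (res S e f) (res S e g) ∧
      res S (res S e f) (res S e g) = res S (res S f e) (res S f g) := by
  obtain ⟨X, Y, Z, d1, d2, d3⟩ := S.cube h1.sq h2.sq h3.sq
  exact ⟨⟨Z, Y, d1⟩, by rw [res_eq d1, res_eq d2]⟩

variable (S) (b : W)

/-- vertices of the universal covering with sets of edges -/
abbrev Fm := V S b × Finset E

variable {S} {b}

/-- a pointed cube: a vertex with a set of pairwise perpendicular edges starting there -/
def Fr (p : Fm S b) : Prop :=
  (∀ e ∈ p.2, S.src e = p.1.en) ∧ ∀ e ∈ p.2, ∀ f ∈ p.2, e ≠ f → Perp S e f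

/-- the same cube, seen from the vertex at the end of `e` -/
noncomputable def flip (e : E) (p : Fm S b) : Fm S b := (act e p.1, p.2.image (tw S e))

/-- front face -/
noncomputable def del (e : E) (p : Fm S b) : Fm S b := (p.1, p.2.erase e)

/-- back face -/
noncomputable def bk (e : E) (p : Fm S b) : Fm S b := del (S.inv e) (flip e p)

theorem del_comm (e f : E) (p : Fm S b) : del e (del f p) = del f (del e p) := by
  unfold del
  simp only
  rw [Finset.erase_right_comm]

section

variable {p : Fm S b} (hp : Fr p) {e f : E} (he : e ∈ p.2) (hf : f ∈ p.2)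

include hp

theorem Fr.delFr (e : E) : Fr (del e p) :=
  ⟨fun f hf => hp.1 f (Finset.mem_of_mem_erase hf), fun f hf g hg hne =>
    hp.2 f (Finset.mem_of_mem_erase hf) g (Finset.mem_of_mem_erase hg) hne⟩

include he

theorem Fr.tw_inj {f g : E} (hf : f ∈ p.2) (hg : g ∈ p.2) (h : tw S e f = tw S e g) : f = g := by
  by_cases h1 : e = f
  · by_cases h2 : e = g
    · exact h1.symm.trans h2
    · subst h1
      rw [tw_self, tw_of_ne h2] at h
      exact absurd h (hp.2 e he g hg h2).res_ne
  · by_cases h2 : e = g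
    · subst h2
      rw [tw_self, tw_of_ne h1] at h
      exact absurd h.symm (hp.2 e he f hf h1).res_ne
    · rw [tw_of_ne h1, tw_of_ne h2] at h
      have h3 := (hp.2 e he f hf h1).res_res
      rw [h, (hp.2 e he g hg h2).res_res] at h3
      exact h3.symm

theorem Fr.tw_injOn : Set.InjOn (tw S e) p.2 := fun _ hf _ hg h => hp.tw_inj he hf hg h

theorem Fr.flipFr : Fr (flip e p) := by
  have hs : ∀ f ∈ p.2, S.src (tw S e f) = S.tgt e := by
    intro f hf
    by_cases h : e = f
    · subst h
      rw [tw_self, S.src_inv]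
    · rw [tw_of_ne h, S.sq_mid (hp.2 e he f hf h).sq]
  refine ⟨?_, ?_⟩
  · intro f' hf'
    obtain ⟨f, hf, rfl⟩ := Finset.mem_image.1 hf'
    change _ = (act e p.1).en
    rw [act_en (hp.1 e he), hs f hf]
  · intro f' hf' g' hg' hne
    obtain ⟨f, hf, rfl⟩ := Finset.mem_image.1 hf'
    obtain ⟨g, hg, rfl⟩ := Finset.mem_image.1 hg'
    have hfg : f ≠ g := fun h => hne (by rw [h])
    by_cases h1 : e = f
    · subst h1
      rw [tw_self, tw_of_ne hfg]
      exact ⟨_, _, S.rot (hp.2 e he g hg hfg).sq⟩
    · by_cases h2 : e = g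
      · subst h2
        rw [tw_self, tw_of_ne h1]
        exact ⟨_, _, S.symm (S.rot (hp.2 e he f hf h1).sq)⟩
      · rw [tw_of_ne h1, tw_of_ne h2]
        exact (cube_res (hp.2 e he f hf h1) (hp.2 e he g hg h2) (hp.2 f hf g hg hfg)).1

theorem Fr.flip_flip : flip (S.inv e) (flip e p) = p := by
  refine Prod.ext ?_ ?_
  · exact act_inv (hp.1 e he)
  · change Finset.image _ (Finset.image _ p.2) = p.2
    rw [Finset.image_image]
    conv_rhs => rw [← Finset.image_id (s := p.2)]
    apply Finset.image_congr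
    intro f hf
    rw [Function.comp_apply, id]
    by_cases h : e = f
    · subst h
      rw [tw_self, tw_self, S.inv_inv]
    · have h1 := hp.2 e he f hf h
      rw [tw_of_ne h, tw_of_ne h1.res_ne, h1.res_res]

include hf

theorem Fr.tw_inv (hne : e ≠ f) : tw S (tw S e f) (S.inv e) = S.inv (tw S f e) := by
  have h := hp.2 e he f hf hne
  rw [tw_of_ne hne, tw_of_ne hne.symm, tw_of_ne h.res_ne.symm, h.res_inv]

theorem Fr.flip_comm (hne : e ≠ f) : flip (tw S e f) (flip e p) =
    flip (tw S f e) (flip f p) := by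
  have h := hp.2 e he f hf hne
  refine Prod.ext ?_ ?_
  · change act _ (act e p.1) = act _ (act f p.1)
    rw [tw_of_ne hne, tw_of_ne hne.symm]
    exact act_sq h.sq (hp.1 e he)
  · change Finset.image _ (Finset.image _ p.2) = Finset.image _ (Finset.image _ p.2)
    rw [Finset.image_image, Finset.image_image]
    apply Finset.image_congr
    intro g hg
    rw [Function.comp_apply, Function.comp_apply]
    by_cases h1 : e = g
    · subst h1
      rw [tw_self, hp.tw_inv he hf hne, tw_self]
    · by_cases h2 : f = g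
      · subst h2
        rw [tw_self, tw_self, hp.tw_inv hf he hne.symm]
      · have h3 := hp.2 e he g hg h1
        have h4 := hp.2 f hf g hg h2
        rw [tw_of_ne hne, tw_of_ne hne.symm, tw_of_ne h1, tw_of_ne h2]
        have h5 := cube_res h h3 h4
        have h6 := cube_res h.symm h4 h3
        rw [tw_of_ne h5.1.ne, tw_of_ne h6.1.ne]
        exact h5.2

theorem Fr.del_flip (_hne : e ≠ f) : del (tw S f e) (flip f p) =
    flip f (del e p) := by
  refine Prod.ext rfl ?_
  change (Finset.image _ p.2).erase _ = Finset.image _ (p.2.erase e)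
  ext g
  simp only [Finset.mem_erase, Finset.mem_image]
  constructor
  · rintro ⟨h1, a, ha, rfl⟩
    exact ⟨a, ⟨fun h => h1 (by rw [h]), ha⟩, rfl⟩
  · rintro ⟨a, ⟨h1, ha⟩, rfl⟩
    exact ⟨fun h => h1 (hp.tw_inj hf ha he h), a, ha, rfl⟩

theorem Fr.bk_del (hne : e ≠ f) : bk f (del e p) =
    del (tw S f e) (bk f p) := by
  unfold bk
  rw [← hp.del_flip he hf hne, del_comm]

theorem Fr.flip_bk (hne : e ≠ f) : bk (tw S f e) (flip f p) =
    flip (tw S e f) (bk e p) := by
  have h := hp.2 e he f hf hne
  unfold bk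
  have h1 : tw S e f ∈ (flip e p).2 := Finset.mem_image_of_mem _ hf
  have h2 : S.inv e ∈ (flip e p).2 := by
    rw [← tw_self]; exact Finset.mem_image_of_mem _ he
  rw [← (hp.flipFr he).del_flip h2 h1, hp.tw_inv he hf hne, hp.flip_comm he hf hne]
  rw [tw_of_ne hne]
  exact h.res_ne

theorem Fr.bk_bk (hne : e ≠ f) : bk (tw S e f) (bk e p) = bk (tw S f e) (bk f p) := by
  have h := hp.2 e he f hf hne
  have key : ∀ {e f : E}, e ∈ p.2 → f ∈ p.2 → e ≠ f → bk (tw S e f) (bk e p) =
      del (S.inv (tw S e f)) (del (S.inv (tw S f e))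
        (flip (tw S e f) (flip e p))) := by
    intro e f he hf hne
    have h := hp.2 e he f hf hne
    have h1 : tw S e f ∈ (flip e p).2 := Finset.mem_image_of_mem _ hf
    have h2 : S.inv e ∈ (flip e p).2 := by
      rw [← tw_self]; exact Finset.mem_image_of_mem _ he
    have h3 := (hp.flipFr he).bk_del h2 h1 (by rw [tw_of_ne hne]; exact h.res_ne)
    rw [hp.tw_inv he hf hne] at h3
    change bk (tw S e f) (del (S.inv e) (flip e p)) = _
    rw [h3, del_comm]
    rfl
  rw [key he hf hne, key hf he hne.symm, del_comm, hp.flip_comm he hf hne]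

omit hf

theorem Fr.bk_inv : bk (S.inv e) (flip e p) = del e p := by
  unfold bk
  rw [hp.flip_flip he, S.inv_inv]

theorem Fr.bk_snd : (bk e p).2 = (p.2.erase e).image (tw S e) := by
  change (Finset.image _ p.2).erase _ = _
  ext g
  simp only [Finset.mem_erase, Finset.mem_image]
  constructor
  · rintro ⟨h1, a, ha, rfl⟩
    refine ⟨a, ⟨fun h => h1 (by rw [h, tw_self]), ha⟩, rfl⟩
  · rintro ⟨a, ⟨h1, ha⟩, rfl⟩
    refine ⟨fun h => h1 (hp.tw_inj he ha he (by rw [h, tw_self])), a, ha, rfl⟩

theorem Fr.bkFr : Fr (bk e p) := (hp.flipFr he).delFr _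

theorem Fr.card_flip : (flip e p).2.card = p.2.card :=
  Finset.card_image_of_injOn (hp.tw_injOn he)

theorem Fr.card_bk : (bk e p).2.card + 1 = p.2.card := by
  rw [hp.bk_snd he, Finset.card_image_of_injOn]
  · exact Finset.card_erase_add_one he
  · intro f hf g hg h
    exact hp.tw_inj he (Finset.mem_of_mem_erase hf) (Finset.mem_of_mem_erase hg) h

end

variable {pos : E → ℕ}

theorem sg_image {F : Finset E} {τ : E → E} (hi : Set.InjOn τ F)
    (hm : ∀ a ∈ F, ∀ c ∈ F, pos a < pos c ↔ pos (τ a) < pos (τ c)) {a : E} (ha : a ∈ F) :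
    sg pos (F.image τ) (τ a) = sg pos F a := by
  unfold sg
  congr 1
  rw [Finset.filter_image, Finset.card_image_of_injOn]
  · congr 1
    apply Finset.filter_congr
    intro c hc
    exact (hm c hc a ha).symm
  · intro c hc d hd h
    exact hi (Finset.mem_of_mem_filter _ hc) (Finset.mem_of_mem_filter _ hd) h

theorem Fr.tw_pos (hpos : PosOK S pos) {p : Fm S b} (hp : Fr p) {e : E} (he : e ∈ p.2) :
    ∀ a ∈ p.2, ∀ c ∈ p.2, pos a < pos c ↔ pos (tw S e a) < pos (tw S e c) := by
  intro a ha c hc
  by_cases h1 : e = a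
  · subst h1
    by_cases h2 : e = c
    · subst h2
      simp
    · rw [tw_self, tw_of_ne h2]
      exact hpos.inv (hp.2 e he c hc h2).sq
  · have h1' := (hp.2 e he a ha h1).sq
    by_cases h2 : e = c
    · subst h2
      rw [tw_self, tw_of_ne h1]
      have h3 := hpos.inv h1'
      have h4 := hpos.ne h1'
      have h5 := hpos.ne (S.rot h1')
      omega
    · by_cases h3 : a = c
      · subst h3
        simp
      · rw [tw_of_ne h1, tw_of_ne h2]
        exact hpos.par h1' (hp.2 e he c hc h2).sq (hp.2 a ha c hc h3).sq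

theorem Fr.sg_flip (hpos : PosOK S pos) {p : Fm S b} (hp : Fr p) {e f : E} (he : e ∈ p.2)
    (hf : f ∈ p.2) : sg pos (flip e p).2 (tw S e f) = sg pos p.2 f :=
  sg_image (hp.tw_injOn he) (hp.tw_pos hpos he) hf

theorem Fr.sg_bk (hpos : PosOK S pos) {p : Fm S b} (hp : Fr p) {e f : E} (he : e ∈ p.2)
    (hf : f ∈ p.2) (hne : f ≠ e) :
    sg pos (bk e p).2 (tw S e f) = sg pos (p.2.erase e) f := by
  rw [hp.bk_snd he]
  apply sg_image
  · intro a ha c hc h
    exact hp.tw_inj he (Finset.mem_of_mem_erase ha) (Finset.mem_of_mem_erase hc) h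
  · intro a ha c hc
    exact hp.tw_pos hpos he a (Finset.mem_of_mem_erase ha) c (Finset.mem_of_mem_erase hc)
  · exact Finset.mem_erase.2 ⟨hne, hf⟩

variable (S b pos) in
/-- the cubical boundary -/
noncomputable def dd : (Fm S b →₀ ℤ) →ₗ[ℤ] (Fm S b →₀ ℤ) :=
  lin fun p => ∑ e ∈ p.2, sg pos p.2 e • (single (del e p) 1 - single (bk e p) 1)

theorem dd_single (p : Fm S b) : dd S b pos (single p 1) =
    ∑ e ∈ p.2, sg pos p.2 e • (single (del e p) 1 - single (bk e p) 1) := lin_single _ _

theorem sum_anti {X N : Type} [AddCommGroup N] [Module ℤ N] (F : Finset X) (g : X → X → N)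
    (h : ∀ e ∈ F, ∀ f ∈ F, e ≠ f → g e f = - g f e) :
    ∑ e ∈ F, ∑ f ∈ F.erase e, g e f = 0 := by
  induction F using Finset.induction_on with
  | empty => simp
  | insert a F ha ih =>
    rw [Finset.sum_insert ha, Finset.erase_insert ha]
    have h1 : ∑ e ∈ F, ∑ f ∈ (insert a F).erase e, g e f =
        ∑ e ∈ F, (g e a + ∑ f ∈ F.erase e, g e f) := by
      apply Finset.sum_congr rfl
      intro e he
      have hea : a ≠ e := fun h => ha (h ▸ he)
      rw [Finset.erase_insert_of_ne hea, Finset.sum_insert (fun h' => ha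
        (Finset.mem_of_mem_erase h'))]
    rw [h1, Finset.sum_add_distrib, ih (fun e he f hf => h e (Finset.mem_insert_of_mem he) f
      (Finset.mem_insert_of_mem hf)), add_zero, ← Finset.sum_add_distrib]
    apply Finset.sum_eq_zero
    intro e he
    rw [h a (Finset.mem_insert_self a F) e (Finset.mem_insert_of_mem he)
      (fun h => ha (h ▸ he))]
    exact neg_add_cancel _

theorem dd_dd_single (hpos : PosOK S pos) {p : Fm S b} (hp : Fr p) :
    dd S b pos (dd S b pos (single p 1)) = 0 := by
  rw [dd_single, map_sum]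
  have h1 : ∀ e ∈ p.2, dd S b pos (sg pos p.2 e • (single (del e p) 1 - single (bk e p) 1)) =
      ∑ f ∈ p.2.erase e, (sg pos p.2 e * sg pos (p.2.erase e) f) •
        ((single (del f (del e p)) 1 - single (bk f (del e p)) 1) -
        (single (del (tw S e f) (bk e p)) 1 - single (bk (tw S e f) (bk e p)) 1)) := by
    intro e he
    have h2 : (del e p).2 = p.2.erase e := rfl
    rw [map_smul, map_sub, dd_single, dd_single, hp.bk_snd he, Finset.sum_image, ← hp.bk_snd he,
      h2, ← Finset.sum_sub_distrib, Finset.smul_sum]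
    · apply Finset.sum_congr rfl
      intro f hf
      have hf' := Finset.mem_erase.1 hf
      rw [hp.sg_bk hpos he hf'.2 hf'.1, mul_smul, ← smul_sub]
    · intro a ha c hc h
      exact hp.tw_inj he (Finset.mem_of_mem_erase ha) (Finset.mem_of_mem_erase hc) h
  rw [Finset.sum_congr rfl h1]
  apply sum_anti
  intro e he f hf hne
  rw [sg_anti pos he hf (hpos.ne (hp.2 e he f hf hne).sq), neg_smul, neg_inj,
    del_comm f e, hp.bk_del he hf hne, ← hp.bk_del hf he hne.symm, hp.bk_bk he hf hne]
  congr 1
  abel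

/-- pointed cubes of dimension `k` -/
def FrK (k : ℕ) (p : Fm S b) : Prop := Fr p ∧ p.2.card = k

theorem dd_dd (hpos : PosOK S pos) {z : Fm S b →₀ ℤ} (hz : z ∈ supported ℤ ℤ {p | Fr p}) :
    dd S b pos (dd S b pos z) = 0 := by
  have h := supp_eq ((dd S b pos).comp (dd S b pos)) 0 (s := {p | Fr p})
    (fun p hp => by
      rw [LinearMap.comp_apply, LinearMap.zero_apply]
      exact dd_dd_single hpos hp) hz
  rw [LinearMap.comp_apply, LinearMap.zero_apply] at h
  exact h

end Pool.Agent.P8H61
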