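import Pool.Agent.P8H61.Lts
import Pool.Agent.P8H61.Amb

set_option autoImplicit false
set_option linter.unusedSectionVars false

/-!
# The deck transformation group is of type `FP_n` for all `n`
-/

namespace Pool.Agent.P8H61

open Classical Finsupp Pool.Agent.Y72.Ty

theorem fin_words {X : Type} {s : Set X} (hs : s.Finite) (n : ℕ) :
    {l : List X | (∀ x ∈ l, x ∈ s) ∧ l.length ≤ n}.Finite := by
  induction n with
  | zero =>
    refine (Set.finite_singleton []).subset ?_
    rintro l ⟨_, h⟩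
    exact List.length_eq_zero_iff.1 (by omega)
  | succ n ih =>
    refine ((Set.finite_singleton []).union (hs.image2 (fun x l => x :: l) ih)).subset ?_
    rintro l ⟨h1, h2⟩
    cases l with
    | nil => exact Or.inl rfl
    | cons x l =>
      right
      exact ⟨x, h1 x (List.mem_cons_self ..), l, ⟨fun y hy => h1 y (List.mem_cons_of_mem _ hy),
        by simpa using h2⟩, rfl⟩

theorem fin_sub {X : Type} (k : List X) : {l : List X | l.Sublist k}.Finite := by
  have h : {l : List X | l.Sublist k} = {l | l ∈ k.sublists} := by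
    ext l
    simp
  rw [h]
  exact List.finite_toSet _

/-- orbits and an invariant with finitely many values -/
theorem fin_orbits {H X T : Type} (f : X → T) (r : H → X → X) {C : Set X}
    (h1 : (f '' C).Finite) (h2 : ∀ x ∈ C, ∀ y ∈ C, f x = f y → ∃ h, r h x = y) :
    ∃ s : Set X, s.Finite ∧ s ⊆ C ∧ ∀ x ∈ C, ∃ y ∈ s, ∃ h, r h y = x := by
  have := h1.to_subtype
  refine ⟨Set.range fun t : (f '' C) => t.2.choose, Set.finite_range _, ?_, ?_⟩
  · rintro _ ⟨t, rfl⟩
    exact t.2.choose_spec.1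
  · intro x hx
    have hx' : f x ∈ f '' C := ⟨x, hx, rfl⟩
    obtain ⟨h, hh⟩ := h2 hx'.choose hx'.choose_spec.1 x hx hx'.choose_spec.2
    exact ⟨hx'.choose, ⟨⟨f x, hx'⟩, rfl⟩, h, hh⟩

variable {M A R : Type} [Monoid M] (ca : A → M) (cr : R → M) (D : Set (List (Lt M A R)))

theorem fin_alph (hD : D.Finite) : ∃ s : Set (Lt M A R), s.Finite ∧ ∀ l, Gd ca cr D l →
    ∀ x ∈ l, x ∈ s := by
  refine ⟨(⋃ k ∈ D, {x | x ∈ k}) ∪
    ((fun l => Lt.pl (vw ca cr l)) '' ⋃ k ∈ D, {l | l.Sublist k}), ?_, ?_⟩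
  · refine Set.Finite.union (hD.biUnion fun k _ => List.finite_toSet k)
      ((hD.biUnion fun k _ => fin_sub k).image _)
  · intro l hl x hx
    by_cases hx' : x.extra
    · obtain ⟨k, hk, h⟩ := hl.2 x hx hx'
      exact Or.inl (Set.mem_iUnion₂.2 ⟨k, hk, h⟩)
    · right
      rcases x with m | a | r
      · obtain ⟨l1, l3, rfl⟩ := List.append_of_mem hx
        obtain ⟨k1, k2, k3, h1, -, h2, -⟩ := hl.1 l1 [.pl m] l3 rfl
        refine ⟨k2, Set.mem_iUnion₂.2 ⟨_, h1, ?_⟩, ?_⟩
        · exact (List.sublist_append_left k2 k3).trans (List.sublist_append_right k1 _)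
        · simp only [← h2]
          simp [lv]
      · exact absurd trivial hx'
      · exact absurd trivial hx'

theorem fin_good (hD : D.Finite) (N : ℕ) : {l | Gd ca cr D l ∧ ht l ≤ N}.Finite := by
  obtain ⟨s, hs, h⟩ := fin_alph ca cr D hD
  refine (fin_words hs N).subset ?_
  rintro l ⟨h1, h2⟩
  exact ⟨h l h1, (len_le_ht l).trans h2⟩

theorem fin_top (q : List (Lt M A R)) : {g : Ru M A R | (KS ca cr).top g = q}.Finite := by
  have h : ∀ g : Ru M A R, (KS ca cr).top g = q → g ∈
      (({g | ∃ m m', q = [.pl m, .pl m'] ∧ g = .mg m m'} ∪ {g | ∃ a, q = [.sg a] ∧ g = .sg a}) ∪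
      ({g | ∃ r, q = [.rl r] ∧ g = .rl r true} ∪ {g | ∃ r, q = [.rl r] ∧ g = .rl r false}) :
        Set (Ru M A R)) := by
    rintro (⟨m, m'⟩ | a | ⟨r, s⟩) hg
    · exact Or.inl (Or.inl ⟨m, m', hg.symm, rfl⟩)
    · exact Or.inl (Or.inr ⟨a, hg.symm, rfl⟩)
    · cases s
      · exact Or.inr (Or.inr ⟨r, hg.symm, rfl⟩)
      · exact Or.inr (Or.inl ⟨r, hg.symm, rfl⟩)
  refine Set.Finite.subset (Set.Finite.union (Set.Finite.union ?_ ?_) (Set.Finite.union ?_ ?_)) h
  · apply Set.Subsingleton.finite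
    rintro g ⟨m, m', h1, rfl⟩ g' ⟨n, n', h2, rfl⟩
    rw [h1] at h2
    simp at h2
    rw [h2.1, h2.2]
  · apply Set.Subsingleton.finite
    rintro g ⟨m, h1, rfl⟩ g' ⟨n, h2, rfl⟩
    rw [h1] at h2
    simp at h2
    rw [h2]
  · apply Set.Subsingleton.finite
    rintro g ⟨m, h1, rfl⟩ g' ⟨n, h2, rfl⟩
    rw [h1] at h2
    simp at h2
    rw [h2]
  · apply Set.Subsingleton.finite
    rintro g ⟨m, h1, rfl⟩ g' ⟨n, h2, rfl⟩
    rw [h1] at h2
    simp at h2
    rw [h2]

theorem fin_down (l : List (Lt M A R)) :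
    {e : GE (KS ca cr) (Gd ca cr D) | e.1.src (KS ca cr) = l ∧ e.1.s = true}.Finite := by
  apply Set.Finite.of_finite_image (f := Subtype.val) _ Subtype.val_injective.injOn
  have h : {e : RE (Lt M A R) (Ru M A R) | e.src (KS ca cr) = l ∧ e.s = true}.Finite := by
    have h1 := (fin_sub l).prod ((fin_sub l).prod (fin_sub l))
    refine (h1.biUnion (t := fun t => (fun g => (⟨t.1, g, true, t.2.2⟩ :
      RE (Lt M A R) (Ru M A R))) '' {g | (KS ca cr).top g = t.2.1})
      (fun t _ => (fin_top ca cr t.2.1).image _)).subset ?_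
    rintro ⟨a, g, s, c⟩ ⟨h2, rfl⟩
    have h3 : a ++ ((KS ca cr).top g ++ c) = l := h2
    refine Set.mem_iUnion₂.2 ⟨(a, (KS ca cr).top g, c), ?_, g, rfl, rfl⟩
    rw [← h3]
    refine ⟨List.sublist_append_left _ _, ?_, ?_⟩
    · exact (List.sublist_append_left _ _).trans (List.sublist_append_right a _)
    · exact (List.sublist_append_right _ _).trans (List.sublist_append_right a _)
  refine h.subset ?_
  rintro _ ⟨e, he, rfl⟩
  exact he

/-- the action of the deck transformations on the pointed cubes -/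
@[reducible] noncomputable def deckAct {W E : Type} (S : RS W E) (b : W) :
    MulAction (Deck S b) (Fm S b) where
  smul σ p := (σ.1 p.1, p.2)
  one_smul _ := rfl
  mul_smul _ _ _ := rfl

theorem deck_fp (hD : D.Finite) {b : List (Lt M A R)} (hb : Gd ca cr D b) (n : ℕ) :
    TypeFP (Deck (SK ca cr D) b) n := by
  let _ := deckAct (SK ca cr D) b
  have hsm : ∀ (σ : Deck (SK ca cr D) b) (p : Fm (SK ca cr D) b), σ • p = (σ.1 p.1, p.2) :=
    fun σ p => rfl
  set N := max (ht b) (2 * (3 * (n + 1) + 2)) with hN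
  have hNb : ht b ≤ N := le_max_left _ _
  have hNn : 2 * (3 * (n + 1) + 2) ≤ N := le_max_right _ _
  have hpos := gpos_ok (gd_ok ca cr D)
  have hori := dnO_ori (ca := ca) (cr := cr) (D := D) (b := b)
  have haugz : ∀ z : Fm (SK ca cr D) b →₀ ℤ, z.sum (fun _ a => a) = aug z := by
    intro z
    rw [aug, lin, Finsupp.linearCombination_apply]
    apply Finsupp.sum_congr
    intro x _
    simp
  refine typeFP_ambient n (fun k => CK dnO (fun v => ht v.en ≤ N) k) ?_ ?_ ?_ ?_
    (dd (SK ca cr D) b gpos) ?_ ?_ ?_ ?_ ?_ ?_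
  · rintro k σ p ⟨h1, h2, h3, h4⟩
    refine ⟨⟨fun e he => ?_, h1.2⟩, h2, h3, ?_⟩
    · rw [h1.1 e he]
      exact (σ.2.1 p.1).symm
    · change ht (σ.1 p.1).en ≤ N
      rw [σ.2.1]
      exact h4
  · intro σ p h
    apply Subtype.ext
    exact deck_free σ.2 (congrArg Prod.fst h)
  · intro k _
    refine fin_orbits (fun p : Fm (SK ca cr D) b => (p.1.en, p.2))
      (fun (σ : Deck (SK ca cr D) b) (p : Fm (SK ca cr D) b) => σ • p) ?_ ?_
    · refine ((fin_good ca cr D hD N).biUnion (t := fun l => (fun F : Finset (GE (KS ca cr) (Gd ca cr D)) => (l, F)) ''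
        {F : Finset (GE (KS ca cr) (Gd ca cr D)) | (F : Set (GE (KS ca cr) (Gd ca cr D))) ⊆
          {e : GE (KS ca cr) (Gd ca cr D) | e.1.src (KS ca cr) = l ∧ e.1.s = true}}) ?_).subset ?_
      · intro l _
        apply Set.Finite.image
        refine (Finset.finite_toSet ((fin_down ca cr D l).toFinset.powerset)).subset ?_
        intro F hF
        rw [Finset.mem_coe, Finset.mem_powerset]
        intro e he
        rw [Set.Finite.mem_toFinset]
        exact hF he
      · rintro _ ⟨p, ⟨h1, h2, h3, h4⟩, rfl⟩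
        refine Set.mem_iUnion₂.2 ⟨p.1.en, ⟨en_good hb p.1, h4⟩, p.2, ?_, rfl⟩
        intro e he
        exact ⟨h1.1 e he, h2 e he⟩
    · intro p _ q _ h
      obtain ⟨h2, h3⟩ := Prod.mk.inj h
      obtain ⟨σ, hσ, h1⟩ := deck_trans h2
      exact ⟨⟨σ, hσ⟩, Prod.ext h1 h3⟩
  · refine ⟨(bs (SK ca cr D) b, ∅), ⟨?_, ?_⟩, ?_, ?_, ?_⟩
    · intro e he; exact absurd he (Finset.notMem_empty _)
    · intro e he; exact absurd he (Finset.notMem_empty _)
    · intro e he; exact absurd he (Finset.notMem_empty _)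
    · exact Finset.card_empty
    · change ht (bs (SK ca cr D) b).en ≤ N
      rw [bs_en]
      exact hNb
  · intro k z hz
    exact dd_mem hori (fun e v h1 h2 h3 => (dnO_ht e v h1 h2).le.trans h3) hz
  · intro k σ p _
    have h1 : ∀ z : Fm (SK ca cr D) b →₀ ℤ, mapDomain (σ • ·) z =
        lmapDomain ℤ ℤ (fun p : Fm (SK ca cr D) b => σ • p) z := fun z => rfl
    rw [h1, dd_single, dd_single, map_sum]
    apply Finset.sum_congr rfl
    intro e _
    rw [map_smul, map_sub, lmapDomain_apply, lmapDomain_apply, mapDomain_single, mapDomain_single]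
    have h2 : bk e (σ • p) = σ • bk e p := by
      refine Prod.ext ?_ rfl
      exact (σ.2.2 e p.1).symm
    rw [h2]
    rfl
  · intro z
    rw [haugz, aug_dd]
  · intro k z hz
    exact dd_dd hpos (supported_mono CK_fr hz)
  · intro hn z hz h0
    rw [haugz] at h0
    exact push hpos hori (fun e v h1 h2 => dnO_ht e v h1 h2)
      (fun v hv => acyc_down hb v (by omega)) hz
      (exact_pos_zero hpos hori (supported_mono (CK_mono (fun _ _ => trivial) _) hz) h0)
  · intro k hk z hz h0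
    exact push hpos hori (fun e v h1 h2 => dnO_ht e v h1 h2)
      (fun v hv => acyc_down hb v (by omega)) hz
      (exact_pos hpos hori (supported_mono (CK_mono (fun _ _ => trivial) _) hz) h0)

end Pool.Agent.P8H61
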