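import Pool.Agent.P8H61.Val

set_option autoImplicit false
set_option linter.unusedSectionVars false

/-!
# Lifting homotopies of paths to the complex of good words
-/

namespace Pool.Agent.P8H61

open H540DG

section walk

variable {L Γ : Type} {Y : Sys L Γ} {Good : List L → Prop} (hG : GoodOK Y Good)
  {b : List L}

open Classical in
/-- moving along an edge if it is good -/
noncomputable def aR (e : RE L Γ) (v : V (StrS Y Good hG) b) : V (StrS Y Good hG) b :=
  if h : Good (e.src Y) ∧ Good (e.tgt Y) then act (⟨e, h⟩ : GE Y Good) v else v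

/-- moving along a path -/
noncomputable def walk : List (RE L Γ) → V (StrS Y Good hG) b → V (StrS Y Good hG) b
  | [], v => v
  | e :: l, v => walk l (aR hG e v)

variable (Y Good) in
/-- all edges of a path are good -/
def GP (l : List (RE L Γ)) : Prop := ∀ e ∈ l, Good (e.src Y) ∧ Good (e.tgt Y)

variable {hG}

theorem aR_act {e : RE L Γ} (h : Good (e.src Y) ∧ Good (e.tgt Y)) (v : V (StrS Y Good hG) b) :
    aR hG e v = act (⟨e, h⟩ : GE Y Good) v := by
  unfold aR
  rw [dif_pos h]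

theorem aR_en {e : RE L Γ} (h : Good (e.src Y) ∧ Good (e.tgt Y)) {v : V (StrS Y Good hG) b}
    (hv : v.en = e.src Y) : (aR hG e v).en = e.tgt Y := by
  rw [aR_act h]
  exact act_en (S := StrS Y Good hG) (x := (⟨e, h⟩ : GE Y Good)) hv.symm

theorem walk_append (l m : List (RE L Γ)) (v : V (StrS Y Good hG) b) :
    walk hG (l ++ m) v = walk hG m (walk hG l v) := by
  induction l generalizing v with
  | nil => rfl
  | cons e l ih => exact ih _

theorem walk_en {l : List (RE L Γ)} : ∀ {w w' : List L} {v : V (StrS Y Good hG) b},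
    RPath Y w l w' → GP Y Good l → v.en = w → (walk hG l v).en = w' := by
  induction l with
  | nil => intro w w' v h _ hv; cases h; exact hv
  | cons e l ih =>
    intro w w' v h hg hv
    obtain ⟨rfl, h2⟩ := h
    exact ih h2 (fun f hf => hg f (List.mem_cons_of_mem _ hf))
      (aR_en (hg e (List.mem_cons_self ..)) hv)

theorem good_inv {e : RE L Γ} (h : Good (e.src Y) ∧ Good (e.tgt Y)) :
    Good (e.inv.src Y) ∧ Good (e.inv.tgt Y) := by
  rw [RE.src_inv, RE.tgt_inv]
  exact ⟨h.2, h.1⟩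

theorem GP.rvp {l : List (RE L Γ)} (h : GP Y Good l) : GP Y Good (rvp l) := by
  intro e he
  rw [Pool.Agent.P8H61.rvp, List.mem_reverse, List.mem_map] at he
  obtain ⟨f, hf, rfl⟩ := he
  exact good_inv (h f hf)

theorem walk_rvp {l : List (RE L Γ)} : ∀ {w w' : List L} {v : V (StrS Y Good hG) b},
    RPath Y w l w' → GP Y Good l → v.en = w → walk hG (rvp l) (walk hG l v) = v := by
  induction l with
  | nil => intro w w' v h _ hv; rfl
  | cons e l ih =>
    intro w w' v h hg hv
    obtain ⟨rfl, h2⟩ := h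
    have he := hg e (List.mem_cons_self ..)
    have h3 := ih (v := aR hG e v) h2 (fun f hf => hg f (List.mem_cons_of_mem _ hf))
      (aR_en he hv)
    rw [rvp_cons, walk_append]
    change aR hG e.inv (walk hG (rvp l) (walk hG l (aR hG e v))) = v
    rw [h3, aR_act he, aR_act (good_inv he)]
    exact act_inv (S := StrS Y Good hG) (x := (⟨e, he⟩ : GE Y Good)) hv.symm

theorem walk_deck {σ : Equiv.Perm (V (StrS Y Good hG) b)} (hσ : σ ∈ Deck (StrS Y Good hG) b)
    (l : List (RE L Γ)) (v : V (StrS Y Good hG) b) : σ (walk hG l v) = walk hG l (σ v) := by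
  induction l generalizing v with
  | nil => rfl
  | cons e l ih =>
    change σ (walk hG l (aR hG e v)) = walk hG l (aR hG e (σ v))
    rw [ih]
    congr 1
    unfold aR
    split
    · exact hσ.2 _ _
    · rfl

theorem aR_sq {m : List L} {e f x y : RE L Γ} (hs : SqL Y m e f x y)
    (h1 : Good (e.src Y)) (h2 : Good (e.tgt Y)) (h3 : Good (f.tgt Y)) (h4 : Good (x.tgt Y))
    {v : V (StrS Y Good hG) b} (hv : v.en = e.src Y) :
    aR hG x (aR hG e v) = aR hG y (aR hG f v) := by
  have he : Good (e.src Y) ∧ Good (e.tgt Y) := ⟨h1, h2⟩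
  have hf : Good (f.src Y) ∧ Good (f.tgt Y) := ⟨hs.src ▸ h1, h3⟩
  have hx : Good (x.src Y) ∧ Good (x.tgt Y) := ⟨hs.mid ▸ h2, h4⟩
  have hy : Good (y.src Y) ∧ Good (y.tgt Y) := ⟨hs.mid' ▸ h3, hs.tgt ▸ h4⟩
  rw [aR_act he, aR_act hf, aR_act hx, aR_act hy]
  exact act_sq (S := StrS Y Good hG) (e := (⟨e, he⟩ : GE Y Good)) (f := ⟨f, hf⟩)
    (x := ⟨x, hx⟩) (y := ⟨y, hy⟩) (Or.inl ⟨m, hs⟩) hv.symm

variable (Y) in
/-- vertices of a path -/
def vts : List L → List (RE L Γ) → List (List L)
  | w, [] => [w]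
  | w, e :: l => w :: vts (e.tgt Y) l

theorem vts_head (w : List L) (l : List (RE L Γ)) : w ∈ vts Y w l := by
  cases l <;> simp [vts]

theorem whk_sq (a m c : List L) (e f : RE L Γ) :
    SqL Y (e.c ++ (m ++ f.a)) (whk a (m ++ (f.src Y ++ c)) e) (whk (a ++ (e.src Y ++ m)) c f)
      (whk (a ++ (e.tgt Y ++ m)) c f) (whk a (m ++ (f.tgt Y ++ c)) e) := by
  refine ⟨?_, ?_, ?_, ?_⟩ <;> simp [whk, RE.src, RE.tgt]

theorem grid_one {a m c : List L} {e : RE L Γ} {q : List (RE L Γ)} : ∀ {t t' : List L},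
    RPath Y t q t' →
    (∀ x ∈ vts Y t q, Good (a ++ (e.src Y ++ (m ++ (x ++ c)))) ∧
      Good (a ++ (e.tgt Y ++ (m ++ (x ++ c))))) →
    ∀ v : V (StrS Y Good hG) b, v.en = a ++ (e.src Y ++ (m ++ (t ++ c))) →
    walk hG (q.map (whk (a ++ (e.tgt Y ++ m)) c)) (aR hG (whk a (m ++ (t ++ c)) e) v) =
      aR hG (whk a (m ++ (t' ++ c)) e) (walk hG (q.map (whk (a ++ (e.src Y ++ m)) c)) v) := by
  induction q with
  | nil => intro t t' h _ v _; cases h; rfl
  | cons f q ih =>
    intro t t' h hg v hv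
    obtain ⟨rfl, h2⟩ := h
    have g1 := hg _ (List.mem_cons_self ..)
    have g2 := hg _ (List.mem_cons_of_mem _ (vts_head (Y := Y) (f.tgt Y) q))
    have hsq := whk_sq (Y := Y) a m c e f
    have k1 : aR hG (whk (a ++ (e.tgt Y ++ m)) c f) (aR hG (whk a (m ++ (f.src Y ++ c)) e) v) =
        aR hG (whk a (m ++ (f.tgt Y ++ c)) e) (aR hG (whk (a ++ (e.src Y ++ m)) c f) v) := by
      refine aR_sq hsq ?_ ?_ ?_ ?_ ?_
      · rw [whk_src]; exact g1.1
      · rw [whk_tgt]; exact g1.2
      · rw [whk_tgt]; simpa using g2.1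
      · rw [whk_tgt]; simpa using g2.2
      · rw [whk_src]; exact hv
    change walk hG (q.map _) (aR hG (whk (a ++ (e.tgt Y ++ m)) c f)
      (aR hG (whk a (m ++ (f.src Y ++ c)) e) v)) = aR hG _ (walk hG (q.map _)
      (aR hG (whk (a ++ (e.src Y ++ m)) c f) v))
    rw [k1]
    apply ih h2 (fun x hx => hg x (List.mem_cons_of_mem _ hx))
    rw [aR_en]
    · rw [whk_tgt]; simp
    · rw [whk_src, whk_tgt]
      exact ⟨by simpa using g1.1, by simpa using g2.1⟩
    · rw [hv, whk_src]; simp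

theorem grid {a m c : List L} {p q : List (RE L Γ)} : ∀ {u u' t t' : List L},
    RPath Y u p u' → RPath Y t q t' →
    (∀ x ∈ vts Y u p, ∀ y ∈ vts Y t q, Good (a ++ (x ++ (m ++ (y ++ c))))) →
    ∀ v : V (StrS Y Good hG) b, v.en = a ++ (u ++ (m ++ (t ++ c))) →
    walk hG (q.map (whk (a ++ (u' ++ m)) c)) (walk hG (p.map (whk a (m ++ (t ++ c)))) v) =
      walk hG (p.map (whk a (m ++ (t' ++ c)))) (walk hG (q.map (whk (a ++ (u ++ m)) c)) v) := by
  induction p with
  | nil => intro u u' t t' h _ _ v _; cases h; rfl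
  | cons e p ih =>
    intro u u' t t' h hq hg v hv
    obtain ⟨rfl, h2⟩ := h
    have hgood : ∀ x ∈ vts Y t q, Good (a ++ (e.src Y ++ (m ++ (x ++ c)))) ∧
        Good (a ++ (e.tgt Y ++ (m ++ (x ++ c)))) := fun x hx =>
      ⟨hg _ (List.mem_cons_self ..) x hx,
        hg _ (List.mem_cons_of_mem _ (vts_head (Y := Y) (e.tgt Y) p)) x hx⟩
    have g := hgood t (vts_head t q)
    change walk hG (q.map _) (walk hG (p.map _) (aR hG (whk a (m ++ (t ++ c)) e) v)) =
      walk hG (p.map _) (aR hG (whk a (m ++ (t' ++ c)) e) (walk hG (q.map _) v))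
    rw [ih h2 hq (fun x hx => hg x (List.mem_cons_of_mem _ hx)), grid_one hq hgood v hv]
    rw [aR_en]
    · rw [whk_tgt]
    · rw [whk_src, whk_tgt]; exact g
    · rw [hv, whk_src]

end walk

variable {A : Type} {P : Pres A}

/-- the words of a path -/
def wds (l : List (RE (LP P) (RP P))) : Set (List (LP P)) :=
  {x | ∃ e ∈ l, x = e.src (KP P) ∨ x = e.tgt (KP P)}

theorem wds_fin (l : List (RE (LP P) (RP P))) : (wds l).Finite := by
  have h : wds l = ⋃ e ∈ {e | e ∈ l}, {e.src (KP P), e.tgt (KP P)} := by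
    ext x
    simp only [wds, Set.mem_ofPred_eq, Set.mem_iUnion, Set.mem_insert_iff, Set.mem_singleton_iff,
      exists_prop]
  rw [h]
  exact Set.Finite.biUnion (List.finite_toSet l) (fun e _ => Set.toFinite _)

theorem GP_of {l : List (RE (LP P) (RP P))} {D : Set (List (LP P))} (h : wds l ⊆ D) :
    GP (KP P) (Gd (cA P) (cR P) D) l :=
  fun e he => ⟨Gd.of_mem _ _ (h ⟨e, he, Or.inl rfl⟩), Gd.of_mem _ _ (h ⟨e, he, Or.inr rfl⟩)⟩

theorem wds_append (l m : List (RE (LP P) (RP P))) : wds (l ++ m) = wds l ∪ wds m := by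
  ext x
  simp only [wds, List.mem_append, Set.mem_ofPred_eq, Set.mem_union]
  constructor
  · rintro ⟨e, he | he, h⟩
    · exact Or.inl ⟨e, he, h⟩
    · exact Or.inr ⟨e, he, h⟩
  · rintro (⟨e, he, h⟩ | ⟨e, he, h⟩)
    · exact ⟨e, Or.inl he, h⟩
    · exact ⟨e, Or.inr he, h⟩

/-- the end of the lift of a path, in the complex of good words -/
noncomputable def lf (D : Set (List (LP P))) (w : List A) (l : List (OE P)) :
    V (SK (cA P) (cR P) D) (sgw w) :=
  walk (gd_ok (cA P) (cR P) D) (lamP l) (bs _ _)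

theorem elem_walk {w : List A} {l m : List (OE P)} (hl : IsPath w l w)
    (h : Elem P l m) : ∃ D0 : Set (List (LP P)), D0.Finite ∧ ∀ D, D0 ⊆ D → lf D w l = lf D w m := by
  cases h with
  | back l m x =>
    refine ⟨wds (lamP (l ++ x :: x.inv :: m)), wds_fin _, fun D hD => ?_⟩
    have hg := GP_of hD
    obtain ⟨w1, h1, h2, h3, h4⟩ := hl.split
    unfold lf
    rw [lamP_append, lamP_cons, lamP_cons] at hg
    rw [lamP_append, lamP_cons, lamP_cons, lamP_append, walk_append, walk_append, walk_append,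
      walk_append, lam_inv]
    congr 1
    apply walk_rvp (lam_path x)
    · exact fun e he => hg e (List.mem_append_right _ (List.mem_append_left _ he))
    · rw [← h2]
      apply walk_en (lamP_path h1)
      · exact fun e he => hg e (List.mem_append_left _ he)
      · rfl
  | square l m a b c r s σ τ =>
    set u := lhs r σ with hu
    set u' := rhs r σ with hu'
    set t := lhs s τ with ht
    set t' := rhs s τ with ht'
    refine ⟨wds (lamP l) ∪
      ((fun xy : List (LP P) × List (LP P) => sgw a ++ (xy.1 ++ (sgw b ++ (xy.2 ++ sgw c)))) ''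
      ({x | x ∈ vts (KP P) (sgw u) (core2 r σ)} ×ˢ {y | y ∈ vts (KP P) (sgw t) (core2 s τ)})),
      (wds_fin _).union (((List.finite_toSet _).prod (List.finite_toSet _)).image _),
      fun D hD => ?_⟩
    have hg := GP_of (Set.subset_union_left.trans hD)
    obtain ⟨w1, h1, h2, -⟩ := hl.split
    unfold lf
    rw [lamP_append, lamP_cons, lamP_cons, lamP_append, lamP_cons, lamP_cons, walk_append,
      walk_append, walk_append, walk_append, walk_append, walk_append]
    congr 1
    set v := walk (gd_ok (cA P) (cR P) D) (lamP l) (bs (SK (cA P) (cR P) D) (sgw w)) with hv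
    have hven : v.en = sgw w1 := walk_en (lamP_path h1) hg rfl
    have hgr := grid (hG := gd_ok (cA P) (cR P) D) (a := sgw a) (m := sgw b) (c := sgw c)
      (core2_path r σ) (core2_path s τ) (fun x hx y hy => Gd.of_mem _ _ (hD (Or.inr
        ⟨(x, y), ⟨hx, hy⟩, rfl⟩))) v (by
          rw [hven, h2]
          simp only [← sgw_append]
          rfl)
    simp only [← sgw_append] at hgr
    exact hgr

theorem hom_walk {w : List A} {l m : Loop P w}
    (h : Relation.EqvGen (fun l m : Loop P w => Elem P l.1 m.1) l m) :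
    ∃ D0 : Set (List (LP P)), D0.Finite ∧ ∀ D, D0 ⊆ D → lf D w l.1 = lf D w m.1 := by
  induction h with
  | rel l m h => exact elem_walk l.2 h
  | refl l => exact ⟨∅, Set.finite_empty, fun _ _ => rfl⟩
  | symm l m _ ih =>
    obtain ⟨D0, h1, h2⟩ := ih
    exact ⟨D0, h1, fun D hD => (h2 D hD).symm⟩
  | trans l m n _ _ ih1 ih2 =>
    obtain ⟨D1, h1, h2⟩ := ih1
    obtain ⟨D2, h3, h4⟩ := ih2
    exact ⟨D1 ∪ D2, h1.union h3, fun D hD => (h2 D (Set.subset_union_left.trans hD)).trans
      (h4 D (Set.subset_union_right.trans hD))⟩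

/-- null-homotopic loops -/
theorem null_walk {w : List A} {l : List (OE P)} (hl : IsPath w l w) (h : pv l = 1) :
    ∃ D0 : Set (List (LP P)), D0.Finite ∧ ∀ D, D0 ⊆ D → lf D w l = bs _ _ := by
  have h1 : cls l hl = cls [] rfl := by
    apply toDg_injective P w
    apply Subtype.ext
    exact h
  exact hom_walk (m := ⟨[], rfl⟩) (Quot.eqvGen_exact h1)

/-- values of the vertices -/
theorem exists_Vl (D : Set (List (LP P))) (w : List A) :
    ∃ f : V (SK (cA P) (cR P) D) (sgw w) → U P, f (bs _ _) = 1 ∧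
      ∀ x v, (SK (cA P) (cR P) D).src x = v.en → f (act x v) = f v * RV C1 x.1 := by
  obtain ⟨f, h1, h2, h3⟩ := exists_lift (S := SK (cA P) (cR P) D) (b := sgw w)
    (Y := U P × List (LP P)) (fun y => y.2)
    (fun x y => (y.1 * RV C1 x.1, (SK (cA P) (cR P) D).tgt x)) (fun _ _ _ => rfl)
    (fun x y h => by
      refine Prod.ext ?_ ?_
      · change y.1 * RV C1 x.1 * RV C1 x.1.inv = y.1
        rw [RV_inv, mul_inv_cancel_right]
      · change (SK (cA P) (cR P) D).tgt ((SK (cA P) (cR P) D).inv x) = y.2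
        rw [RS.tgt_inv, h])
    (fun {e f x y} hs z _ => by
      refine Prod.ext ?_ ?_
      · change z.1 * RV C1 e.1 * RV C1 x.1 = z.1 * RV C1 f.1 * RV C1 y.1
        rcases hs with ⟨m, hs⟩ | ⟨m, hs⟩
        · rw [mul_assoc, C1_val.sq hs, mul_assoc]
        · rw [mul_assoc, mul_assoc, C1_val.sq hs]
      · exact (SK (cA P) (cR P) D).sq_tgt hs)
    (y0 := (1, sgw w)) rfl
  exact ⟨fun v => (f v).1, congrArg Prod.fst h1, fun x v h => congrArg Prod.fst (h3 x v h)⟩

section

variable {D : Set (List (LP P))} {w : List A} {f : V (SK (cA P) (cR P) D) (sgw w) → U P}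
  (h0 : f (bs _ _) = 1)
  (hf : ∀ x v, (SK (cA P) (cR P) D).src x = v.en → f (act x v) = f v * RV C1 x.1)

include hf

theorem walk_val {l : List (RE (LP P) (RP P))} : ∀ {u u' : List (LP P)}
    {v : V (SK (cA P) (cR P) D) (sgw w)}, RPath (KP P) u l u' →
    GP (KP P) (Gd (cA P) (cR P) D) l → v.en = u →
    f (walk (gd_ok (cA P) (cR P) D) l v) = f v * PV C1 l := by
  induction l with
  | nil => intro u u' v _ _ _; simp [walk]
  | cons e l ih =>
    intro u u' v h hg hv
    obtain ⟨rfl, h2⟩ := h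
    have he := hg e (List.mem_cons_self ..)
    change f (walk (gd_ok (cA P) (cR P) D) l (aR (gd_ok (cA P) (cR P) D) e v)) = _
    rw [ih h2 (fun f hf => hg f (List.mem_cons_of_mem _ hf)) (aR_en he hv), aR_act he, PV_cons,
      ← mul_assoc]
    congr 1
    exact hf ⟨e, he⟩ v hv.symm

include h0

theorem val_pi (v : V (SK (cA P) (cR P) D) (sgw w)) : Pi w (f v) (stw v.en) := by
  induction v using V.induction with
  | h0 =>
    rw [h0, bs_en, stw_sgw]
    exact Pi.refl _
  | h1 x v hx ih =>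
    rw [hf x v hx, act_en hx]
    rw [← hx] at ih
    exact ih.trans (C1_val.edge x.1)

theorem val_deck {σ : Equiv.Perm (V (SK (cA P) (cR P) D) (sgw w))}
    (hσ : σ ∈ Deck (SK (cA P) (cR P) D) (sgw w)) (v : V (SK (cA P) (cR P) D) (sgw w)) :
    f (σ v) = f (σ (bs _ _)) * f v := by
  induction v using V.induction with
  | h0 => rw [h0, mul_one]
  | h1 x v hx ih =>
    rw [hσ.2, hf x v hx, ← mul_assoc, ← ih]
    exact hf x (σ v) (by rw [hσ.1, hx])

/-- the retraction -/
theorem exists_rho : ∃ ρ : Deck (SK (cA P) (cR P) D) (sgw w) →* Dg P w,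
    ∀ σ, (ρ σ).1 = f (σ.1 (bs _ _)) := by
  refine ⟨{ toFun := fun σ => ⟨f (σ.1 (bs _ _)), ?_⟩
            map_one' := Subtype.ext h0
            map_mul' := fun σ τ => Subtype.ext ?_ }, fun σ => rfl⟩
  · have h1 := val_pi h0 hf (σ.1 (bs _ _))
    rw [σ.2.1, bs_en, stw_sgw] at h1
    exact h1
  · exact val_deck h0 hf σ.2 (τ.1 (bs _ _))

end

end Pool.Agent.P8H61
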