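import Pool.Agent.P8H61.Str

set_option autoImplicit false
set_option linter.unusedSectionVars false

/-!
# The letters and rules used for a semigroup presentation
-/

namespace Pool.Agent.P8H61

/-- letters: plain letters are elements of the monoid `M`; the extra letters are the generators
and the relations -/
inductive Lt (M A R : Type)
  | pl (m : M)
  | sg (a : A)
  | rl (r : R)

/-- rules -/
inductive Ru (M A R : Type)
  | mg (m m' : M)
  | sg (a : A)
  | rl (r : R) (s : Bool)

variable {M A R : Type} [Monoid M] (ca : A → M) (cr : R → M)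

/-- the system of rules: two plain letters can be merged, an extra letter can be replaced with a
plain letter (in two ways if it is a relation) -/
def KS : Sys (Lt M A R) (Ru M A R) where
  top
    | .mg m m' => [.pl m, .pl m']
    | .sg a => [.sg a]
    | .rl r _ => [.rl r]
  bot
    | .mg m m' => [.pl (m * m')]
    | .sg a => [.pl (ca a)]
    | .rl r _ => [.pl (cr r)]
  top_ne := by rintro (⟨_, _⟩ | _ | ⟨_, _⟩) <;> simp
  bot_ne := by rintro (⟨_, _⟩ | _ | ⟨_, _⟩) <;> simp

/-- value of a letter -/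
def lv : Lt M A R → M
  | .pl m => m
  | .sg a => ca a
  | .rl r => cr r

/-- value of a word -/
def vw (l : List (Lt M A R)) : M := (l.map (lv ca cr)).prod

@[simp] theorem vw_nil : vw ca cr ([] : List (Lt M A R)) = 1 := rfl
@[simp] theorem vw_cons (x : Lt M A R) (l : List (Lt M A R)) :
    vw ca cr (x :: l) = lv ca cr x * vw ca cr l := by simp [vw]
@[simp] theorem vw_append (l m : List (Lt M A R)) :
    vw ca cr (l ++ m) = vw ca cr l * vw ca cr m := by simp [vw]

theorem vw_rule (g : Ru M A R) : vw ca cr ((KS ca cr).top g) = vw ca cr ((KS ca cr).bot g) := by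
  rcases g with (⟨m, m'⟩ | a | ⟨r, s⟩) <;> simp [KS, lv]

/-- extra letters -/
def Lt.extra : Lt M A R → Prop
  | .pl _ => False
  | _ => True

/-- the words all of whose decompositions into three factors have the values of decompositions of
words in `D`, and all of whose extra letters occur in words of `D` -/
def Gd (D : Set (List (Lt M A R))) (l : List (Lt M A R)) : Prop :=
  (∀ l1 l2 l3, l = l1 ++ (l2 ++ l3) → ∃ k1 k2 k3, k1 ++ (k2 ++ k3) ∈ D ∧
    vw ca cr l1 = vw ca cr k1 ∧ vw ca cr l2 = vw ca cr k2 ∧ vw ca cr l3 = vw ca cr k3) ∧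
  ∀ x ∈ l, x.extra → ∃ k ∈ D, x ∈ k

theorem Gd.mono {D D' : Set (List (Lt M A R))} (h : D ⊆ D') {l : List (Lt M A R)}
    (hl : Gd ca cr D l) : Gd ca cr D' l := by
  refine ⟨fun l1 l2 l3 h1 => ?_, fun x hx hx' => ?_⟩
  · obtain ⟨k1, k2, k3, h2, h3⟩ := hl.1 l1 l2 l3 h1
    exact ⟨k1, k2, k3, h h2, h3⟩
  · obtain ⟨k, hk, h2⟩ := hl.2 x hx hx'
    exact ⟨k, h hk, h2⟩

theorem Gd.of_mem {D : Set (List (Lt M A R))} {l : List (Lt M A R)} (h : l ∈ D) :
    Gd ca cr D l :=
  ⟨fun l1 l2 l3 h1 => ⟨l1, l2, l3, h1 ▸ h, rfl, rfl, rfl⟩, fun _ hx _ => ⟨l, h, hx⟩⟩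

theorem split_le {X : Type} {a b c d : List X} (h : a ++ b = c ++ d) (hl : a.length ≤ c.length) :
    ∃ e, c = a ++ e ∧ b = e ++ d := by
  rcases List.append_eq_append_iff.1 h with ⟨e, h1, h2⟩ | ⟨e, h1, h2⟩
  · exact ⟨e, h1, h2⟩
  · have : e = [] := by
      rw [h1, List.length_append] at hl
      exact List.length_eq_zero_iff.1 (by omega)
    subst this
    exact ⟨[], by simpa using h1.symm, by simpa using h2.symm⟩

/-- replacing a factor which is not cut -/
theorem repl {a q q' c l1 l2 l3 : List (Lt M A R)} (hv : vw ca cr q = vw ca cr q')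
    (h : a ++ (q ++ c) = l1 ++ (l2 ++ l3))
    (hi : l1.length ≤ a.length ∨ a.length + q.length ≤ l1.length)
    (hj : l1.length + l2.length ≤ a.length ∨ a.length + q.length ≤ l1.length + l2.length) :
    ∃ k1 k2 k3, a ++ (q' ++ c) = k1 ++ (k2 ++ k3) ∧ vw ca cr l1 = vw ca cr k1 ∧
      vw ca cr l2 = vw ca cr k2 ∧ vw ca cr l3 = vw ca cr k3 := by
  rcases hi with hi | hi
  · obtain ⟨d, rfl, h2⟩ := split_le h.symm hi
    rcases hj with hj | hj
    · rw [List.length_append] at hj
      obtain ⟨e, rfl, rfl⟩ := split_le h2 (by omega)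
      exact ⟨l1, l2, e ++ (q' ++ c), by simp, rfl, rfl, by simp [hv]⟩
    · rw [List.length_append] at hj
      have h3 : (d ++ q) ++ c = l2 ++ l3 := by rw [List.append_assoc]; exact h2.symm
      obtain ⟨e, rfl, rfl⟩ := split_le h3 (by rw [List.length_append]; omega)
      exact ⟨l1, (d ++ q') ++ e, l3, by simp, rfl, by simp [hv], rfl⟩
  · have h3 : (a ++ q) ++ c = l1 ++ (l2 ++ l3) := by rw [List.append_assoc]; exact h
    obtain ⟨e, rfl, rfl⟩ := split_le h3 (by rw [List.length_append]; omega)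
    exact ⟨(a ++ q') ++ e, l2, l3, by simp, by simp [hv], rfl, rfl⟩

theorem bot_len (g : Ru M A R) : ((KS ca cr).bot g).length = 1 := by
  rcases g with (⟨m, m'⟩ | a | ⟨r, s⟩) <;> rfl

theorem bot_plain (g : Ru M A R) : ∀ x ∈ (KS ca cr).bot g, ¬ x.extra := by
  rcases g with (⟨m, m'⟩ | a | ⟨r, s⟩) <;> simp [KS, Lt.extra]

theorem gd_ok (D : Set (List (Lt M A R))) : GoodOK (KS ca cr) (Gd ca cr D) where
  dn := by
    intro a g c hl
    refine ⟨fun l1 l2 l3 h => ?_, fun x hx hx' => ?_⟩
    · have h1 := bot_len ca cr g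
      obtain ⟨k1, k2, k3, h2, h3, h4, h5⟩ := repl ca cr (vw_rule ca cr g).symm h
        (by omega) (by omega)
      obtain ⟨j1, j2, j3, h6, h7, h8, h9⟩ := hl.1 k1 k2 k3 h2
      exact ⟨j1, j2, j3, h6, h3.trans h7, h4.trans h8, h5.trans h9⟩
    · apply hl.2 x _ hx'
      simp only [List.mem_append] at hx ⊢
      have := bot_plain ca cr g x
      tauto
  loc := by
    intro a g m h n k c h1 h2 h3
    refine ⟨fun l1 l2 l3 hs => ?_, fun x hx hx' => ?_⟩
    · have hg := vw_rule ca cr g
      have hh := vw_rule ca cr h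
      have hk := vw_rule ca cr k
      have key : ∀ {k1 k2 k3 w : List (Lt M A R)}, Gd ca cr D w → w = k1 ++ (k2 ++ k3) →
          vw ca cr l1 = vw ca cr k1 → vw ca cr l2 = vw ca cr k2 → vw ca cr l3 = vw ca cr k3 →
          ∃ k1 k2 k3, k1 ++ (k2 ++ k3) ∈ D ∧
            vw ca cr l1 = vw ca cr k1 ∧ vw ca cr l2 = vw ca cr k2 ∧
              vw ca cr l3 = vw ca cr k3 := by
        intro k1 k2 k3 w hw hw' e1 e2 e3
        obtain ⟨j1, j2, j3, h6, h7, h8, h9⟩ := hw.1 k1 k2 k3 hw'
        exact ⟨j1, j2, j3, h6, e1.trans h7, e2.trans h8, e3.trans h9⟩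
      set G := (KS ca cr).top g with hG
      set H := (KS ca cr).top h with hH
      set K := (KS ca cr).top k with hK
      by_cases c1 : (l1.length ≤ a.length ∨ a.length + G.length ≤ l1.length) ∧
          (l1.length + l2.length ≤ a.length ∨ a.length + G.length ≤ l1.length + l2.length)
      · obtain ⟨k1, k2, k3, g1, g2, g3, g4⟩ := repl ca cr hg hs c1.1 c1.2
        exact key h1 g1 g2 g3 g4
      · by_cases c2 : (l1.length ≤ (a ++ (G ++ m)).length ∨
            (a ++ (G ++ m)).length + H.length ≤ l1.length) ∧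
            (l1.length + l2.length ≤ (a ++ (G ++ m)).length ∨
              (a ++ (G ++ m)).length + H.length ≤ l1.length + l2.length)
        · have hs' : (a ++ (G ++ m)) ++ (H ++ (n ++ (K ++ c))) = l1 ++ (l2 ++ l3) := by
            rw [← hs]; simp
          obtain ⟨k1, k2, k3, g1, g2, g3, g4⟩ := repl ca cr hh hs' c2.1 c2.2
          exact key h2 (by rw [← g1]; simp) g2 g3 g4
        · have hs' : (a ++ (G ++ (m ++ (H ++ n)))) ++ (K ++ c) = l1 ++ (l2 ++ l3) := by
            rw [← hs]; simp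
          have c3 : (l1.length ≤ (a ++ (G ++ (m ++ (H ++ n)))).length ∨
              (a ++ (G ++ (m ++ (H ++ n)))).length + K.length ≤ l1.length) ∧
              (l1.length + l2.length ≤ (a ++ (G ++ (m ++ (H ++ n)))).length ∨
              (a ++ (G ++ (m ++ (H ++ n)))).length + K.length ≤ l1.length + l2.length) := by
            simp only [List.length_append] at c2 ⊢
            omega
          obtain ⟨k1, k2, k3, g1, g2, g3, g4⟩ := repl ca cr hk hs' c3.1 c3.2
          exact key h3 (by rw [← g1]; simp) g2 g3 g4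
    · have b1 := h1.2 x
      have b2 := h2.2 x
      simp only [List.mem_append] at hx b1 b2
      tauto

/-- height of a letter -/
def lh : Lt M A R → ℕ
  | .pl _ => 1
  | _ => 2

/-- height of a word -/
def ht (l : List (Lt M A R)) : ℕ := (l.map lh).sum

@[simp] theorem ht_nil : ht ([] : List (Lt M A R)) = 0 := rfl
@[simp] theorem ht_cons (x : Lt M A R) (l : List (Lt M A R)) : ht (x :: l) = lh x + ht l := by
  simp [ht]
@[simp] theorem ht_append (l m : List (Lt M A R)) : ht (l ++ m) = ht l + ht m := by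
  simp [ht]

theorem ht_rule (g : Ru M A R) : ht ((KS ca cr).top g) = ht ((KS ca cr).bot g) + 1 := by
  rcases g with (⟨m, m'⟩ | a | ⟨r, s⟩) <;> simp [KS, lh]

theorem len_le_ht (l : List (Lt M A R)) : l.length ≤ ht l := by
  induction l with
  | nil => simp
  | cons x l ih => rcases x with m | a | r <;> simp [lh] <;> omega

theorem ht_le_len (l : List (Lt M A R)) : ht l ≤ 2 * l.length := by
  induction l with
  | nil => simp
  | cons x l ih => rcases x with m | a | r <;> simp [lh] <;> omega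

variable (D : Set (List (Lt M A R)))

/-- the residual system -/
abbrev SK : RS (List (Lt M A R)) (GE (KS ca cr) (Gd ca cr D)) := StrS _ _ (gd_ok ca cr D)

variable {ca cr D}

/-- the orientation downwards -/
def dnO {b : List (Lt M A R)} (_ : V (SK ca cr D) b) (e : GE (KS ca cr) (Gd ca cr D)) : Prop :=
  e.1.s = true

theorem dnO_ori {b : List (Lt M A R)} : Ori (dnO (ca := ca) (cr := cr) (D := D) (b := b)) where
  inv := by
    intro v e _
    change (!e.1.s) = true ↔ ¬ e.1.s = true
    simp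
  par := by
    rintro v e f x y (⟨m, h⟩ | ⟨m, h⟩) _
    · change x.1.s = true ↔ f.1.s = true
      rw [h.2.2.1]
    · change x.1.s = true ↔ f.1.s = true
      rw [h.2.2.2]

theorem dnO_ht {b : List (Lt M A R)} (e : GE (KS ca cr) (Gd ca cr D)) (v : V (SK ca cr D) b)
    (h : (SK ca cr D).src e = v.en) (ho : dnO v e) : ht (act e v).en < ht v.en := by
  rw [act_en h, ← h]
  change ht (e.1.tgt _) < ht (e.1.src _)
  have ho' : e.1.s = true := ho
  have h1 := ht_rule ca cr e.1.g
  simp only [RE.src, RE.tgt, ho', fro, too, ht_append]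
  omega

/-- downward edges in the suffix `w` of the word `p ++ w` -/
def DS (p w : List (Lt M A R)) : Set (GE (KS ca cr) (Gd ca cr D)) :=
  {e | e.1.s = true ∧ ∃ l, e.1.a = p ++ l ∧ w = l ++ ((KS ca cr).top e.1.g ++ e.1.c)}

theorem DS_cons {p w : List (Lt M A R)} {x : Lt M A R} {e : GE (KS ca cr) (Gd ca cr D)} :
    e ∈ DS p (x :: w) ↔ (e.1.s = true ∧ e.1.a = p ∧ x :: w = (KS ca cr).top e.1.g ++ e.1.c) ∨
      e ∈ DS (p ++ [x]) w := by
  constructor
  · rintro ⟨h1, l, h2, h3⟩
    cases l with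
    | nil => exact Or.inl ⟨h1, by simpa using h2, h3⟩
    | cons y l =>
      rw [List.cons_append, List.cons.injEq] at h3
      obtain ⟨rfl, h3⟩ := h3
      exact Or.inr ⟨h1, l, by rw [h2]; simp, h3⟩
  · rintro (⟨h1, h2, h3⟩ | ⟨h1, l, h2, h3⟩)
    · exact ⟨h1, [], by simpa using h2, h3⟩
    · exact ⟨h1, x :: l, by rw [h2]; simp, by rw [h3]; simp⟩

theorem DS_nil {p : List (Lt M A R)} {e : GE (KS ca cr) (Gd ca cr D)} : e ∉ DS p [] := by
  rintro ⟨_, l, _, h3⟩
  have h4 := (KS ca cr).top_ne e.1.g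
  have h5 := congrArg List.length h3
  simp only [List.length_append, List.length_nil] at h5
  omega

/-- perpendicular edges are disjoint -/
theorem perp_len {e f : GE (KS ca cr) (Gd ca cr D)} (h : Perp (SK ca cr D) e f) :
    e.1.a.length + (fro (KS ca cr) e.1.g e.1.s).length ≤ f.1.a.length ∨
      f.1.a.length + (fro (KS ca cr) f.1.g f.1.s).length ≤ e.1.a.length := by
  obtain ⟨x, y, (⟨m, h⟩ | ⟨m, h⟩)⟩ := h
  · have := h.len
    left
    omega
  · have := h.len
    right
    omega

/-- disjoint edges are perpendicular -/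
theorem perp_of {p w : List (Lt M A R)} {e f : GE (KS ca cr) (Gd ca cr D)}
    (h1 : e.1.s = true) (h2 : e.1.a = p) (h3 : e.1.c = w)
    (hf : f ∈ DS (p ++ (KS ca cr).top e.1.g) w) : Perp (SK ca cr D) e f := by
  obtain ⟨h4, l, h5, h6⟩ := hf
  have hfs : fro (KS ca cr) f.1.g f.1.s = (KS ca cr).top f.1.g := by rw [h4]; rfl
  have hes : fro (KS ca cr) e.1.g e.1.s = (KS ca cr).top e.1.g := by rw [h1]; rfl
  have hfs' : too (KS ca cr) f.1.g f.1.s = (KS ca cr).bot f.1.g := by rw [h4]; rfl
  have hes' : too (KS ca cr) e.1.g e.1.s = (KS ca cr).bot e.1.g := by rw [h1]; rfl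
  have hsq : SqL (KS ca cr) l e.1 f.1 ⟨e.1.a ++ (too (KS ca cr) e.1.g e.1.s ++ l), f.1.g, f.1.s,
      f.1.c⟩ ⟨e.1.a, e.1.g, e.1.s, l ++ (too (KS ca cr) f.1.g f.1.s ++ f.1.c)⟩ := by
    refine ⟨?_, ?_, rfl, rfl⟩
    · rw [h5, hes, h2]; simp
    · rw [h3, h6, hfs]
  have g1 : Gd ca cr D (RE.tgt (KS ca cr) ⟨e.1.a, e.1.g, e.1.s,
      l ++ (too (KS ca cr) f.1.g f.1.s ++ f.1.c)⟩) := by
    have h7 := f.2.2
    rw [hsq.mid'] at h7
    simp only [RE.src, RE.tgt, h1, fro, too] at h7 ⊢
    exact (gd_ok ca cr D).dn _ _ _ h7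
  refine ⟨⟨_, ?_, ?_⟩, ⟨_, ?_, g1⟩, Or.inl ⟨l, hsq⟩⟩
  · rw [← hsq.mid]; exact e.2.2
  · rw [hsq.tgt]; exact g1
  · rw [← hsq.mid']; exact f.2.2

theorem acyc_mono_congr {k : ℕ} {T T' : Set (GE (KS ca cr) (Gd ca cr D))} (h : T = T')
    (hT : Acyc gpos (Perp (SK ca cr D)) T k) : Acyc gpos (Perp (SK ca cr D)) T' k := h ▸ hT

theorem mkE {p w : List (Lt M A R)} (hg : Gd ca cr D (p ++ w)) {g : Ru M A R}
    {c : List (Lt M A R)} (h : w = (KS ca cr).top g ++ c) :
    ∃ e : GE (KS ca cr) (Gd ca cr D), e.1 = ⟨p, g, true, c⟩ := by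
  rw [h] at hg
  exact ⟨⟨⟨p, g, true, c⟩, hg, (gd_ok ca cr D).dn _ _ _ hg⟩, rfl⟩

theorem hsym {e f : GE (KS ca cr) (Gd ca cr D)} (h : Perp (SK ca cr D) e f) :
    Perp (SK ca cr D) f e := h.symm

theorem acyc_sg {p w : List (Lt M A R)} {a : A} (hg : Gd ca cr D (p ++ (.sg a :: w))) (k : ℕ) :
    Acyc gpos (Perp (SK ca cr D)) (DS p (.sg a :: w)) k := by
  obtain ⟨e, he⟩ := mkE hg (g := .sg a) (c := w) rfl
  refine acyc_cone (fun _ _ h => h.symm) (fun _ _ h => (gpos_ok _).ne h.sq) (a := e)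
    (DS_cons.2 (Or.inl ⟨by rw [he], by rw [he], by rw [he]; rfl⟩)) ?_ k
  intro f hf hne
  rcases DS_cons.1 hf with ⟨h1, h2, h3⟩ | h
  · exfalso
    apply hne
    apply Subtype.ext
    rw [he]
    rcases f with ⟨⟨fa, fg, fs, fc⟩, hf1⟩
    rcases fg with (⟨m, m'⟩ | a' | ⟨r, s⟩)
    · simp [KS] at h3
    · simp only [KS, List.cons_append, List.nil_append, List.cons.injEq, Lt.sg.injEq] at h3
      simp only at h1 h2
      simp only
      rw [h1, h2, h3.1, h3.2]
    · simp [KS] at h3
  · apply perp_of (p := p) (w := w) (by rw [he]) (by rw [he]) (by rw [he])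
    rw [he]
    exact h

theorem acyc_rl {p w : List (Lt M A R)} {r : R} (hg : Gd ca cr D (p ++ (.rl r :: w))) (k : ℕ)
    (hj : ∀ j, j + 1 = k → Acyc gpos (Perp (SK ca cr D)) (DS (p ++ [.rl r]) w) j) :
    Acyc gpos (Perp (SK ca cr D)) (DS p (.rl r :: w)) k := by
  obtain ⟨e, he⟩ := mkE hg (g := .rl r true) (c := w) rfl
  obtain ⟨f, hf⟩ := mkE hg (g := .rl r false) (c := w) rfl
  have hef : e ≠ f := by
    intro h
    have := he.symm.trans ((congrArg Subtype.val h).trans hf)
    simp at this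
  have heD : e ∈ DS p (.rl r :: w) := DS_cons.2 (Or.inl ⟨by rw [he], by rw [he], by rw [he]; rfl⟩)
  have hfD : f ∈ DS p (.rl r :: w) := DS_cons.2 (Or.inl ⟨by rw [hf], by rw [hf], by rw [hf]; rfl⟩)
  have hcase : ∀ g ∈ DS (ca := ca) (cr := cr) (D := D) p (.rl r :: w), g = e ∨ g = f ∨
      g ∈ DS (p ++ [.rl r]) w := by
    intro g hgD
    rcases DS_cons.1 hgD with ⟨h1, h2, h3⟩ | h
    · rcases g with ⟨⟨fa, fg, fs, fc⟩, hf1⟩
      rcases fg with (⟨m, m'⟩ | a' | ⟨r', s⟩)
      · simp [KS] at h3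
      · simp [KS] at h3
      · simp only [KS, List.cons_append, List.nil_append, List.cons.injEq, Lt.rl.injEq] at h3
        simp only at h1 h2
        cases s
        · right; left
          apply Subtype.ext
          rw [hf]
          simp only
          rw [h1, h2, h3.1, h3.2]
        · left
          apply Subtype.ext
          rw [he]
          simp only
          rw [h1, h2, h3.1, h3.2]
    · exact Or.inr (Or.inr h)
  have hpe : ∀ g ∈ DS (p ++ [.rl r]) w, Perp (SK ca cr D) e g := by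
    intro g h
    apply perp_of (p := p) (w := w) (by rw [he]) (by rw [he]) (by rw [he])
    rw [he]
    exact h
  have hpf : ∀ g ∈ DS (p ++ [.rl r]) w, Perp (SK ca cr D) f g := by
    intro g h
    apply perp_of (p := p) (w := w) (by rw [hf]) (by rw [hf]) (by rw [hf])
    rw [hf]
    exact h
  refine acyc_link (fun _ _ h => h.symm) (fun _ _ h => (gpos_ok _).ne h.sq) (b := f) hfD ?_ ?_
  · refine acyc_cone (S := DS p (.rl r :: w) \ {f}) (fun _ _ h => h.symm)
      (fun _ _ h => (gpos_ok _).ne h.sq) (a := e) ⟨heD, hef⟩ ?_ k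
    rintro g ⟨hg1, hg2⟩ hge
    rcases hcase g hg1 with h | h | h
    · exact absurd h hge
    · exact absurd h hg2
    · exact hpe g h
  · intro j hjk
    refine acyc_mono_congr ?_ (hj j hjk)
    ext g
    constructor
    · intro h
      exact ⟨DS_cons.2 (Or.inr h), hpf g h⟩
    · rintro ⟨h1, h2⟩
      rcases hcase g h1 with h | h | h
      · exfalso
        have h3 := (gpos_ok (gd_ok ca cr D)).ne h2.sq
        apply h3
        unfold gpos
        rw [h, he, hf]
      · exact absurd h.symm h2.ne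
      · exact h

/-- merging the first two letters -/
theorem head_pl {p w : List (Lt M A R)} {m : M} {g : GE (KS ca cr) (Gd ca cr D)}
    (h1 : g.1.s = true) (h2 : g.1.a = p) (h3 : .pl m :: w = (KS ca cr).top g.1.g ++ g.1.c) :
    ∃ m' w', w = .pl m' :: w' ∧ g.1 = ⟨p, .mg m m', true, w'⟩ := by
  rcases g with ⟨⟨fa, fg, fs, fc⟩, hf1⟩
  rcases fg with (⟨m1, m2⟩ | a' | ⟨r', s⟩)
  · simp only [KS, List.cons_append, List.nil_append, List.cons.injEq, Lt.pl.injEq] at h3
    simp only at h1 h2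
    exact ⟨m2, fc, h3.2, by simp only; rw [h1, h2, h3.1]⟩
  · simp [KS] at h3
  · simp [KS] at h3

theorem DS_pl {p w : List (Lt M A R)} {m : M} (hw : ∀ m' w', w ≠ .pl m' :: w') :
    DS (ca := ca) (cr := cr) (D := D) p (.pl m :: w) = DS (p ++ [.pl m]) w := by
  ext g
  rw [DS_cons]
  constructor
  · rintro (⟨h1, h2, h3⟩ | h)
    · obtain ⟨m', w', h4, -⟩ := head_pl h1 h2 h3
      exact absurd h4 (hw _ _)
    · exact h
  · exact Or.inr

theorem DS_plpl {p w : List (Lt M A R)} {m m' : M} {e : GE (KS ca cr) (Gd ca cr D)}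
    (he : e.1 = ⟨p, .mg m m', true, w⟩) {g : GE (KS ca cr) (Gd ca cr D)}
    (hg : g ∈ DS p (.pl m :: .pl m' :: w)) :
    g = e ∨ (∃ m'' w', w = .pl m'' :: w' ∧ g.1 = ⟨p ++ [.pl m], .mg m' m'', true, w'⟩) ∨
      g ∈ DS ((p ++ [.pl m]) ++ [.pl m']) w := by
  rcases DS_cons.1 hg with ⟨h1, h2, h3⟩ | h
  · obtain ⟨m1, w1, h4, h5⟩ := head_pl h1 h2 h3
    simp only [List.cons.injEq, Lt.pl.injEq] at h4
    left
    apply Subtype.ext
    rw [he, h5, h4.1, h4.2]
  · rcases DS_cons.1 h with ⟨h1, h2, h3⟩ | h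
    · obtain ⟨m1, w1, h4, h5⟩ := head_pl h1 h2 h3
      exact Or.inr (Or.inl ⟨m1, w1, h4, h5⟩)
    · exact Or.inr (Or.inr h)

/-- if no letter can be merged with the second one -/
theorem acyc_plpl {p w : List (Lt M A R)} {m m' : M} (hw : ∀ m' w', w ≠ .pl m' :: w')
    (hg : Gd ca cr D (p ++ (.pl m :: .pl m' :: w))) (k : ℕ) :
    Acyc gpos (Perp (SK ca cr D)) (DS p (.pl m :: .pl m' :: w)) k := by
  obtain ⟨e, he⟩ := mkE hg (g := .mg m m') (c := w) rfl
  refine acyc_cone (fun _ _ h => h.symm) (fun _ _ h => (gpos_ok _).ne h.sq) (a := e)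
    (DS_cons.2 (Or.inl ⟨by rw [he], by rw [he], by rw [he]; rfl⟩)) ?_ k
  intro f hf hne
  rcases DS_plpl he hf with h | ⟨m'', w', h, -⟩ | h
  · exact absurd h hne
  · exact absurd h (hw _ _)
  · apply perp_of (p := p) (w := w) (by rw [he]) (by rw [he]) (by rw [he])
    rw [he]
    simpa [KS] using h

theorem acyc_pl3 {p w : List (Lt M A R)} {m1 m2 m3 : M}
    (hg : Gd ca cr D (p ++ (.pl m1 :: .pl m2 :: .pl m3 :: w))) (k : ℕ)
    (hj : ∀ j, j + 1 = k →
      Acyc gpos (Perp (SK ca cr D)) (DS (p ++ [.pl m1, .pl m2, .pl m3]) w) j) :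
    Acyc gpos (Perp (SK ca cr D)) (DS p (.pl m1 :: .pl m2 :: .pl m3 :: w)) k := by
  obtain ⟨e, he⟩ := mkE hg (g := .mg m1 m2) (c := .pl m3 :: w) rfl
  have hg' : Gd ca cr D ((p ++ [.pl m1]) ++ (.pl m2 :: .pl m3 :: w)) := by
    simpa using hg
  obtain ⟨f, hf⟩ := mkE hg' (g := .mg m2 m3) (c := w) rfl
  have heD : e ∈ DS p (.pl m1 :: .pl m2 :: .pl m3 :: w) :=
    DS_cons.2 (Or.inl ⟨by rw [he], by rw [he], by rw [he]; rfl⟩)
  have hfD : f ∈ DS p (.pl m1 :: .pl m2 :: .pl m3 :: w) :=
    DS_cons.2 (Or.inr (DS_cons.2 (Or.inl ⟨by rw [hf], by rw [hf], by rw [hf]; rfl⟩)))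
  have hef : e ≠ f := by
    intro h
    have := he.symm.trans ((congrArg Subtype.val h).trans hf)
    simp at this
  have hcase : ∀ g ∈ DS (ca := ca) (cr := cr) (D := D) p (.pl m1 :: .pl m2 :: .pl m3 :: w),
      g = e ∨ g = f ∨ g ∈ DS ((p ++ [.pl m1]) ++ [.pl m2]) (.pl m3 :: w) := by
    intro g h
    rcases DS_plpl he h with h | ⟨m'', w', h, h'⟩ | h
    · exact Or.inl h
    · right; left
      simp only [List.cons.injEq, Lt.pl.injEq] at h
      apply Subtype.ext
      rw [h', hf, h.1, h.2]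
    · exact Or.inr (Or.inr h)
  refine acyc_link (fun _ _ h => h.symm) (fun _ _ h => (gpos_ok _).ne h.sq) (b := f) hfD ?_ ?_
  · refine acyc_cone (S := DS p (.pl m1 :: .pl m2 :: .pl m3 :: w) \ {f}) (fun _ _ h => h.symm)
      (fun _ _ h => (gpos_ok _).ne h.sq) (a := e) ⟨heD, hef⟩ ?_ k
    rintro g ⟨hg1, hg2⟩ hge
    rcases hcase g hg1 with h | h | h
    · exact absurd h hge
    · exact absurd h hg2
    · apply perp_of (p := p) (w := .pl m3 :: w) (by rw [he]) (by rw [he]) (by rw [he])
      rw [he]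
      simpa [KS] using h
  · intro j hjk
    refine acyc_mono_congr ?_ (hj j hjk)
    have hpp : p ++ [.pl m1, .pl m2, .pl m3] = ((p ++ [.pl m1]) ++ [.pl m2]) ++ [.pl m3] := by simp
    ext g
    constructor
    · intro h
      refine ⟨DS_cons.2 (Or.inr (DS_cons.2 (Or.inr (DS_cons.2 (Or.inr (hpp ▸ h)))))), ?_⟩
      apply perp_of (p := p ++ [.pl m1]) (w := w) (by rw [hf]) (by rw [hf]) (by rw [hf])
      rw [hf]
      simpa [KS] using h
    · rintro ⟨h1, h2⟩
      have h3 := perp_len h2
      rcases hcase g h1 with h | h | h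
      · exfalso
        rw [h, he, hf] at h3
        simp [KS, fro] at h3
        omega
      · exact absurd h.symm h2.ne
      · rcases DS_cons.1 h with ⟨g1, g2, g3⟩ | h
        · obtain ⟨m', w', -, g4⟩ := head_pl g1 g2 g3
          exfalso
          rw [g4, hf] at h3
          simp [KS, fro] at h3
        · rw [hpp]; exact h

/-- descending links of long words are highly connected -/
theorem acyc_long : ∀ (k : ℕ) (w p : List (Lt M A R)), Gd ca cr D (p ++ w) →
    3 * k + 2 ≤ w.length → Acyc gpos (Perp (SK ca cr D)) (DS p w) k := by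
  intro k
  induction k with
  | zero =>
    intro w p hg hl
    have key : ∀ j, ¬ (j + 1 = 0) := by omega
    rcases w with _ | ⟨x, w⟩
    · simp at hl
    · rcases x with m | a | r
      · rcases w with _ | ⟨x, w⟩
        · simp at hl
        · rcases x with m' | a | r
          · rcases w with _ | ⟨x, w⟩
            · exact acyc_plpl (by simp) hg 0
            · rcases x with m'' | a | r
              · exact acyc_pl3 hg 0 (fun j h => absurd h (key j))
              · exact acyc_plpl (by simp) hg 0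
              · exact acyc_plpl (by simp) hg 0
          · rw [DS_pl (by simp)]
            exact acyc_sg (by simpa using hg) 0
          · rw [DS_pl (by simp)]
            exact acyc_rl (by simpa using hg) 0 (fun j h => absurd h (key j))
      · exact acyc_sg hg 0
      · exact acyc_rl hg 0 (fun j h => absurd h (key j))
  | succ k ih =>
    intro w p hg hl
    have key : ∀ {p' w' : List (Lt M A R)}, Gd ca cr D (p' ++ w') → 3 * k + 2 ≤ w'.length →
        ∀ j, j + 1 = k + 1 → Acyc gpos (Perp (SK ca cr D)) (DS p' w') j := by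
      intro p' w' h1 h2 j hj
      obtain rfl : j = k := by omega
      exact ih w' p' h1 h2
    rcases w with _ | ⟨x, w⟩
    · simp at hl
    · rcases x with m | a | r
      · rcases w with _ | ⟨x, w⟩
        · simp at hl
        · rcases x with m' | a | r
          · rcases w with _ | ⟨x, w⟩
            · exact acyc_plpl (by simp) hg _
            · rcases x with m'' | a | r
              · refine acyc_pl3 hg _ (key (by simpa using hg) ?_)
                simp only [List.length_cons] at hl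
                omega
              · exact acyc_plpl (by simp) hg _
              · exact acyc_plpl (by simp) hg _
          · rw [DS_pl (by simp)]
            exact acyc_sg (by simpa using hg) _
          · rw [DS_pl (by simp)]
            refine acyc_rl (by simpa using hg) _ (key (by simpa using hg) ?_)
            simp only [List.length_cons] at hl
            omega
      · exact acyc_sg hg _
      · refine acyc_rl hg _ (key (by simpa using hg) ?_)
        simp only [List.length_cons] at hl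
        omega

/-- all vertices are good -/
theorem en_good {b : List (Lt M A R)} (hb : Gd ca cr D b) (v : V (SK ca cr D) b) :
    Gd ca cr D v.en := by
  induction v using V.induction with
  | h0 => exact hb
  | h1 x v hx _ =>
    rw [act_en hx]
    exact x.2.2

theorem Sv_eq {b : List (Lt M A R)} (v : V (SK ca cr D) b) :
    Sv dnO v = DS (ca := ca) (cr := cr) (D := D) [] v.en := by
  ext e
  constructor
  · rintro ⟨h1, h2⟩
    refine ⟨h2, e.1.a, rfl, ?_⟩
    have h2' : e.1.s = true := h2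
    rw [← h1]
    change e.1.src _ = _
    simp [RE.src, h2', fro]
  · rintro ⟨h1, l, h2, h3⟩
    refine ⟨?_, h1⟩
    rw [h3]
    change e.1.src _ = _
    rw [List.nil_append] at h2
    simp [RE.src, h1, fro, h2]

theorem acyc_down {b : List (Lt M A R)} (hb : Gd ca cr D b) (v : V (SK ca cr D) b) {k : ℕ}
    (h : 2 * (3 * k + 2) ≤ ht v.en) : Acyc gpos (Perp (SK ca cr D)) (Sv dnO v) k := by
  rw [Sv_eq]
  apply acyc_long
  · exact en_good hb v
  · have := ht_le_len v.en
    omega

end Pool.Agent.P8H61
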