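import Pool.Agent.P8H61.Lft
import Pool.Agent.P8H61.Fin
import Pool.Agent.P8H96.FP.Retract

set_option autoImplicit false

/-!
# Finitely presented diagram groups are retracts of groups of type `F_∞`
-/

namespace Pool.Agent.P8H61

open H540DG Pool.Agent.Y72.Ty

variable {A : Type} {P : Pres A}

section words

variable {n : ℕ} (Ls : Fin n → List (OE P))

/-- the loop given by a word in the generators -/
def wloop : List (Fin n × Bool) → List (OE P)
  | [] => []
  | (j, true) :: l => Ls j ++ wloop l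
  | (j, false) :: l => revp (Ls j) ++ wloop l

theorem wloop_path {w : List A} (h : ∀ j, IsPath w (Ls j) w) (l : List (Fin n × Bool)) :
    IsPath w (wloop Ls l) w := by
  induction l with
  | nil => exact rfl
  | cons x l ih =>
    rcases x with ⟨j, s⟩
    cases s
    · exact (isPath_revp (h j)).append ih
    · exact (h j).append ih

theorem pv_revp (L : List (OE P)) : pv (revp L) = (pv L)⁻¹ := by
  induction L with
  | nil => simp [revp]
  | cons x L ih => rw [revp_cons, pv_append, ih]; simp [inv_val]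

theorem wloop_pv {K : Type} [Group K] (ψ : FreeGroup (Fin n) →* K) (g : K →* U P)
    (h : ∀ j, pv (Ls j) = g (ψ (FreeGroup.of j))) (l : List (Fin n × Bool)) :
    pv (wloop Ls l) = g (ψ (FreeGroup.mk l)) := by
  induction l with
  | nil =>
    have : (FreeGroup.mk ([] : List (Fin n × Bool))) = 1 := rfl
    rw [this, map_one, map_one]
    rfl
  | cons x l ih =>
    rcases x with ⟨j, s⟩
    have h1 : FreeGroup.mk ((j, s) :: l) = FreeGroup.mk [(j, s)] * FreeGroup.mk l := by
      rw [FreeGroup.mul_mk]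
      rfl
    rw [h1, map_mul, map_mul, ← ih]
    cases s
    · change pv (revp (Ls j) ++ wloop Ls l) = _
      rw [pv_append, pv_revp, h j]
      have h2 : FreeGroup.mk [(j, false)] = (FreeGroup.of j)⁻¹ := rfl
      rw [h2, map_inv, map_inv]
    · change pv (Ls j ++ wloop Ls l) = _
      rw [pv_append, h j]
      rfl

end words

theorem exists_retract {w : List A} {G : Type} [Group G] (e : G ≃* Dg P w)
    (hfp : Group.IsFinitelyPresented G) :
    ∃ D : Set (List (LP P)), D.Finite ∧ sgw w ∈ D ∧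
      ∃ (i : G →* Deck (SK (cA P) (cR P) D) (sgw w))
        (ρ : Deck (SK (cA P) (cR P) D) (sgw w) →* G), ρ.comp i = MonoidHom.id G := by
  obtain ⟨n, φ, hφ, R, hR, hker⟩ := hfp.out
  -- loops for the generators
  have h1 : ∀ j : Fin n, ∃ L : List (OE P), IsPath w L w ∧ pv L = (e (φ (FreeGroup.of j))).1 :=
    fun j => (e (φ (FreeGroup.of j))).2
  choose Ls hLs hLs' using h1
  have h2 : ∀ l, pv (wloop Ls l) = (e (φ (FreeGroup.mk l))).1 := fun l =>
    wloop_pv Ls (e.toMonoidHom.comp φ) (Dg P w).subtype hLs' l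
  -- words needed for the relators
  have h3 : ∀ r ∈ R, ∃ D0 : Set (List (LP P)), D0.Finite ∧
      ∀ D, D0 ⊆ D → lf D w (wloop Ls r.toWord) = bs _ _ := by
    intro r hr
    apply null_walk (wloop_path Ls hLs _)
    rw [h2, FreeGroup.mk_toWord]
    have h4 : r ∈ φ.ker := by
      rw [← hker]
      exact Subgroup.subset_normalClosure hr
    rw [MonoidHom.mem_ker.1 h4, map_one]
    rfl
  choose! D0 hD0 hD0' using h3
  set D : Set (List (LP P)) := ((⋃ j : Fin n, wds (lamP (Ls j))) ∪ ⋃ r ∈ R, D0 r) ∪ {sgw w} with hD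
  have hDfin : D.Finite :=
    ((Set.finite_iUnion fun j => wds_fin _).union (hR.biUnion hD0)).union (Set.finite_singleton _)
  have hDw : sgw w ∈ D := Or.inr rfl
  have hDj : ∀ j, GP (KP P) (Gd (cA P) (cR P) D) (lamP (Ls j)) := fun j =>
    GP_of (fun x hx => Or.inl (Or.inl (Set.mem_iUnion.2 ⟨j, hx⟩)))
  have hDr : ∀ r ∈ R, D0 r ⊆ D := fun r hr x hx =>
    Or.inl (Or.inr (Set.mem_iUnion₂.2 ⟨r, hr, hx⟩))
  refine ⟨D, hDfin, hDw, ?_⟩
  -- the deck transformations of the generators
  have h4 : ∀ j, ∃ σ : Deck (SK (cA P) (cR P) D) (sgw w), σ.1 (bs _ _) = lf D w (Ls j) := by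
    intro j
    obtain ⟨σ, hσ, h⟩ := deck_bs (S := SK (cA P) (cR P) D) (b := sgw w) (lf D w (Ls j))
      (walk_en (lamP_path (hLs j)) (hDj j) rfl)
    exact ⟨⟨σ, hσ⟩, h⟩
  choose σ hσ using h4
  set Φ : FreeGroup (Fin n) →* Deck (SK (cA P) (cR P) D) (sgw w) := FreeGroup.lift σ with hΦ
  have h5 : ∀ l, (Φ (FreeGroup.mk l)).1 (bs _ _) = lf D w (wloop Ls l) := by
    intro l
    induction l with
    | nil => rfl
    | cons x l ih =>
      rcases x with ⟨j, s⟩
      have h1 : FreeGroup.mk ((j, s) :: l) = FreeGroup.mk [(j, s)] * FreeGroup.mk l := by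
        rw [FreeGroup.mul_mk]
        rfl
      have hw : ∀ (τ : Deck (SK (cA P) (cR P) D) (sgw w)) (L : List (OE P)),
          τ.1 (bs _ _) = lf D w L →
          (τ * Φ (FreeGroup.mk l)).1 (bs _ _) = lf D w (L ++ wloop Ls l) := by
        intro τ L hτ
        change τ.1 ((Φ (FreeGroup.mk l)).1 (bs _ _)) = _
        rw [ih]
        unfold lf
        rw [walk_deck τ.2, lamP_append, walk_append, hτ]
        rfl
      rw [h1, map_mul]
      cases s
      · apply hw
        have h2 : FreeGroup.mk [(j, false)] = (FreeGroup.of j)⁻¹ := rfl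
        rw [h2, map_inv, hΦ, FreeGroup.lift_apply_of]
        have h6 : (σ j).1 (lf D w (revp (Ls j))) = bs _ _ := by
          unfold lf
          rw [walk_deck (σ j).2, hσ j, lamP_revp]
          exact walk_rvp (lamP_path (hLs j)) (hDj j) rfl
        apply (σ j).1.injective
        rw [h6]
        exact (σ j).1.apply_symm_apply _
      · apply hw
        have h2 : FreeGroup.mk [(j, true)] = FreeGroup.of j := rfl
        rw [h2, hΦ, FreeGroup.lift_apply_of]
        exact hσ j
  have h6 : φ.ker ≤ Φ.ker := by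
    rw [← hker]
    apply Subgroup.normalClosure_le_normal
    intro r hr
    rw [SetLike.mem_coe, MonoidHom.mem_ker]
    have h7 := h5 r.toWord
    rw [FreeGroup.mk_toWord, hD0' r hr D (hDr r hr)] at h7
    exact Subtype.ext (deck_free (Φ r).2 h7)
  -- the retraction
  obtain ⟨f, f0, hf⟩ := exists_Vl D w
  obtain ⟨ρ, hρ⟩ := exists_rho f0 hf
  have h8 : ρ.comp Φ = e.toMonoidHom.comp φ := by
    apply FreeGroup.ext_hom
    intro j
    apply Subtype.ext
    change (ρ (Φ (FreeGroup.of j))).1 = (e (φ (FreeGroup.of j))).1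
    rw [hρ, hΦ, FreeGroup.lift_apply_of, hσ j]
    unfold lf
    rw [walk_val hf (lamP_path (hLs j)) (hDj j) rfl, f0, one_mul, lamP_val, hLs' j]
  let i : G →* Deck (SK (cA P) (cR P) D) (sgw w) :=
    φ.liftOfRightInverseAux (Function.surjInv hφ) (Function.rightInverse_surjInv hφ) Φ h6
  refine ⟨i, e.symm.toMonoidHom.comp ρ, ?_⟩
  ext g
  obtain ⟨x, rfl⟩ := hφ g
  have h9 : i (φ x) = Φ x := MonoidHom.liftOfRightInverseAux_comp_apply _ _ _ _ _ _
  change e.symm (ρ (i (φ x))) = φ x
  rw [h9]
  have h10 : ρ (Φ x) = e (φ x) := DFunLike.congr_fun h8 x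
  rw [h10]
  exact e.symm_apply_apply _

/-- finitely presented diagram groups are of type `FP_m` for all `m` -/
theorem fp_infty {w : List A} {G : Type} [Group G] (e : G ≃* DiagramGroup P w)
    (hfp : Group.IsFinitelyPresented G) (m : ℕ) : TypeFP G m := by
  obtain ⟨D, hD, hw, i, ρ, h⟩ := exists_retract (e.trans (dgEquiv P w)) hfp
  exact Pool.Agent.P8H96.FP.typeFP_retract i ρ h m (deck_fp _ _ D hD (Gd.of_mem _ _ hw) m)

end Pool.Agent.P8H61
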