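import Pool.Agent.P8H61.Ori

set_option autoImplicit false

/-!
# Morse lemmas for the cubical chain complex
-/

namespace Pool.Agent.P8H61

open Classical Finsupp

variable {W E : Type} {S : RS W E} {b : W}

/-- positive edges at `v` -/
def Sv (o : V S b → E → Prop) (v : V S b) : Set E := {e | S.src e = v.en ∧ o v e}

variable {o : V S b → E → Prop} {pos : E → ℕ}

/-- cubes at `v` -/
noncomputable def io (v : V S b) : (Finset E →₀ ℤ) →ₗ[ℤ] (Fm S b →₀ ℤ) :=
  lin fun F => single (v, F) 1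

/-- the part of a chain at `v` -/
noncomputable def pr (v : V S b) : (Fm S b →₀ ℤ) →ₗ[ℤ] (Finset E →₀ ℤ) :=
  lin fun p => if p.1 = v then single p.2 1 else 0

theorem pr_apply (v : V S b) (z : Fm S b →₀ ℤ) (F : Finset E) : pr v z F = z (v, F) := by
  have h := lin_ext (L := (Finsupp.lapply F).comp (pr v)) (L' := Finsupp.lapply (v, F))
    (fun p => by
      rw [LinearMap.comp_apply, pr, lin_single, Finsupp.lapply_apply, Finsupp.lapply_apply]
      by_cases h : p.1 = v
      · rw [if_pos h]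
        by_cases h2 : p.2 = F
        · have : p = (v, F) := Prod.ext h h2
          rw [this, single_eq_same, single_eq_same]
        · rw [single_eq_of_ne (Ne.symm h2), single_eq_of_ne]
          exact fun h' => h2 (by rw [← h'])
      · rw [if_neg h, single_eq_of_ne]
        · rfl
        · exact fun h' => h (by rw [← h'])) z
  exact h

theorem pr_io_self (v : V S b) (u : Finset E →₀ ℤ) : pr v (io v u) = u := by
  have h := lin_ext (L := (pr v).comp (io v)) (L' := LinearMap.id)
    (fun F => by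
      rw [LinearMap.comp_apply, io, lin_single, pr, lin_single, if_pos rfl]
      rfl) u
  exact h

theorem pr_io_ne {v v' : V S b} (hne : v' ≠ v) (u : Finset E →₀ ℤ) : pr v (io v' u) = 0 := by
  have h := lin_ext (L := (pr v).comp (io v')) (L' := 0)
    (fun F => by
      rw [LinearMap.comp_apply, io, lin_single, pr, lin_single, if_neg hne]
      rfl) u
  exact h

theorem io_mem {Q : V S b → Prop} {k : ℕ} {v : V S b} (hv : Q v) {u : Finset E →₀ ℤ}
    (hu : u ∈ supported ℤ ℤ {F | Cl (Perp S) (Sv o v) k F}) :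
    io v u ∈ supported ℤ ℤ (CK o Q k) := by
  refine supp_mem _ _ (fun F hF => ?_) hu
  rw [io, lin_single]
  refine single_supp (s := CK o Q k) ⟨⟨fun e he => (hF.1 e he).1, hF.2.1⟩,
    fun e he => (hF.1 e he).2, hF.2.2, hv⟩ _

theorem pr_mem {Q : V S b → Prop} {k : ℕ} {v : V S b} {z : Fm S b →₀ ℤ}
    (hz : z ∈ supported ℤ ℤ (CK o Q k)) :
    pr v z ∈ supported ℤ ℤ {F | Cl (Perp S) (Sv o v) k F} := by
  refine supp_mem _ _ (fun p hp => ?_) hz
  rw [pr, lin_single]
  split
  · rename_i h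
    subst h
    exact single_supp (s := {F | Cl (Perp S) (Sv o p.1) k F})
      ⟨fun e he => ⟨hp.1.1 e he, hp.2.1 e he⟩, hp.1.2, hp.2.2.1⟩ _
  · exact Submodule.zero_mem _

variable {l : V S b → ℕ}

theorem pr_dd (hl : ∀ e v, S.src e = v.en → o v e → l (act e v) < l v) {k : ℕ} {v : V S b}
    {z : Fm S b →₀ ℤ} (hz : z ∈ supported ℤ ℤ (CK o (fun v' => l v' ≤ l v) k)) :
    pr v (dd S b pos z) = bd pos (pr v z) := by
  have h := supp_eq ((pr v).comp (dd S b pos)) ((bd pos).comp (pr v))
    (s := CK o (fun v' => l v' ≤ l v) k) (fun p hp => by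
      rw [LinearMap.comp_apply, LinearMap.comp_apply, dd_single, map_sum]
      have h1 : ∀ e ∈ p.2, pr v (sg pos p.2 e • (single (del e p) (1 : ℤ) - single (bk e p) 1)) =
          if p.1 = v then sg pos p.2 e • single (p.2.erase e) 1 else 0 := by
        intro e he
        rw [map_smul, map_sub, pr, lin_single, lin_single]
        have h2 : (bk e p).1 ≠ v := by
          intro h'
          have h3 := hl e p.1 (hp.1.1 e he) (hp.2.1 e he)
          have h4 := hp.2.2.2
          change act e p.1 = v at h'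
          rw [h'] at h3
          omega
        rw [if_neg h2, sub_zero]
        change sg pos p.2 e • (if p.1 = v then single (p.2.erase e) 1 else 0) = _
        split
        · rfl
        · rw [smul_zero]
      rw [Finset.sum_congr rfl h1, pr, lin_single]
      by_cases h3 : p.1 = v
      · rw [if_pos h3, bd_single]
        apply Finset.sum_congr rfl
        intro e _
        rw [if_pos h3]
      · rw [if_neg h3, map_zero]
        apply Finset.sum_eq_zero
        intro e _
        rw [if_neg h3]) hz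
  exact h

theorem lower_mem {k L : ℕ} {z : Fm S b →₀ ℤ}
    (hz : z ∈ supported ℤ ℤ (CK o (fun v => l v ≤ L + 1) k))
    (h : ∀ v, l v = L + 1 → pr v z = 0) : z ∈ supported ℤ ℤ (CK o (fun v => l v ≤ L) k) := by
  intro p hp
  have h1 : p ∈ CK o (fun v => l v ≤ L + 1) k := hz hp
  obtain ⟨h2, h3, h4, h5⟩ := h1
  refine ⟨h2, h3, h4, ?_⟩
  by_contra hc
  have h6 : l p.1 = L + 1 := by omega
  have h7 := pr_apply p.1 z p.2
  rw [h _ h6] at h7
  rw [Finset.mem_coe, Finsupp.mem_support_iff] at hp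
  exact hp h7.symm

theorem CK_mono {Q Q' : V S b → Prop} (h : ∀ v, Q v → Q' v) (k : ℕ) : CK o Q k ⊆ CK o Q' k :=
  fun _ hp => ⟨hp.1, hp.2.1, hp.2.2.1, h _ hp.2.2.2⟩

theorem morse_step (ho : Ori o) (hl : ∀ e v, S.src e = v.en → o v e → l (act e v) < l v)
    {k L : ℕ} (hloc : ∀ v, l v = L + 1 → Acyc pos (Perp S) (Sv o v) k) {z : Fm S b →₀ ℤ}
    (hz : z ∈ supported ℤ ℤ (CK o (fun v => l v ≤ L + 1) k))
    (hd : ∀ v, l v = L + 1 → pr v (dd S b pos z) = 0) :
    ∃ w ∈ supported ℤ ℤ (CK o (fun v => l v ≤ L + 1) (k + 1)),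
      z - dd S b pos w ∈ supported ℤ ℤ (CK o (fun v => l v ≤ L) k) := by
  have h1 : ∀ v, l v = L + 1 → ∃ u ∈ supported ℤ ℤ {F | Cl (Perp S) (Sv o v) (k + 1) F},
      bd pos u = pr v z := by
    intro v hv
    apply hloc v hv _ (pr_mem hz)
    rw [← pr_dd hl (hv.symm ▸ hz), hd v hv]
  choose! u hu hu' using h1
  set Vs : Finset (V S b) := (z.support.image Prod.fst).filter (fun v => l v = L + 1) with hVs
  have hw : (∑ v ∈ Vs, io v (u v)) ∈ supported ℤ ℤ (CK o (fun v => l v ≤ L + 1) (k + 1)) := by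
    apply Submodule.sum_mem
    intro v hv
    have hv' := (Finset.mem_filter.1 hv).2
    exact io_mem hv'.le (hu v hv')
  refine ⟨∑ v ∈ Vs, io v (u v), hw, ?_⟩
  apply lower_mem
  · refine Submodule.sub_mem _ hz (dd_mem ho ?_ hw)
    intro e v h2 h3 h4
    exact (hl e v h2 h3).le.trans h4
  · intro v hv
    rw [map_sub, pr_dd hl (hv.symm ▸ hw), map_sum]
    by_cases hvV : v ∈ Vs
    · rw [Finset.sum_eq_single v, pr_io_self, hu' v hv, sub_self]
      · intro v' _ hne
        exact pr_io_ne hne _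
      · intro h; exact absurd hvV h
    · rw [Finset.sum_eq_zero, map_zero, sub_zero]
      · ext F
        rw [pr_apply]
        by_contra hc
        apply hvV
        rw [hVs, Finset.mem_filter]
        exact ⟨Finset.mem_image.2 ⟨(v, F), Finsupp.mem_support_iff.2 hc, rfl⟩, hv⟩
      · intro v' hv'
        exact pr_io_ne (fun h => hvV (by rw [← h]; exact hv')) _

theorem morse (hpos : PosOK S pos) (ho : Ori o)
    (hl : ∀ e v, S.src e = v.en → o v e → l (act e v) < l v)
    {k L0 L : ℕ} (hL : L0 ≤ L) (hloc : ∀ v, L0 < l v → Acyc pos (Perp S) (Sv o v) k)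
    {z : Fm S b →₀ ℤ} (hz : z ∈ supported ℤ ℤ (CK o (fun v => l v ≤ L) k))
    (hd : ∀ v, L0 < l v → pr v (dd S b pos z) = 0) :
    ∃ w ∈ supported ℤ ℤ (CK o (fun v => l v ≤ L) (k + 1)),
      z - dd S b pos w ∈ supported ℤ ℤ (CK o (fun v => l v ≤ L0) k) := by
  induction L, hL using Nat.le_induction generalizing z with
  | base => exact ⟨0, Submodule.zero_mem _, by rw [map_zero, sub_zero]; exact hz⟩
  | succ L hL ih =>
    obtain ⟨w1, h1, h2⟩ := morse_step (pos := pos) ho hl (fun v hv => hloc v (by omega)) hz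
      (fun v hv => hd v (by omega))
    have h3 : dd S b pos (dd S b pos w1) = 0 := dd_dd hpos (supported_mono CK_fr h1)
    obtain ⟨w2, h4, h5⟩ := ih h2 (by
      intro v hv
      rw [map_sub, h3, sub_zero]
      exact hd v hv)
    refine ⟨w1 + w2, Submodule.add_mem _ h1 (supported_mono (CK_mono (by intro v; omega) _) h4), ?_⟩
    rw [map_add, ← sub_sub]
    exact h5

/-- every chain is in a finite stage -/
theorem exists_stage {Q : V S b → Prop} {k : ℕ} {z : Fm S b →₀ ℤ}
    (hz : z ∈ supported ℤ ℤ (CK o Q k)) (l : V S b → ℕ) (L0 : ℕ) :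
    ∃ L, L0 ≤ L ∧ z ∈ supported ℤ ℤ (CK o (fun v => l v ≤ L) k) := by
  refine ⟨max L0 (z.support.sup fun p => l p.1), le_max_left _ _, ?_⟩
  intro p hp
  have h1 : p ∈ CK o Q k := hz hp
  refine ⟨h1.1, h1.2.1, h1.2.2.1, ?_⟩
  exact le_max_of_le_right (Finset.le_sup (f := fun p : Fm S b => l p.1) hp)

section dec

/-- edges leading towards the base point -/
def decO (v : V S b) (e : E) : Prop := (act e v).len < v.len

theorem decO_ori : Ori (decO (S := S) (b := b)) where
  inv := by
    intro v e h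
    unfold decO
    rw [act_inv h]
    have := act_len h
    omega
  par := by
    intro v e f x y hs h
    exact act_par_iff hs h

theorem decO_acyc (hpos : PosOK S pos) (v : V S b) (hv : 0 < v.len) (k : ℕ) :
    Acyc pos (Perp S) (Sv decO v) k := by
  have hne : v ≠ bs S b := by
    rintro rfl
    rw [bs_len] at hv
    omega
  obtain ⟨x, hx, hx'⟩ := exists_dec hne
  refine acyc_cone (S := Sv decO v) (fun _ _ h => h.symm) (fun _ _ h => hpos.ne h.sq) (a := x)
    ⟨hx, hx'⟩ ?_ k
  rintro y ⟨hy, hy'⟩ hyx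
  exact act_both hyx.symm hx hy hx' hy'

theorem exact_dec (hpos : PosOK S pos) {k : ℕ} {z : Fm S b →₀ ℤ}
    (hz : z ∈ supported ℤ ℤ (CK decO (fun _ => True) (k + 1))) (hd : dd S b pos z = 0) :
    ∃ w ∈ supported ℤ ℤ (CK decO (fun _ => True) (k + 2)), dd S b pos w = z := by
  obtain ⟨L, hL, hzL⟩ := exists_stage hz V.len 0
  obtain ⟨w, hw, hw'⟩ := morse hpos decO_ori (l := V.len) (fun e v _ h => h) hL
    (fun v hv => decO_acyc hpos v hv (k + 1)) hzL (fun v _ => by rw [hd, map_zero])
  refine ⟨w, supported_mono (CK_mono (fun _ _ => trivial) _) hw, ?_⟩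
  have h1 : CK (S := S) (b := b) decO (fun v => v.len ≤ 0) (k + 1) = ∅ := by
    ext p
    refine ⟨?_, fun h => h.elim⟩
    rintro ⟨h1, h2, h3, h4⟩
    have h5 : p.2.Nonempty := by
      rw [← Finset.card_pos, h3]
      omega
    obtain ⟨e, he⟩ := h5
    have h6 := h2 e he
    unfold decO at h6
    omega
  rw [h1, supported_empty, Submodule.mem_bot, sub_eq_zero] at hw'
  exact hw'.symm

/-- augmentation -/
noncomputable def aug : (Fm S b →₀ ℤ) →ₗ[ℤ] ℤ := lin fun _ => 1

theorem aug_dd (z : Fm S b →₀ ℤ) : aug (dd S b pos z) = 0 := by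
  have h := lin_ext (L := aug.comp (dd S b pos)) (L' := 0)
    (fun p => by
      rw [LinearMap.comp_apply, dd_single, map_sum]
      apply Finset.sum_eq_zero
      intro e _
      rw [map_smul, map_sub, aug, lin_single, lin_single, sub_self, smul_zero]) z
  exact h

theorem exact_dec_zero (hpos : PosOK S pos) {z : Fm S b →₀ ℤ}
    (hz : z ∈ supported ℤ ℤ (CK decO (fun _ => True) 0)) (hd : aug z = 0) :
    ∃ w ∈ supported ℤ ℤ (CK decO (fun _ => True) 1), dd S b pos w = z := by
  obtain ⟨L, hL, hzL⟩ := exists_stage hz V.len 0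
  have hdz : dd S b pos z = 0 := by
    have h := supp_mem (dd S b pos) ⊥ (s := CK (S := S) (b := b) decO (fun _ => True) 0)
      (fun p hp => by
        rw [dd_single, Finset.card_eq_zero.1 hp.2.2.1, Finset.sum_empty]
        exact Submodule.zero_mem _) hz
    exact (Submodule.mem_bot _).1 h
  obtain ⟨w, hw, hw'⟩ := morse hpos decO_ori (l := V.len) (fun e v _ h => h) hL
    (fun v hv => decO_acyc hpos v hv 0) hzL (fun v _ => by rw [hdz, map_zero])
  refine ⟨w, supported_mono (CK_mono (fun _ _ => trivial) _) hw, ?_⟩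
  have h1 : z - dd S b pos w = 0 := by
    have h2 : ∀ p, p ∈ CK (S := S) (b := b) decO (fun v => v.len ≤ 0) 0 → p = (bs S b, ∅) := by
      rintro p ⟨-, -, h3, h4⟩
      exact Prod.ext (eq_bs (by omega)) (Finset.card_eq_zero.1 h3)
    set y := z - dd S b pos w with hy
    have h3 : aug y = 0 := by rw [hy, map_sub, hd, aug_dd, sub_zero]
    have h4 : y = single (bs S b, ∅) (y (bs S b, ∅)) := by
      ext p
      by_cases hp : p = (bs S b, ∅)
      · rw [hp, single_eq_same]
      · rw [single_eq_of_ne hp]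
        by_contra hc
        exact hp (h2 p (hw' (Finsupp.mem_support_iff.2 hc)))
    rw [h4] at h3 ⊢
    have h5 : aug (single ((bs S b, ∅) : Fm S b) (y (bs S b, ∅))) = y (bs S b, ∅) := by
      rw [aug, lin, Finsupp.linearCombination_single, smul_eq_mul, mul_one]
    rw [h5] at h3
    rw [h3, single_zero]
  rw [sub_eq_zero] at h1
  exact h1.symm

end dec

/-- the universal covering is acyclic -/
theorem exact_pos (hpos : PosOK S pos) (ho : Ori o) {k : ℕ} {z : Fm S b →₀ ℤ}
    (hz : z ∈ supported ℤ ℤ (CK o (fun _ => True) (k + 1))) (hd : dd S b pos z = 0) :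
    ∃ w ∈ supported ℤ ℤ (CK o (fun _ => True) (k + 2)), dd S b pos w = z := by
  have h1 : ph decO z ∈ supported ℤ ℤ (CK decO (fun _ => True) (k + 1)) := ph_mem decO_ori hz
  obtain ⟨w, hw, hw'⟩ := exact_dec hpos h1 (by
    rw [← ph_dd hpos decO_ori (supported_mono CK_fr hz), hd, map_zero])
  refine ⟨ph o w, ph_mem ho hw, ?_⟩
  rw [← ph_dd hpos ho (supported_mono CK_fr hw), hw', ph_ph ho decO_ori hz]

theorem exact_pos_zero (hpos : PosOK S pos) (ho : Ori o) {z : Fm S b →₀ ℤ}
    (hz : z ∈ supported ℤ ℤ (CK o (fun _ => True) 0)) (hd : aug z = 0) :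
    ∃ w ∈ supported ℤ ℤ (CK o (fun _ => True) 1), dd S b pos w = z := by
  have h1 : z ∈ supported ℤ ℤ (CK decO (fun _ => True) 0) := by
    refine supported_mono ?_ hz
    intro p hp
    refine ⟨hp.1, ?_, hp.2.2.1, trivial⟩
    intro e he
    rw [Finset.card_eq_zero.1 hp.2.2.1] at he
    exact absurd he (Finset.notMem_empty _)
  obtain ⟨w, hw, hw'⟩ := exact_dec_zero hpos h1 hd
  refine ⟨ph o w, ph_mem ho hw, ?_⟩
  rw [← ph_dd hpos ho (supported_mono CK_fr hw), hw']
  have h2 := supp_eq (ph o) LinearMap.id (s := CK o (fun _ => True) 0)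
    (fun p hp => by rw [ph_pos ho hp.1 hp.2.1]; rfl) hz
  exact h2

/-- pushing chains into a finite stage -/
theorem push (hpos : PosOK S pos) (ho : Ori o)
    (hl : ∀ e v, S.src e = v.en → o v e → l (act e v) < l v) {k N : ℕ}
    (hloc : ∀ v, N < l v → Acyc pos (Perp S) (Sv o v) (k + 1))
    {z : Fm S b →₀ ℤ} (hz : z ∈ supported ℤ ℤ (CK o (fun v => l v ≤ N) k))
    (hy : ∃ y ∈ supported ℤ ℤ (CK o (fun _ => True) (k + 1)), dd S b pos y = z) :
    ∃ w ∈ supported ℤ ℤ (CK o (fun v => l v ≤ N) (k + 1)), dd S b pos w = z := by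
  obtain ⟨y, hy, hyz⟩ := hy
  obtain ⟨L, hL, hyL⟩ := exists_stage hy l N
  obtain ⟨w, hw, hw'⟩ := morse hpos ho hl hL hloc hyL (by
    intro v hv
    rw [hyz]
    ext F
    rw [pr_apply]
    by_contra hc
    have h1 : (v, F) ∈ CK o (fun v => l v ≤ N) k := hz (Finsupp.mem_support_iff.2 hc)
    have h2 := h1.2.2.2
    simp only at h2
    omega)
  refine ⟨y - dd S b pos w, hw', ?_⟩
  rw [map_sub, dd_dd hpos (supported_mono CK_fr hw), sub_zero, hyz]

end Pool.Agent.P8H61
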