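import Pool.Agent.P8H61.Cub

set_option autoImplicit false

/-!
# Orientations and re-pointing of cubes
-/

namespace Pool.Agent.P8H61

open Classical Finsupp

variable {W E : Type} {S : RS W E} {b : W}

/-- an orientation of the edges of the universal covering which is constant on parallel edges -/
structure Ori (o : V S b → E → Prop) : Prop where
  inv : ∀ {v e}, S.src e = v.en → (o (act e v) (S.inv e) ↔ ¬ o v e)
  par : ∀ {v e f x y}, S.Sq e f x y → S.src e = v.en → (o (act e v) x ↔ o v f)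

variable (o : V S b → E → Prop)

/-- all edges of the pointed cube are positive -/
def Pos (p : Fm S b) : Prop := ∀ e ∈ p.2, o p.1 e

/-- number of negative edges -/
noncomputable def nn (p : Fm S b) : ℕ := (p.2.filter fun e => ¬ o p.1 e).card

/-- the positive pointing of a cube -/
inductive Nm : Fm S b → Fm S b → Prop
  | nf {p : Fm S b} : Pos o p → Nm p p
  | step {p q : Fm S b} {e : E} : e ∈ p.2 → ¬ o p.1 e → Nm (flip e p) q → Nm p q

variable {o}

theorem nn_zero {p : Fm S b} (h : nn o p = 0) : Pos o p := by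
  unfold nn at h
  rw [Finset.card_eq_zero] at h
  intro e he
  by_contra hc
  have : e ∈ p.2.filter fun e => ¬ o p.1 e := Finset.mem_filter.2 ⟨he, hc⟩
  rw [h] at this
  exact absurd this (Finset.notMem_empty _)

theorem nn_of_pos {p : Fm S b} (h : Pos o p) : nn o p = 0 := by
  unfold nn
  rw [Finset.card_eq_zero, Finset.filter_eq_empty_iff]
  intro e he
  exact not_not.2 (h e he)

theorem Ori.twI (ho : Ori o) {p : Fm S b} (hp : Fr p) {e f : E} (he : e ∈ p.2) (hf : f ∈ p.2)
    (hne : e ≠ f) : o (act e p.1) (tw S e f) ↔ o p.1 f := by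
  rw [tw_of_ne hne]
  exact ho.par (hp.2 e he f hf hne).sq (hp.1 e he)

theorem Ori.nn_flip_neg (ho : Ori o) {p : Fm S b} (hp : Fr p) {e : E} (he : e ∈ p.2)
    (h : ¬ o p.1 e) : nn o (flip e p) + 1 = nn o p := by
  unfold nn
  have h1 : (flip e p).2.filter (fun f => ¬ o (flip e p).1 f) =
      ((p.2.filter fun f => ¬ o p.1 f).erase e).image (tw S e) := by
    ext g
    change g ∈ (p.2.image (tw S e)).filter (fun f => ¬ o (act e p.1) f) ↔ _
    simp only [Finset.mem_filter, Finset.mem_image, Finset.mem_erase]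
    constructor
    · rintro ⟨⟨f, hf, rfl⟩, hg⟩
      have hfe : f ≠ e := by
        rintro rfl
        rw [tw_self] at hg
        exact hg ((ho.inv (hp.1 f hf)).2 h)
      exact ⟨f, ⟨hfe, hf, fun h' => hg ((ho.twI hp he hf hfe.symm).2 h')⟩, rfl⟩
    · rintro ⟨f, ⟨hfe, hf, hf'⟩, rfl⟩
      exact ⟨⟨f, hf, rfl⟩, fun h' => hf' ((ho.twI hp he hf hfe.symm).1 h')⟩
  rw [h1, Finset.card_image_of_injOn]
  · exact Finset.card_erase_add_one (Finset.mem_filter.2 ⟨he, h⟩)
  · intro a ha c hc hac
    exact hp.tw_inj he (Finset.mem_filter.1 (Finset.mem_of_mem_erase ha)).1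
      (Finset.mem_filter.1 (Finset.mem_of_mem_erase hc)).1 hac

theorem mem_flip_inv {p : Fm S b} {e : E} (he : e ∈ p.2) : S.inv e ∈ (flip e p).2 := by
  rw [← tw_self]
  exact Finset.mem_image_of_mem _ he

theorem mem_flip_tw {p : Fm S b} {e f : E} (hf : f ∈ p.2) : tw S e f ∈ (flip e p).2 :=
  Finset.mem_image_of_mem _ hf

theorem Ori.nn_flip_pos (ho : Ori o) {p : Fm S b} (hp : Fr p) {e : E} (he : e ∈ p.2)
    (h : o p.1 e) : nn o (flip e p) = nn o p + 1 := by
  have h1 := ho.nn_flip_neg (hp.flipFr he) (mem_flip_inv he)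
    (fun h' => (ho.inv (hp.1 e he)).1 h' h)
  rw [hp.flip_flip he] at h1
  exact h1.symm

theorem Nm.exists (ho : Ori o) : ∀ (n : ℕ) (p : Fm S b), nn o p = n → Fr p → ∃ q, Nm o p q := by
  intro n
  induction n with
  | zero => intro p hn _; exact ⟨p, Nm.nf (nn_zero hn)⟩
  | succ n ih =>
    intro p hn hp
    have h1 : ∃ e ∈ p.2, ¬ o p.1 e := by
      by_contra hc
      push Not at hc
      rw [nn_of_pos hc] at hn
      omega
    obtain ⟨e, he, h2⟩ := h1
    have h3 := ho.nn_flip_neg hp he h2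
    obtain ⟨q, hq⟩ := ih (flip e p) (by omega) (hp.flipFr he)
    exact ⟨q, Nm.step he h2 hq⟩

theorem Nm.unique (ho : Ori o) : ∀ (n : ℕ) (p q1 q2 : Fm S b), nn o p = n → Fr p → Nm o p q1 →
    Nm o p q2 → q1 = q2 := by
  intro n
  induction n with
  | zero =>
    intro p q1 q2 hn _ h1 h2
    have h0 := nn_zero hn
    cases h1 with
    | nf _ =>
      cases h2 with
      | nf _ => rfl
      | step he hne _ => exact absurd (h0 _ he) hne
    | step he hne _ => exact absurd (h0 _ he) hne
  | succ n ih =>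
    intro p q1 q2 hn hp h1 h2
    cases h1 with
    | nf h => rw [nn_of_pos h] at hn; omega
    | @step _ _ e he hoe h1 =>
      cases h2 with
      | nf h => rw [nn_of_pos h] at hn; omega
      | @step _ _ f hf hof h2 =>
        have h3 := ho.nn_flip_neg hp he hoe
        have h4 := ho.nn_flip_neg hp hf hof
        by_cases hef : e = f
        · subst hef
          exact ih _ _ _ (by omega) (hp.flipFr he) h1 h2
        · obtain ⟨q, hq⟩ := Nm.exists ho _ (flip (tw S e f) (flip e p)) rfl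
            ((hp.flipFr he).flipFr (mem_flip_tw hf))
          have g1 : Nm o (flip e p) q := Nm.step (mem_flip_tw hf)
            (fun h => hof ((ho.twI hp he hf hef).1 h)) hq
          rw [hp.flip_comm he hf hef] at hq
          have g2 : Nm o (flip f p) q := Nm.step (mem_flip_tw he)
            (fun h => hoe ((ho.twI hp hf he (Ne.symm hef)).1 h)) hq
          rw [ih _ _ _ (by omega) (hp.flipFr he) h1 g1, ih _ _ _ (by omega) (hp.flipFr hf) h2 g2]

theorem Nm.prop {p q : Fm S b} (h : Nm o p q) (hp : Fr p) :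
    Fr q ∧ Pos o q ∧ q.2.card = p.2.card := by
  induction h with
  | nf h => exact ⟨hp, h, rfl⟩
  | @step p q e he _ _ ih =>
    have h1 := ih (hp.flipFr he)
    exact ⟨h1.1, h1.2.1, h1.2.2.trans (hp.card_flip he)⟩

variable (o) in
/-- the positive pointing -/
noncomputable def nrm (p : Fm S b) : Fm S b := if h : ∃ q, Nm o p q then h.choose else p

theorem nrm_eq (ho : Ori o) {p q : Fm S b} (hp : Fr p) (h : Nm o p q) : nrm o p = q := by
  have h' : ∃ q, Nm o p q := ⟨q, h⟩
  unfold nrm
  rw [dif_pos h']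
  exact Nm.unique ho _ _ _ _ rfl hp h'.choose_spec h

theorem nrm_nm (ho : Ori o) {p : Fm S b} (hp : Fr p) : Nm o p (nrm o p) := by
  obtain ⟨q, hq⟩ := Nm.exists ho _ p rfl hp
  rw [nrm_eq ho hp hq]
  exact hq

theorem nrm_pos (ho : Ori o) {p : Fm S b} (hp : Fr p) (h : Pos o p) : nrm o p = p :=
  nrm_eq ho hp (Nm.nf h)

theorem nrm_flip (ho : Ori o) {p : Fm S b} (hp : Fr p) {e : E} (he : e ∈ p.2) :
    nrm o (flip e p) = nrm o p := by
  by_cases h : o p.1 e
  · have h1 : ¬ o (flip e p).1 (S.inv e) := fun h' => (ho.inv (hp.1 e he)).1 h' h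
    apply nrm_eq ho (hp.flipFr he)
    apply Nm.step (mem_flip_inv he) h1
    rw [hp.flip_flip he]
    exact nrm_nm ho hp
  · exact (nrm_eq ho hp (Nm.step he h (nrm_nm ho (hp.flipFr he)))).symm

variable (o) in
/-- the chain given by a pointed cube in terms of positively pointed cubes -/
noncomputable def ph : (Fm S b →₀ ℤ) →ₗ[ℤ] (Fm S b →₀ ℤ) :=
  lin fun p => (-1 : ℤ) ^ nn o p • single (nrm o p) 1

theorem ph_single (p : Fm S b) : ph o (single p 1) = (-1 : ℤ) ^ nn o p • single (nrm o p) 1 :=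
  lin_single _ _

theorem ph_pos (ho : Ori o) {p : Fm S b} (hp : Fr p) (h : Pos o p) :
    ph o (single p 1) = single p 1 := by
  rw [ph_single, nrm_pos ho hp h, nn_of_pos h, pow_zero, one_smul]

theorem ph_flip (ho : Ori o) {p : Fm S b} (hp : Fr p) {e : E} (he : e ∈ p.2) :
    ph o (single (flip e p) 1) = - ph o (single p 1) := by
  rw [ph_single, ph_single, nrm_flip ho hp he, ← neg_smul]
  congr 1
  by_cases h : o p.1 e
  · rw [ho.nn_flip_pos hp he h, pow_succ]
    ring
  · rw [← ho.nn_flip_neg hp he h, pow_succ]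
    ring

variable {pos : E → ℕ}

theorem ph_dd_flip (hpos : PosOK S pos) (ho : Ori o) {p : Fm S b} (hp : Fr p) {f : E}
    (hf : f ∈ p.2) :
    ph o (dd S b pos (single (flip f p) 1)) = - ph o (dd S b pos (single p 1)) := by
  have h0 : (flip f p).2 = p.2.image (tw S f) := rfl
  rw [dd_single, dd_single, h0, Finset.sum_image (fun a ha c hc h => hp.tw_inj hf ha hc h), ← h0,
    map_sum, map_sum, ← Finset.sum_neg_distrib]
  apply Finset.sum_congr rfl
  intro e he
  rw [hp.sg_flip hpos hf he, map_smul, map_smul, ← smul_neg]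
  congr 1
  by_cases hef : e = f
  · subst hef
    rw [tw_self, hp.bk_inv he]
    change ph o (single (bk e p) 1 - _) = _
    rw [map_sub, map_sub, neg_sub]
  · have h1 : f ∈ (del e p).2 := Finset.mem_erase.2 ⟨Ne.symm hef, hf⟩
    have h2 : tw S e f ∈ (bk e p).2 := by
      rw [hp.bk_snd he]
      exact Finset.mem_image_of_mem _ h1
    rw [hp.del_flip he hf hef, hp.flip_bk he hf hef, map_sub, map_sub,
      ph_flip ho (hp.delFr e) h1, ph_flip ho (hp.bkFr he) h2]
    abel

theorem Pos.del {p : Fm S b} (h : Pos o p) (e : E) : Pos o (del e p) :=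
  fun f hf => h f (Finset.mem_of_mem_erase hf)

theorem Pos.bk (ho : Ori o) {p : Fm S b} (hp : Fr p) (h : Pos o p) {e : E} (he : e ∈ p.2) :
    Pos o (bk e p) := by
  intro f' hf'
  rw [hp.bk_snd he] at hf'
  obtain ⟨f, hf, rfl⟩ := Finset.mem_image.1 hf'
  have hf2 := Finset.mem_erase.1 hf
  exact (ho.twI hp he hf2.2 hf2.1.symm).2 (h f hf2.2)

theorem ph_dd_pos (ho : Ori o) {p : Fm S b} (hp : Fr p) (h : Pos o p) :
    ph o (dd S b pos (single p 1)) = dd S b pos (single p 1) := by
  rw [dd_single, map_sum]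
  apply Finset.sum_congr rfl
  intro e he
  rw [map_smul, map_sub, ph_pos ho (hp.delFr e) (h.del e), ph_pos ho (hp.bkFr he) (h.bk ho hp he)]

/-- `ph` is a chain map -/
theorem ph_dd_single (hpos : PosOK S pos) (ho : Ori o) {p : Fm S b} (hp : Fr p) :
    ph o (dd S b pos (single p 1)) = dd S b pos (ph o (single p 1)) := by
  have key : ∀ q, Nm o p q → ph o (dd S b pos (single p 1)) =
      (-1 : ℤ) ^ nn o p • dd S b pos (single q 1) := by
    intro q h
    induction h with
    | nf h => rw [ph_dd_pos ho hp h, nn_of_pos h, pow_zero, one_smul]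
    | @step p q e he hoe _ ih =>
      have h1 := ph_dd_flip hpos ho hp he
      rw [ih (hp.flipFr he)] at h1
      rw [← neg_eq_iff_eq_neg.2 h1, ← ho.nn_flip_neg hp he hoe, pow_succ, mul_neg_one, neg_smul]
  rw [ph_single, map_smul]
  exact key _ (nrm_nm ho hp)

theorem ph_dd (hpos : PosOK S pos) (ho : Ori o) {z : Fm S b →₀ ℤ}
    (hz : z ∈ supported ℤ ℤ {p | Fr p}) : ph o (dd S b pos z) = dd S b pos (ph o z) := by
  have h := supp_eq ((ph o).comp (dd S b pos)) ((dd S b pos).comp (ph o)) (s := {p | Fr p})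
    (fun p hp => by
      rw [LinearMap.comp_apply, LinearMap.comp_apply]
      exact ph_dd_single hpos ho hp) hz
  rw [LinearMap.comp_apply, LinearMap.comp_apply] at h
  exact h

/-- changing the orientation twice -/
theorem ph_ph_single {o' : V S b → E → Prop} (ho : Ori o) (ho' : Ori o') {p : Fm S b} (hp : Fr p) :
    ph o (ph o' (single p 1)) = ph o (single p 1) := by
  have key : ∀ q, Nm o' p q → (-1 : ℤ) ^ nn o' p • ph o (single q 1) = ph o (single p 1) := by
    intro q h
    induction h with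
    | nf h => rw [nn_of_pos h, pow_zero, one_smul]
    | @step p q e he hoe _ ih =>
      have h1 := ih (hp.flipFr he)
      rw [ph_flip ho hp he] at h1
      rw [← neg_eq_iff_eq_neg.2 h1, ← ho'.nn_flip_neg hp he hoe, pow_succ, mul_neg_one, neg_smul]
  rw [ph_single (o := o'), map_smul]
  exact key _ (nrm_nm ho' hp)

/-- positively pointed cubes of dimension `k` satisfying `Q` -/
def CK (o : V S b → E → Prop) (Q : V S b → Prop) (k : ℕ) : Set (Fm S b) :=
  {p | Fr p ∧ Pos o p ∧ p.2.card = k ∧ Q p.1}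

theorem ph_mem {o' : V S b → E → Prop} (ho : Ori o) {Q : V S b → Prop} {k : ℕ}
    {z : Fm S b →₀ ℤ} (hz : z ∈ supported ℤ ℤ (CK o' Q k)) :
    ph o z ∈ supported ℤ ℤ (CK o (fun _ => True) k) := by
  refine supp_mem _ _ (fun p hp => ?_) hz
  rw [ph_single]
  have h1 := (nrm_nm ho hp.1).prop hp.1
  exact Submodule.smul_mem _ _ (single_supp (s := CK o (fun _ => True) k)
    ⟨h1.1, h1.2.1, h1.2.2.trans hp.2.2.1, trivial⟩ _)

theorem ph_ph {o' : V S b → E → Prop} (ho : Ori o) (ho' : Ori o') {Q : V S b → Prop} {k : ℕ}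
    {z : Fm S b →₀ ℤ} (hz : z ∈ supported ℤ ℤ (CK o Q k)) : ph o (ph o' z) = z := by
  have h := supp_eq ((ph o).comp (ph o')) LinearMap.id (s := CK o Q k)
    (fun p hp => by
      rw [LinearMap.comp_apply, LinearMap.id_apply, ph_ph_single ho ho' hp.1,
        ph_pos ho hp.1 hp.2.1]) hz
  exact h

theorem CK_fr {Q : V S b → Prop} {k : ℕ} : CK o Q k ⊆ {p | Fr p} := fun _ hp => hp.1

/-- the boundary of positively pointed cubes -/
theorem dd_mem (ho : Ori o) {Q : V S b → Prop}
    (hQ : ∀ e v, S.src e = v.en → o v e → Q v → Q (act e v)) {k : ℕ}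
    {z : Fm S b →₀ ℤ} (hz : z ∈ supported ℤ ℤ (CK o Q (k + 1))) :
    dd S b pos z ∈ supported ℤ ℤ (CK o Q k) := by
  refine supp_mem _ _ (fun p hp => ?_) hz
  obtain ⟨h1, h2, h3, h4⟩ := hp
  rw [dd_single]
  refine Submodule.sum_mem _ (fun e he => Submodule.smul_mem _ _ (Submodule.sub_mem _
    (single_supp (s := CK o Q k) ⟨h1.delFr e, h2.del e, ?_, h4⟩ _)
    (single_supp (s := CK o Q k) ⟨h1.bkFr he, h2.bk ho h1 he, ?_,
      hQ e _ (h1.1 e he) (h2 e he) h4⟩ _)))
  · change (p.2.erase e).card = k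
    rw [Finset.card_erase_of_mem he, h3]
    rfl
  · have := h1.card_bk he
    omega

end Pool.Agent.P8H61
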