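import Mathlib

set_option autoImplicit false

/-!
# Residual systems and normal forms of paths
-/

namespace Pool.Agent.P8H61

/-- Square complexes all of whose vertex links are flag (residual systems): `E` is the set of
oriented edges, `Sq e f x y` says that `e, x` and `f, y` are the two halves of the boundary of a
square. -/
structure RS (W E : Type) where
  src : E → W
  tgt : E → W
  inv : E → E
  Sq : E → E → E → E → Prop
  inv_inv : ∀ e, inv (inv e) = e
  src_inv : ∀ e, src (inv e) = tgt e
  sq_src : ∀ {e f x y}, Sq e f x y → src e = src f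
  sq_mid : ∀ {e f x y}, Sq e f x y → tgt e = src x
  sq_tgt : ∀ {e f x y}, Sq e f x y → tgt x = tgt y
  symm : ∀ {e f x y}, Sq e f x y → Sq f e y x
  func : ∀ {e f x y x' y'}, Sq e f x y → Sq e f x' y' → x = x' ∧ y = y'
  rot : ∀ {e f x y}, Sq e f x y → Sq (inv e) x f (inv y)
  ne : ∀ {e x y}, ¬ Sq e e x y
  cube : ∀ {e f g fe ef ge eg gf fg}, Sq e f fe ef → Sq e g ge eg → Sq f g gf fg →
    ∃ X Y Z, Sq fe ge Z Y ∧ Sq ef gf Z X ∧ Sq eg fg Y X

variable {W E : Type} (S : RS W E)

theorem RS.tgt_inv (e : E) : S.tgt (S.inv e) = S.src e := by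
  rw [← S.src_inv, S.inv_inv]

theorem RS.inv_inj {e f : E} (h : S.inv e = S.inv f) : e = f := by
  rw [← S.inv_inv e, h, S.inv_inv]

/-- rotation by a half turn -/
theorem RS.rot2 {e f x y : E} (h : S.Sq e f x y) : S.Sq (S.inv x) (S.inv y) (S.inv e) (S.inv f) := by
  have h1 := S.rot (S.symm (S.rot h))
  exact h1

theorem RS.rotr {e f x y : E} (h : S.Sq e f x y) : S.Sq (S.inv f) y e (S.inv x) :=
  S.rot (S.symm h)

/-- homotopies through squares between (reversed) paths -/
inductive T : List E → List E → Prop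
  | nil : T [] []
  | cons (x : E) {l m : List E} : T l m → T (x :: l) (x :: m)
  | sq {e f x y : E} {l m n : List E} : S.Sq e f x y → T l (e :: n) → T m (f :: n) →
      T (x :: l) (y :: m)

variable {S}

theorem T.refl : ∀ l : List E, T S l l
  | [] => T.nil
  | x :: l => T.cons x (T.refl l)

theorem T.symm {l m : List E} (h : T S l m) : T S m l := by
  induction h with
  | nil => exact T.nil
  | cons x _ ih => exact T.cons x ih
  | sq h h1 h2 _ _ => exact T.sq (S.symm h) h2 h1

theorem T.length {l m : List E} (h : T S l m) : l.length = m.length := by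
  induction h with
  | nil => rfl
  | cons x _ ih => simp [ih]
  | sq h h1 h2 i1 i2 =>
    simp only [List.length_cons] at i1 i2 ⊢
    omega

theorem T.trans_aux (k : ℕ) : ∀ l m n : List E, l.length = k → T S l m → T S m n → T S l n := by
  induction k with
  | zero =>
    intro l m n hl h1 h2
    have h3 := h1.length
    have h4 := h2.length
    rw [hl] at h3
    rw [← h3] at h4
    rw [List.length_eq_zero_iff.1 hl, List.length_eq_zero_iff.1 h4.symm]
    exact T.nil
  | succ k ih =>
    intro l1 l2 l3 hl h12 h23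
    cases h12 with
    | nil => simp at hl
    | @cons x a b hab =>
      have ha : a.length = k := by simpa using hl
      cases h23 with
      | @cons _ _ c hbc => exact T.cons x (ih _ _ _ ha hab hbc)
      | @sq e f _ z _ c n hs h1 h2 => exact T.sq hs (ih _ _ _ ha hab h1) h2
    | @sq e f x y a b n hs h1 h2 =>
      have ha : a.length = k := by simpa using hl
      have hen := h1.length
      have hfn := h2.length
      simp only [List.length_cons] at hen hfn
      cases h23 with
      | @cons _ _ c hbc =>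
        refine T.sq hs h1 (ih _ _ _ ?_ hbc.symm h2)
        rw [← hbc.length]
        omega
      | @sq e' f' _ z _ c n' hs' h1' h2' =>
        have hcn := h2'.length
        simp only [List.length_cons] at hcn
        have h3 : T S (f :: n) (e' :: n') := by
          refine ih _ _ _ ?_ h2.symm h1'
          simp only [List.length_cons]
          omega
        have h4 := h3.length
        simp only [List.length_cons] at h4
        cases h3 with
        | @cons _ _ _ hn =>
          -- `f = e'`
          have r1 := S.rotr hs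
          have r2 := S.rot hs'
          obtain ⟨hef, hxz⟩ := S.func (S.symm r1) (S.symm r2)
          have hxz := S.inv_inj hef
          subst hxz
          have hef' : e = f' := by
            have := S.func r1 r2
            exact this.1
          subst hef'
          refine T.cons _ ?_
          have h5 : T S a (e :: n') := by
            refine ih _ _ _ ha h1 (T.cons e hn)
          exact ih _ _ _ ha h5 h2'.symm
        | @sq p q _ _ _ _ m hpq hn hn' =>
          have hnm := hn.length
          simp only [List.length_cons] at hnm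
          -- the three edges `inv f`, `inv e'`, `y` at `tgt f`
          have c1 := S.rot2 hpq
          have c2 := S.rotr hs
          have c3 := S.rot hs'
          obtain ⟨X, Y, Z, d1, d2, d3⟩ := S.cube c1 c2 c3
          have e1 := S.rot d1
          rw [S.inv_inv] at e1
          have e2 := S.rot d2
          rw [S.inv_inv] at e2
          have e3 := S.rot2 d3
          rw [S.inv_inv, S.inv_inv] at e3
          -- `e1 : Sq p Z e (inv Y)`
          have t1 : T S (e :: n) (S.inv Y :: Z :: m) := T.sq e1 hn (T.refl _)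
          have t2 : T S (f' :: n') (S.inv X :: Z :: m) := T.sq e2 hn' (T.refl _)
          refine T.sq e3 (ih _ _ _ ha h1 t1) (ih _ _ _ ?_ h2' t2)
          omega

theorem T.trans {l m n : List E} (h1 : T S l m) (h2 : T S m n) : T S l n :=
  T.trans_aux _ _ _ _ rfl h1 h2

/-- right cancellation -/
theorem T.cancel {x : E} {l m : List E} (h : T S (x :: l) (x :: m)) : T S l m := by
  cases h with
  | cons _ h => exact h
  | sq hs h1 h2 => exact absurd (S.rot2 hs) S.ne

variable (S)

/-- reduced paths -/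
def Rd : List E → Prop
  | [] => True
  | x :: l => Rd l ∧ ∀ m, ¬ T S l (S.inv x :: m)

variable {S}

theorem Rd.congr_aux {l m : List E} (h : T S l m) : Rd S l ↔ Rd S m := by
  induction h with
  | nil => exact Iff.rfl
  | @cons x l m h ih =>
    simp only [Rd]
    rw [ih]
    refine and_congr_right fun _ => forall_congr' fun k => not_congr ?_
    exact ⟨fun t => h.symm.trans t, fun t => h.trans t⟩
  | @sq e f x y l m n hs h1 h2 i1 i2 =>
    have key : ∀ {e f x y : E} {l m n : List E}, S.Sq e f x y → T S l (e :: n) →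
        T S m (f :: n) → (Rd S l ↔ Rd S (e :: n)) → (Rd S m ↔ Rd S (f :: n)) →
        Rd S (x :: l) → Rd S (y :: m) := by
      intro e f x y l m n hs h1 h2 i1 i2 hr
      obtain ⟨hr1, hr2⟩ := hr
      obtain ⟨hn1, hn2⟩ := i1.1 hr1
      have hf : Rd S (f :: n) := by
        refine ⟨hn1, fun k hk => ?_⟩
        apply hr2 (y :: k)
        exact (h1.trans (T.cons e hk)).trans (T.sq (S.rotr hs) (T.refl _) (T.refl _) : T S
          (e :: S.inv f :: k) (S.inv x :: y :: k))
      refine ⟨i2.2 hf, fun k hk => ?_⟩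
      have hk' := h2.symm.trans hk
      have hr' := S.rotr hs
      generalize hiy : S.inv y = y' at hk'
      cases hk' with
      | cons _ h =>
        rw [← hiy] at hr'
        rw [S.inv_inv] at hr'
        exact S.ne hr'
      | @sq p q _ _ _ _ j hpq g1 g2 =>
        subst hiy
        have h5 := S.rot2 hpq
        rw [S.inv_inv] at h5
        obtain ⟨h6, -⟩ := S.func hr' h5
        subst h6
        apply hn2 j
        rw [S.inv_inv]
        exact g1
    exact ⟨key hs h1 h2 i1 i2, key (S.symm hs) h2 h1 i2 i1⟩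

theorem Rd.congr {l m : List E} (h : T S l m) (hl : Rd S l) : Rd S m := (Rd.congr_aux h).1 hl

variable (S)

/-- end of a (reversed) path starting at `b` -/
def en (b : W) : List E → W
  | [] => b
  | x :: _ => S.tgt x

/-- (reversed) paths starting at `b` -/
def Ch (b : W) : List E → Prop
  | [] => True
  | x :: l => S.src x = en S b l ∧ Ch b l

variable {S}

theorem en_congr {b : W} {l m : List E} (h : T S l m) : en S b l = en S b m := by
  cases h with
  | nil => rfl
  | cons => rfl
  | sq hs _ _ => exact S.sq_tgt hs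

theorem Ch.congr_aux {b : W} {l m : List E} (h : T S l m) : Ch S b l ↔ Ch S b m := by
  induction h with
  | nil => exact Iff.rfl
  | cons x h ih => simp only [Ch]; rw [ih, en_congr h]
  | @sq e f x y l m n hs h1 h2 i1 i2 =>
    simp only [Ch] at i1 i2 ⊢
    rw [i1, i2, en_congr h1, en_congr h2]
    have e1 : en S b (e :: n) = S.tgt e := rfl
    have e2 : en S b (f :: n) = S.tgt f := rfl
    rw [e1, e2, ← S.sq_mid hs, ← S.sq_mid (S.symm hs), S.sq_src hs]
    simp

theorem Ch.congr {b : W} {l m : List E} (h : T S l m) (hl : Ch S b l) : Ch S b m :=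
  (Ch.congr_aux h).1 hl

variable (S)

/-- homotopy of reduced paths starting at `b` -/
def stp (b : W) : Setoid {l : List E // Ch S b l ∧ Rd S l} where
  r l m := T S l.1 m.1
  iseqv := ⟨fun _ => T.refl _, fun h => h.symm, fun h1 h2 => h1.trans h2⟩

/-- the vertices of the universal covering: reduced paths starting at `b`, modulo squares -/
def V (b : W) : Type := Quotient (stp S b)

variable {S} {b : W}

/-- the vertex given by a reduced path -/
def mk (l : List E) (h : Ch S b l ∧ Rd S l) : V S b := Quotient.mk (stp S b) ⟨l, h⟩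

theorem mk_eq {l m : List E} {hl : Ch S b l ∧ Rd S l} {hm : Ch S b m ∧ Rd S m} :
    (mk l hl = mk m hm) ↔ T S l m :=
  ⟨fun h => Quotient.exact h, fun h => Quotient.sound h⟩

theorem V.ind (v : V S b) : ∃ (l : List E) (h : Ch S b l ∧ Rd S l), v = mk l h := by
  induction v using Quotient.ind with
  | _ l => exact ⟨l.1, l.2, rfl⟩

/-- the projection of a vertex of the universal covering -/
def V.en (v : V S b) : W := Quotient.lift (fun l => Pool.Agent.P8H61.en S b l.1)
  (fun _ _ h => en_congr h) v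

/-- distance of a vertex of the universal covering from the base point -/
def V.len (v : V S b) : ℕ := Quotient.lift (fun l => l.1.length)
  (fun _ _ h => T.length h) v

@[simp] theorem mk_en (l : List E) (h : Ch S b l ∧ Rd S l) :
    (mk l h).en = Pool.Agent.P8H61.en S b l := rfl
@[simp] theorem mk_len (l : List E) (h : Ch S b l ∧ Rd S l) : (mk l h).len = l.length := rfl

variable (S b) in
/-- the base point -/
def bs : V S b := mk [] ⟨trivial, trivial⟩

/-- `AR x v w`: `w` is the end of the lift of `x` starting at `v` -/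
def AR (x : E) (v v' : V S b) : Prop :=
  (∃ m hm hm', v' = mk m hm ∧ v = mk (S.inv x :: m) hm') ∨
    (∃ l hl hl', v = mk l hl ∧ v' = mk (x :: l) hl')

theorem AR.inv {x : E} {v v' : V S b} (h : AR x v v') : AR (S.inv x) v' v := by
  rcases h with ⟨m, hm, hm', rfl, rfl⟩ | ⟨l, hl, hl', rfl, rfl⟩
  · exact Or.inr ⟨m, hm, hm', rfl, rfl⟩
  · refine Or.inl ⟨l, hl, ?_, rfl, ?_⟩
    · rw [S.inv_inv]; exact hl'
    · congr 1
      rw [S.inv_inv]

theorem AR.src {x : E} {v v' : V S b} (h : AR x v v') : S.src x = v.en := by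
  rcases h with ⟨m, hm, hm', rfl, rfl⟩ | ⟨l, hl, hl', rfl, rfl⟩
  · exact (S.tgt_inv x).symm
  · exact hl'.1.1

theorem AR.tgt {x : E} {v v' : V S b} (h : AR x v v') : S.tgt x = v'.en := by
  have := h.inv.src
  rw [S.src_inv] at this
  exact this

theorem AR.exists {x : E} {v : V S b} (h : S.src x = v.en) : ∃ v', AR x v v' := by
  obtain ⟨l, hl, rfl⟩ := v.ind
  by_cases hx : ∃ m, T S l (S.inv x :: m)
  · obtain ⟨m, hm⟩ := hx
    have h1 : Ch S b (S.inv x :: m) ∧ Rd S (S.inv x :: m) := ⟨hl.1.congr hm, hl.2.congr hm⟩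
    exact ⟨mk m ⟨h1.1.2, h1.2.1⟩, Or.inl ⟨m, _, h1, rfl, mk_eq.2 hm⟩⟩
  · push Not at hx
    exact ⟨mk (x :: l) ⟨⟨h, hl.1⟩, hl.2, hx⟩, Or.inr ⟨l, hl, _, rfl, rfl⟩⟩

theorem AR.func {x : E} {v v' v'' : V S b} (h : AR x v v') (h' : AR x v v'') : v' = v'' := by
  rcases h with ⟨m, hm, hm', rfl, rfl⟩ | ⟨l, hl, hl', rfl, rfl⟩
  · rcases h' with ⟨n, hn, hn', rfl, h1⟩ | ⟨l, hl, hl', h1, rfl⟩
    · rw [mk_eq] at h1 ⊢
      exact h1.cancel
    · rw [mk_eq] at h1
      exact absurd h1.symm (hl'.2.2 _)
  · rcases h' with ⟨n, hn, hn', rfl, h1⟩ | ⟨l', hl2, hl2', h1, rfl⟩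
    · rw [mk_eq] at h1
      exact absurd h1 (hl'.2.2 _)
    · rw [mk_eq] at h1 ⊢
      exact T.cons x h1

theorem AR.sq {e f x y : E} (hs : S.Sq e f x y) {v v1 v2 : V S b} (h1 : AR e v v1)
    (h2 : AR x v1 v2) : ∃ v3, AR f v v3 ∧ AR y v3 v2 := by
  obtain ⟨v3, h3⟩ := AR.exists (x := f) (v := v) (by rw [← S.sq_src hs]; exact h1.src)
  refine ⟨v3, h3, ?_⟩
  suffices h : ∃ v2', AR x v1 v2' ∧ AR y v3 v2' by
    obtain ⟨v2', h4, h5⟩ := h
    rw [h2.func h4]
    exact h5
  -- one of the edges decreases the distance, the other one increases it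
  have key : ∀ {e f x y : E} {v v1 v3 : V S b}, S.Sq e f x y → AR e v v1 →
      (∃ m hm hm', v1 = mk m hm ∧ v = mk (S.inv e :: m) hm') →
      (∃ l hl hl', v = mk l hl ∧ v3 = mk (f :: l) hl') →
      ∃ v2', AR x v1 v2' ∧ AR y v3 v2' := by
    rintro e f x y v v1 v3 hs - ⟨m, hm, hm', rfl, rfl⟩ ⟨l, hl, hl', h5, rfl⟩
    rw [mk_eq] at h5
    have t1 : T S (f :: l) (S.inv y :: x :: m) :=
      (T.cons f h5.symm).trans (T.sq (S.rot hs) (T.refl _) (T.refl _))
    have h6 : Ch S b (S.inv y :: x :: m) ∧ Rd S (S.inv y :: x :: m) :=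
      ⟨hl'.1.congr t1, hl'.2.congr t1⟩
    exact ⟨mk (x :: m) ⟨h6.1.2, h6.2.1⟩, Or.inr ⟨m, hm, _, rfl, rfl⟩,
      Or.inl ⟨x :: m, _, h6, rfl, mk_eq.2 t1⟩⟩
  have hs' := S.symm hs
  rcases h1 with g1 | g1
  · rcases h3 with g3 | g3
    · obtain ⟨m, hm, hm', rfl, rfl⟩ := g1
      obtain ⟨k, hk, hk', rfl, h5⟩ := g3
      rw [mk_eq] at h5
      generalize hie : S.inv e = e1 at h5
      generalize hif : S.inv f = f1 at h5
      cases h5 with
      | cons _ h =>
        have : e = f := S.inv_inj (hie.trans hif.symm)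
        subst this
        exact absurd hs S.ne
      | @sq p q _ _ _ _ j hpq t1 t2 =>
        subst hie
        subst hif
        have h7 := S.rot2 hpq
        rw [S.inv_inv, S.inv_inv] at h7
        obtain ⟨rfl, rfl⟩ := S.func hs h7
        have hj1 : Ch S b (p :: j) ∧ Rd S (p :: j) := ⟨hm.1.congr t1, hm.2.congr t1⟩
        have hj2 : Ch S b (q :: j) ∧ Rd S (q :: j) := ⟨hk.1.congr t2, hk.2.congr t2⟩
        refine ⟨mk j ⟨hj1.1.2, hj1.2.1⟩, Or.inl ⟨j, _, ?_, rfl, ?_⟩, Or.inl ⟨j, _, ?_, rfl, ?_⟩⟩
        · rw [S.inv_inv]; exact hj1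
        · rw [mk_eq, S.inv_inv]; exact t1
        · rw [S.inv_inv]; exact hj2
        · rw [mk_eq, S.inv_inv]; exact t2
    · exact key hs (Or.inl g1) g1 g3
  · rcases h3 with g3 | g3
    · obtain ⟨v2', h4, h5⟩ := key hs' (Or.inl g3) g3 g1
      exact ⟨v2', h5, h4⟩
    · obtain ⟨l, hl, hl', rfl, rfl⟩ := g1
      obtain ⟨k, hk, hk', h5, rfl⟩ := g3
      rw [mk_eq] at h5
      -- both edges increase the distance
      have hx : ∀ j, ¬ T S (e :: l) (S.inv x :: j) := by
        intro j hj
        generalize hix : S.inv x = x1 at hj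
        have hr := S.rot hs
        cases hj with
        | cons _ h =>
          rw [← hix, S.inv_inv] at hr
          exact S.ne hr
        | @sq p q _ _ _ _ j' hpq t1 t2 =>
          subst hix
          have h8 := S.rot2 hpq
          rw [S.inv_inv] at h8
          obtain ⟨rfl, -⟩ := S.func hr h8
          apply hk'.2.2 j'
          rw [S.inv_inv]
          exact h5.symm.trans t1
      have hxl : Ch S b (x :: e :: l) ∧ Rd S (x :: e :: l) :=
        ⟨⟨(S.sq_mid hs).symm, hl'.1⟩, hl'.2, hx⟩
      have t3 : T S (x :: e :: l) (y :: f :: k) :=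
        (T.sq hs (T.refl _) (T.refl _)).trans (T.cons y (T.cons f h5))
      have hyk : Ch S b (y :: f :: k) ∧ Rd S (y :: f :: k) := ⟨hxl.1.congr t3, hxl.2.congr t3⟩
      exact ⟨mk (x :: e :: l) hxl, Or.inr ⟨e :: l, hl', hxl, rfl, rfl⟩,
        Or.inr ⟨f :: k, hk', hyk, rfl, mk_eq.2 t3⟩⟩

theorem AR.len {x : E} {v v' : V S b} (h : AR x v v') :
    v'.len + 1 = v.len ∨ v.len + 1 = v'.len := by
  rcases h with ⟨m, hm, hm', rfl, rfl⟩ | ⟨l, hl, hl', rfl, rfl⟩
  · left; simp
  · right; simp

theorem AR.dec {x : E} {v v' : V S b} (h : AR x v v') (hd : v'.len < v.len) :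
    ∃ m hm hm', v' = mk m hm ∧ v = mk (S.inv x :: m) hm' := by
  rcases h with h | ⟨l, hl, hl', rfl, rfl⟩
  · exact h
  · simp at hd

/-- two different edges decreasing the distance span a square -/
theorem AR.both {e f : E} {v v1 v2 : V S b} (hne : e ≠ f) (h1 : AR e v v1) (h2 : AR f v v2)
    (hd1 : v1.len < v.len) (hd2 : v2.len < v.len) :
    ∃ x y v3, S.Sq e f x y ∧ AR x v1 v3 ∧ AR y v2 v3 ∧ v3.len < v1.len := by
  obtain ⟨m, hm, hm', rfl, rfl⟩ := h1.dec hd1
  obtain ⟨k, hk, hk', rfl, h5⟩ := h2.dec hd2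
  rw [mk_eq] at h5
  generalize hie : S.inv e = e1 at h5
  generalize hif : S.inv f = f1 at h5
  cases h5 with
  | cons _ h => exact absurd (S.inv_inj (hie.trans hif.symm)) hne
  | @sq p q _ _ _ _ j hpq t1 t2 =>
    subst hie
    subst hif
    have h7 := S.rot2 hpq
    rw [S.inv_inv, S.inv_inv] at h7
    have hj1 : Ch S b (p :: j) ∧ Rd S (p :: j) := ⟨hm.1.congr t1, hm.2.congr t1⟩
    have hj2 : Ch S b (q :: j) ∧ Rd S (q :: j) := ⟨hk.1.congr t2, hk.2.congr t2⟩
    refine ⟨S.inv p, S.inv q, mk j ⟨hj1.1.2, hj1.2.1⟩, h7, Or.inl ⟨j, _, ?_, rfl, ?_⟩,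
      Or.inl ⟨j, _, ?_, rfl, ?_⟩, ?_⟩
    · rw [S.inv_inv]; exact hj1
    · rw [mk_eq, S.inv_inv]; exact t1
    · rw [S.inv_inv]; exact hj2
    · rw [mk_eq, S.inv_inv]; exact t2
    · have := t1.length
      simp only [mk_len, List.length_cons] at this ⊢
      omega

open Classical in
/-- the end of the lift of `x` starting at `v` (and `v` if `x` does not start at the projection of
`v`) -/
noncomputable def act (x : E) (v : V S b) : V S b :=
  if h : ∃ v', AR x v v' then h.choose else v

theorem act_ar {x : E} {v : V S b} (h : S.src x = v.en) : AR x v (act x v) := by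
  have h' := AR.exists h
  unfold act
  rw [dif_pos h']
  exact h'.choose_spec

theorem AR.act {x : E} {v v' : V S b} (h : AR x v v') : act x v = v' :=
  (act_ar h.src).func h

theorem act_junk {x : E} {v : V S b} (h : S.src x ≠ v.en) : act x v = v := by
  unfold act
  rw [dif_neg]
  rintro ⟨v', h'⟩
  exact h h'.src

theorem act_en {x : E} {v : V S b} (h : S.src x = v.en) : (act x v).en = S.tgt x :=
  (act_ar h).tgt.symm

theorem act_inv {x : E} {v : V S b} (h : S.src x = v.en) : act (S.inv x) (act x v) = v :=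
  (act_ar h).inv.act

theorem act_sq {e f x y : E} (hs : S.Sq e f x y) {v : V S b} (h : S.src e = v.en) :
    act x (act e v) = act y (act f v) := by
  have h1 := act_ar h
  have h2 : AR x (act e v) (act x (act e v)) := act_ar (by rw [act_en h, S.sq_mid hs])
  obtain ⟨v3, h3, h4⟩ := h1.sq hs h2
  rw [h3.act, h4.act]

theorem act_len {x : E} {v : V S b} (h : S.src x = v.en) :
    (act x v).len + 1 = v.len ∨ v.len + 1 = (act x v).len := (act_ar h).len

theorem act_both {e f : E} {v : V S b} (hne : e ≠ f) (h1 : S.src e = v.en) (h2 : S.src f = v.en)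
    (hd1 : (act e v).len < v.len) (hd2 : (act f v).len < v.len) : ∃ x y, S.Sq e f x y := by
  obtain ⟨x, y, v3, h, -⟩ := (act_ar h1).both hne (act_ar h2) hd1 hd2
  exact ⟨x, y, h⟩

/-- parallel edges have the same status -/
theorem act_par {e f x y : E} (hs : S.Sq e f x y) {v : V S b} (h : S.src e = v.en)
    (hd : (act f v).len < v.len) : (act x (act e v)).len < (act e v).len := by
  have h1 := act_ar h
  have h2 : AR f v (act f v) := act_ar (by rw [← S.sq_src hs, h])
  have h3 : AR x (act e v) (act x (act e v)) := act_ar (by rw [act_en h, S.sq_mid hs])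
  have h4 : AR y (act f v) (act x (act e v)) := by
    rw [act_sq hs h]
    exact act_ar (by rw [act_en h2.src, S.sq_mid (S.symm hs)])
  rcases h1.len with h5 | h5
  · have hne : e ≠ f := by
      rintro rfl
      exact S.ne hs
    obtain ⟨x', y', v3, g1, g2, g3, g4⟩ := h1.both hne h2 (by omega) hd
    obtain ⟨rfl, rfl⟩ := S.func hs g1
    rw [h3.func g2]
    exact g4
  · rcases h2.len with h6 | h6
    · rcases h3.len with h7 | h7
      · omega
      · rcases h4.len with h8 | h8 <;> omega
    · omega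

theorem act_par_iff {e f x y : E} (hs : S.Sq e f x y) {v : V S b} (h : S.src e = v.en) :
    (act x (act e v)).len < (act e v).len ↔ (act f v).len < v.len := by
  refine ⟨fun hd => ?_, act_par hs h⟩
  have h1 := act_par (S.rot hs) (v := act e v) (by rw [S.src_inv, act_en h]) hd
  rw [act_inv h] at h1
  exact h1

theorem bs_en : (bs S b).en = b := rfl
theorem bs_len : (bs S b).len = 0 := rfl

theorem eq_bs {v : V S b} (h : v.len = 0) : v = bs S b := by
  obtain ⟨l, hl, rfl⟩ := v.ind
  have : l = [] := List.length_eq_zero_iff.1 h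
  subst this
  rfl

theorem exists_dec {v : V S b} (h : v ≠ bs S b) :
    ∃ x, S.src x = v.en ∧ (act x v).len < v.len := by
  obtain ⟨l, hl, rfl⟩ := v.ind
  cases l with
  | nil => exact absurd rfl h
  | cons x l =>
    refine ⟨S.inv x, S.src_inv x, ?_⟩
    have h1 : AR (S.inv x) (mk (x :: l) hl) (mk l ⟨hl.1.2, hl.2.1⟩) := by
      have h2 : AR x (mk l ⟨hl.1.2, hl.2.1⟩) (mk (x :: l) hl) := Or.inr ⟨l, _, _, rfl, rfl⟩
      exact h2.inv
    rw [h1.act]
    simp

/-- induction along paths -/
theorem V.induction {p : V S b → Prop} (h0 : p (bs S b))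
    (h1 : ∀ x v, S.src x = v.en → p v → p (act x v)) (v : V S b) : p v := by
  obtain ⟨l, hl, rfl⟩ := v.ind
  induction l with
  | nil => exact h0
  | cons x l ih =>
    have h2 : AR x (mk l ⟨hl.1.2, hl.2.1⟩) (mk (x :: l) hl) := Or.inr ⟨l, _, _, rfl, rfl⟩
    have h3 := h1 x _ h2.src (ih ⟨hl.1.2, hl.2.1⟩)
    rw [h2.act] at h3
    exact h3

section lift

variable {Y : Type} (eY : Y → W) (aY : E → Y → Y)
  (ha1 : ∀ x y, S.src x = eY y → eY (aY x y) = S.tgt x)
  (ha2 : ∀ x y, S.src x = eY y → aY (S.inv x) (aY x y) = y)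
  (ha3 : ∀ {e f x y}, S.Sq e f x y → ∀ z, S.src e = eY z → aY x (aY e z) = aY y (aY f z))
  {y0 : Y} (hy : eY y0 = b)

include ha1 hy in
theorem fold_en {l : List E} (h : Ch S b l) : eY (l.foldr aY y0) = en S b l := by
  induction l with
  | nil => exact hy
  | cons x l ih =>
    rw [List.foldr_cons]
    apply ha1
    rw [ih h.2]
    exact h.1

include ha1 ha3 hy in
theorem fold_congr {l m : List E} (h : T S l m) (hl : Ch S b l) :
    l.foldr aY y0 = m.foldr aY y0 := by
  induction h with
  | nil => rfl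
  | cons x h ih => rw [List.foldr_cons, List.foldr_cons, ih hl.2]
  | @sq e f x y l m n hs h1 h2 i1 i2 =>
    have hm : Ch S b (y :: m) := hl.congr (T.sq hs h1 h2)
    have hn := hl.2.congr h1
    rw [List.foldr_cons, List.foldr_cons, i1 hl.2, i2 hm.2, List.foldr_cons, List.foldr_cons]
    apply ha3 hs
    rw [fold_en eY aY ha1 hy hn.2]
    exact hn.1

include ha1 ha2 ha3 hy in
/-- the universal property of the universal covering -/
theorem exists_lift : ∃ f : V S b → Y, f (bs S b) = y0 ∧ (∀ v, eY (f v) = v.en) ∧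
    ∀ x v, S.src x = v.en → f (act x v) = aY x (f v) := by
  let f : V S b → Y := Quotient.lift (fun l => l.1.foldr aY y0)
    (fun l m h => fold_congr eY aY ha1 ha3 hy h l.2.1)
  have hf : ∀ l hl, f (mk l hl) = l.foldr aY y0 := fun l hl => rfl
  have he : ∀ v, eY (f v) = v.en := by
    intro v
    obtain ⟨l, hl, rfl⟩ := v.ind
    rw [hf, fold_en eY aY ha1 hy hl.1, mk_en]
  refine ⟨f, rfl, he, ?_⟩
  intro x v h
  rcases act_ar h with ⟨m, hm, hm', h1, h2⟩ | ⟨l, hl, hl', h1, h2⟩
  · have h3 : f v = aY (S.inv x) (f (act x v)) := by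
      rw [h1]
      conv_lhs => rw [h2]
      rw [hf, hf, List.foldr_cons]
    rw [h3]
    have h4 := ha2 (S.inv x) (f (act x v)) (by rw [he, act_en h, S.src_inv])
    rw [S.inv_inv] at h4
    exact h4.symm
  · rw [h2, h1, hf, hf, List.foldr_cons]

end lift

variable (S b) in
/-- the group of deck transformations -/
noncomputable def Deck : Subgroup (Equiv.Perm (V S b)) where
  carrier := {σ | (∀ v, (σ v).en = v.en) ∧ ∀ x v, σ (act x v) = act x (σ v)}
  mul_mem' := by
    rintro σ τ ⟨h1, h2⟩ ⟨h3, h4⟩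
    refine ⟨fun v => ?_, fun x v => ?_⟩
    · rw [Equiv.Perm.mul_apply, h1, h3]
    · rw [Equiv.Perm.mul_apply, h4, h2, Equiv.Perm.mul_apply]
  one_mem' := ⟨fun v => rfl, fun x v => rfl⟩
  inv_mem' := by
    rintro σ ⟨h1, h2⟩
    have h3 : ∀ v, σ (σ⁻¹ v) = v := fun v => σ.apply_symm_apply v
    refine ⟨fun v => ?_, fun x v => ?_⟩
    · rw [← h1, h3]
    · apply σ.injective
      rw [h2, h3, h3]

theorem act_injective {x : E} {v v' : V S b} (h : S.src x = v.en) (h' : S.src x = v'.en)
    (h2 : act x v = act x v') : v = v' := by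
  rw [← act_inv h, h2, act_inv h']

theorem deck_fix_iff {σ : Equiv.Perm (V S b)} (hσ : σ ∈ Deck S b) (v : V S b) :
    σ v = v ↔ σ (bs S b) = bs S b := by
  induction v using V.induction with
  | h0 => exact Iff.rfl
  | h1 x v hx ih =>
    rw [← ih, hσ.2]
    refine ⟨fun h => act_injective (by rw [hσ.1, hx]) hx h, fun h => by rw [h]⟩

theorem deck_free {σ : Equiv.Perm (V S b)} (hσ : σ ∈ Deck S b) {v : V S b} (h : σ v = v) :
    σ = 1 := by
  ext w
  exact (deck_fix_iff hσ w).2 ((deck_fix_iff hσ v).1 h)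

theorem deck_bs (u : V S b) (hu : u.en = b) : ∃ σ ∈ Deck S b, σ (bs S b) = u := by
  -- equivariant maps
  have hex : ∀ u : V S b, u.en = b → ∃ f : V S b → V S b, f (bs S b) = u ∧
      (∀ v, (f v).en = v.en) ∧ ∀ x v, f (act x v) = act x (f v) := by
    intro u hu
    obtain ⟨f, h1, h2, h3⟩ := exists_lift (S := S) (b := b) (fun v : V S b => v.en) act
      (fun x y h => act_en h) (fun x y h => act_inv h) (fun hs z h => act_sq hs h) hu
    refine ⟨f, h1, h2, fun x v => ?_⟩
    by_cases h : S.src x = v.en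
    · exact h3 x v h
    · rw [act_junk h, act_junk]
      rw [h2]
      exact h
  have hsur : ∀ f : V S b → V S b, (∀ v, (f v).en = v.en) → (∀ x v, f (act x v) = act x (f v)) →
      Function.Surjective f := by
    intro f h2 h3
    have key : ∀ v, (∃ w, f w = v) ↔ ∃ w, f w = bs S b := by
      intro v
      induction v using V.induction with
      | h0 => exact Iff.rfl
      | h1 x v hx ih =>
        rw [← ih]
        constructor
        · rintro ⟨w, hw⟩
          refine ⟨act (S.inv x) w, ?_⟩
          rw [h3, hw, act_inv hx]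
        · rintro ⟨w, hw⟩
          exact ⟨act x w, by rw [h3, hw]⟩
    intro v
    rw [key]
    exact (key (f (bs S b))).1 ⟨_, rfl⟩
  obtain ⟨f, h1, h2, h3⟩ := hex u hu
  obtain ⟨u', hu'⟩ := hsur f h2 h3 (bs S b)
  have hu'b : u'.en = b := by rw [← h2, hu']; rfl
  obtain ⟨g, g1, g2, g3⟩ := hex u' hu'b
  have hfg : ∀ v, f (g v) = v := by
    intro v
    induction v using V.induction with
    | h0 => rw [g1, hu']
    | h1 x v hx ih => rw [g3, h3, ih]
  have hgf : ∀ v, g (f v) = v := by
    intro v
    obtain ⟨w, rfl⟩ := hsur g g2 g3 v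
    rw [hfg]
  exact ⟨⟨f, g, hgf, hfg⟩, ⟨h2, h3⟩, h1⟩

theorem deck_trans {v v' : V S b} (h : v.en = v'.en) : ∃ σ ∈ Deck S b, σ v = v' := by
  induction v using V.induction generalizing v' with
  | h0 => exact deck_bs v' h.symm
  | h1 x v hx ih =>
    have h1 : S.tgt x = v'.en := by rw [← h, act_en hx]
    have h2 : S.src (S.inv x) = v'.en := by rw [S.src_inv, h1]
    obtain ⟨σ, hσ, h3⟩ := @ih (act (S.inv x) v') (by rw [act_en h2, S.tgt_inv, hx])
    refine ⟨σ, hσ, ?_⟩
    rw [hσ.2, h3]
    have := act_inv h2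
    rw [S.inv_inv] at this
    exact this

end Pool.Agent.P8H61
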