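import Pool.Agent.P8H61.Mor

set_option autoImplicit false

/-!
# Squier complexes of rewriting rules, restricted to good words
-/

namespace Pool.Agent.P8H61

/-- rules `top g → bot g` -/
structure Sys (L Γ : Type) where
  top : Γ → List L
  bot : Γ → List L
  top_ne : ∀ g, 0 < (top g).length
  bot_ne : ∀ g, 0 < (bot g).length

variable {L Γ : Type} (Y : Sys L Γ)

/-- oriented edges of the Squier complex; `s = true` means that `top` is replaced with `bot` -/
@[ext] structure RE (L Γ : Type) where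
  a : List L
  g : Γ
  s : Bool
  c : List L

/-- the word which is replaced -/
def fro (g : Γ) : Bool → List L
  | true => Y.top g
  | false => Y.bot g

/-- the word replacing it -/
def too (g : Γ) : Bool → List L
  | true => Y.bot g
  | false => Y.top g

theorem fro_pos (g : Γ) (s : Bool) : 0 < (fro Y g s).length := by
  cases s
  · exact Y.bot_ne g
  · exact Y.top_ne g

theorem too_pos (g : Γ) (s : Bool) : 0 < (too Y g s).length := by
  cases s
  · exact Y.top_ne g
  · exact Y.bot_ne g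

@[simp] theorem fro_not (g : Γ) (s : Bool) : fro Y g (!s) = too Y g s := by cases s <;> rfl
@[simp] theorem too_not (g : Γ) (s : Bool) : too Y g (!s) = fro Y g s := by cases s <;> rfl

namespace RE

/-- source -/
def src (e : RE L Γ) : List L := e.a ++ (fro Y e.g e.s ++ e.c)
/-- target -/
def tgt (e : RE L Γ) : List L := e.a ++ (too Y e.g e.s ++ e.c)
/-- the inverse edge -/
def inv (e : RE L Γ) : RE L Γ := ⟨e.a, e.g, !e.s, e.c⟩

@[simp] theorem inv_inv (e : RE L Γ) : e.inv.inv = e := by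
  simp [inv]

theorem src_inv (e : RE L Γ) : e.inv.src Y = e.tgt Y := by
  simp [inv, src, tgt]

theorem tgt_inv (e : RE L Γ) : e.inv.tgt Y = e.src Y := by
  simp [inv, src, tgt]

end RE

/-- squares with `e` on the left of `f` -/
def SqL (m : List L) (e f x y : RE L Γ) : Prop :=
  f.a = e.a ++ (fro Y e.g e.s ++ m) ∧ e.c = m ++ (fro Y f.g f.s ++ f.c) ∧
    x = ⟨e.a ++ (too Y e.g e.s ++ m), f.g, f.s, f.c⟩ ∧
    y = ⟨e.a, e.g, e.s, m ++ (too Y f.g f.s ++ f.c)⟩

/-- squares -/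
def SqR (e f x y : RE L Γ) : Prop := (∃ m, SqL Y m e f x y) ∨ ∃ m, SqL Y m f e y x

variable {Y}

theorem SqL.src {m : List L} {e f x y : RE L Γ} (h : SqL Y m e f x y) : e.src Y = f.src Y := by
  obtain ⟨h1, h2, -, -⟩ := h
  simp [RE.src, h1, h2]

theorem SqL.mid {m : List L} {e f x y : RE L Γ} (h : SqL Y m e f x y) : e.tgt Y = x.src Y := by
  obtain ⟨h1, h2, h3, -⟩ := h
  simp [RE.src, RE.tgt, h2, h3]

theorem SqL.mid' {m : List L} {e f x y : RE L Γ} (h : SqL Y m e f x y) : f.tgt Y = y.src Y := by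
  obtain ⟨h1, h2, -, h3⟩ := h
  simp [RE.src, RE.tgt, h1, h3]

theorem SqL.tgt {m : List L} {e f x y : RE L Γ} (h : SqL Y m e f x y) : x.tgt Y = y.tgt Y := by
  obtain ⟨h1, h2, h3, h4⟩ := h
  simp [RE.tgt, h3, h4]

theorem SqL.rot {m : List L} {e f x y : RE L Γ} (h : SqL Y m e f x y) :
    SqL Y m e.inv x f y.inv := by
  obtain ⟨h1, h2, h3, h4⟩ := h
  refine ⟨?_, ?_, ?_, ?_⟩
  · simp [RE.inv, h3]
  · simp [RE.inv, h3, h2]
  · rw [h3]
    simp only [RE.inv, too_not]
    rw [← h1]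
  · simp [RE.inv, h3, h4]

theorem SqL.rot' {m : List L} {e f x y : RE L Γ} (h : SqL Y m f e y x) :
    SqL Y m x e.inv y.inv f := by
  obtain ⟨h1, h2, h3, h4⟩ := h
  refine ⟨?_, ?_, ?_, ?_⟩
  · simp [RE.inv, h4, h1]
  · simp [RE.inv, h4]
  · simp [RE.inv, h4, h3]
  · rw [h4]
    simp only [RE.inv, too_not]
    rw [← h2]

theorem SqL.len {m : List L} {e f x y : RE L Γ} (h : SqL Y m e f x y) :
    f.a.length = e.a.length + ((fro Y e.g e.s).length + m.length) ∧
    x.a.length = e.a.length + ((too Y e.g e.s).length + m.length) ∧ y.a = e.a := by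
  obtain ⟨h1, h2, h3, h4⟩ := h
  refine ⟨by rw [h1]; simp, by rw [h3]; simp, by rw [h4]⟩

theorem SqL.func {m m' : List L} {e f x y x' y' : RE L Γ} (h : SqL Y m e f x y)
    (h' : SqL Y m' e f x' y') : m = m' ∧ x = x' ∧ y = y' := by
  obtain ⟨h1, h2, h3, h4⟩ := h
  obtain ⟨g1, g2, g3, g4⟩ := h'
  have : m = m' := by
    rw [h1] at g1
    exact List.append_cancel_left (List.append_cancel_left g1)
  subst this
  exact ⟨rfl, by rw [h3, g3], by rw [h4, g4]⟩

theorem SqR.func {e f x y x' y' : RE L Γ} (h : SqR Y e f x y)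
    (h' : SqR Y e f x' y') : x = x' ∧ y = y' := by
  rcases h with ⟨m, h⟩ | ⟨m, h⟩
  · rcases h' with ⟨m', h'⟩ | ⟨m', h'⟩
    · exact (h.func h').2
    · have h1 := h.len
      have h2 := h'.len
      have h3 := fro_pos Y e.g e.s
      omega
  · rcases h' with ⟨m', h'⟩ | ⟨m', h'⟩
    · have h1 := h.len
      have h2 := h'.len
      have h3 := fro_pos Y e.g e.s
      omega
    · exact (h.func h').2.symm

/-- the three missing edges of a cube -/
theorem cubeL {m n k : List L} {e f g fe ef ge eg gf fg : RE L Γ} (h1 : SqL Y m e f fe ef)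
    (h2 : SqL Y k e g ge eg) (h3 : SqL Y n f g gf fg) :
    k = m ++ (fro Y f.g f.s ++ n) ∧
    ∃ x y z, SqL Y n fe ge z y ∧ SqL Y (m ++ (too Y f.g f.s ++ n)) ef gf z x ∧
      SqL Y m eg fg y x := by
  obtain ⟨a1, a2, a3, a4⟩ := h1
  obtain ⟨b1, b2, b3, b4⟩ := h2
  obtain ⟨c1, c2, c3, c4⟩ := h3
  have hk : k = m ++ (fro Y f.g f.s ++ n) := by
    rw [b1, a1] at c1
    simp only [List.append_assoc] at c1
    exact List.append_cancel_left (List.append_cancel_left c1)
  subst hk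
  refine ⟨rfl, ⟨e.a, e.g, e.s, m ++ (too Y f.g f.s ++ (n ++ (too Y g.g g.s ++ g.c)))⟩,
    ⟨e.a ++ (too Y e.g e.s ++ m), f.g, f.s, n ++ (too Y g.g g.s ++ g.c)⟩,
    ⟨e.a ++ (too Y e.g e.s ++ (m ++ (too Y f.g f.s ++ n))), g.g, g.s, g.c⟩, ?_, ?_, ?_⟩
  · subst a3 b3
    exact ⟨by simp, c2, by simp, rfl⟩
  · subst a4 c3
    refine ⟨?_, ?_, by simp, ?_⟩
    · simp [a1]
    · simp [c2]
    · simp
  · subst b4 c4
    refine ⟨a1, by simp, rfl, ?_⟩
    simp

/-- conditions on the set of good words -/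
structure GoodOK (Y : Sys L Γ) (Good : List L → Prop) : Prop where
  dn : ∀ a g c, Good (a ++ (Y.top g ++ c)) → Good (a ++ (Y.bot g ++ c))
  loc : ∀ a g m h n k c,
    Good (a ++ (Y.bot g ++ (m ++ (Y.top h ++ (n ++ (Y.top k ++ c)))))) →
    Good (a ++ (Y.top g ++ (m ++ (Y.bot h ++ (n ++ (Y.top k ++ c)))))) →
    Good (a ++ (Y.top g ++ (m ++ (Y.top h ++ (n ++ (Y.bot k ++ c)))))) →
    Good (a ++ (Y.top g ++ (m ++ (Y.top h ++ (n ++ (Y.top k ++ c))))))

variable (Y) in
/-- edges between good words -/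
abbrev GE (Good : List L → Prop) : Type := {e : RE L Γ // Good (e.src Y) ∧ Good (e.tgt Y)}

variable {Good : List L → Prop}

/-- squares of good edges, `e` on the left of `f` -/
def SqG (e f x y : GE Y Good) : Prop := ∃ m, SqL Y m e.1 f.1 x.1 y.1

theorem SqG.cube (hG : GoodOK Y Good) {e f g fe ef ge eg gf fg : GE Y Good} (h1 : SqG e f fe ef)
    (h2 : SqG e g ge eg) (h3 : SqG f g gf fg) :
    ∃ x y z : GE Y Good, SqG fe ge z y ∧ SqG ef gf z x ∧ SqG eg fg y x := by
  obtain ⟨m, h1⟩ := h1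
  obtain ⟨k, h2⟩ := h2
  obtain ⟨n, h3⟩ := h3
  obtain ⟨hk, x, y, z, c1, c2, c3⟩ := cubeL h1 h2 h3
  have hx : Good (x.src Y) := by rw [← c3.mid']; exact fg.2.2
  have hy : Good (y.src Y) := by rw [← c3.mid]; exact eg.2.2
  have hz : Good (z.src Y) := by rw [← c1.mid]; exact fe.2.2
  have exy : x.tgt Y = y.tgt Y := c3.tgt.symm
  have exz : x.tgt Y = z.tgt Y := c2.tgt.symm
  have ht : Good (x.tgt Y) := by
    obtain ⟨a1, a2, a3, a4⟩ := c3
    obtain ⟨b1, b2, b3, b4⟩ := c2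
    have gx : x = ⟨e.1.a, e.1.g, e.1.s, m ++ (too Y f.1.g f.1.s ++ (n ++
        (too Y g.1.g g.1.s ++ g.1.c)))⟩ := by
      rw [a4, h2.2.2.2, h3.2.2.2]
    by_cases hes : e.1.s = true
    · rw [gx] at hx ⊢
      simp only [RE.src, RE.tgt, hes, fro, too] at hx ⊢
      exact hG.dn _ _ _ hx
    · by_cases hfs : f.1.s = true
      · rw [exy]
        have gy : y = ⟨e.1.a ++ (too Y e.1.g e.1.s ++ m), f.1.g, f.1.s, n ++
            (too Y g.1.g g.1.s ++ g.1.c)⟩ := by
          rw [a3, h2.2.2.2, h3.2.2.2]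
        rw [gy] at hy ⊢
        simp only [RE.src, RE.tgt, hfs, fro, too] at hy ⊢
        exact hG.dn _ _ _ hy
      · have gz : z = ⟨e.1.a ++ (too Y e.1.g e.1.s ++ (m ++ (too Y f.1.g f.1.s ++ n))),
            g.1.g, g.1.s, g.1.c⟩ := by
          rw [b3, h3.2.2.1, h1.2.2.2]
        by_cases hgs : g.1.s = true
        · rw [exz]
          rw [gz] at hz ⊢
          simp only [RE.src, RE.tgt, hgs, fro, too] at hz ⊢
          exact hG.dn _ _ _ hz
        · have gy : y = ⟨e.1.a ++ (too Y e.1.g e.1.s ++ m), f.1.g, f.1.s, n ++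
              (too Y g.1.g g.1.s ++ g.1.c)⟩ := by
            rw [a3, h2.2.2.2, h3.2.2.2]
          have hes' : e.1.s = false := by simpa using hes
          have hfs' : f.1.s = false := by simpa using hfs
          have hgs' : g.1.s = false := by simpa using hgs
          rw [gx] at hx ⊢
          rw [gy] at hy
          rw [gz] at hz
          simp only [RE.src, RE.tgt, hes', hfs', hgs', fro, too, List.append_assoc] at hx hy hz ⊢
          exact hG.loc _ _ _ _ _ _ _ hx hy hz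
  exact ⟨⟨x, hx, ht⟩, ⟨y, hy, exy ▸ ht⟩, ⟨z, hz, exz ▸ ht⟩, ⟨_, c1⟩, ⟨_, c2⟩, ⟨_, c3⟩⟩

theorem SqG.lt {e f x y : GE Y Good} (h : SqG e f x y) : e.1.a.length < f.1.a.length := by
  obtain ⟨m, h⟩ := h
  have h1 := h.len
  have h2 := fro_pos Y e.1.g e.1.s
  omega

variable (Y Good) in
/-- the residual system of a set of rules on good words -/
def StrS (hG : GoodOK Y Good) : RS (List L) (GE Y Good) where
  src e := e.1.src Y
  tgt e := e.1.tgt Y
  inv e := ⟨e.1.inv, by rw [RE.src_inv, RE.tgt_inv]; exact ⟨e.2.2, e.2.1⟩⟩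
  Sq e f x y := SqG e f x y ∨ SqG f e y x
  inv_inv e := Subtype.ext (RE.inv_inv _)
  src_inv e := RE.src_inv Y _
  sq_src := by
    rintro e f x y (⟨m, h⟩ | ⟨m, h⟩)
    · exact h.src
    · exact h.src.symm
  sq_mid := by
    rintro e f x y (⟨m, h⟩ | ⟨m, h⟩)
    · exact h.mid
    · exact h.mid'
  sq_tgt := by
    rintro e f x y (⟨m, h⟩ | ⟨m, h⟩)
    · exact h.tgt
    · exact h.tgt.symm
  symm h := h.symm
  func := by
    intro e f x y x' y' h h'
    obtain ⟨h1, h2⟩ := SqR.func (Y := Y) (e := e.1) (f := f.1) (x := x.1) (y := y.1)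
      (x' := x'.1) (y' := y'.1) h h'
    exact ⟨Subtype.ext h1, Subtype.ext h2⟩
  rot := by
    rintro e f x y (⟨m, h⟩ | ⟨m, h⟩)
    · exact Or.inl ⟨m, h.rot⟩
    · exact Or.inr ⟨m, h.rot'⟩
  ne := by
    rintro e x y (h | h)
    · exact absurd h.lt (lt_irrefl _)
    · exact absurd h.lt (lt_irrefl _)
  cube := by
    rintro e f g fe ef ge eg gf fg (h1 | h1) (h2 | h2) (h3 | h3)
    · -- e < f < g
      obtain ⟨x, y, z, c1, c2, c3⟩ := SqG.cube hG h1 h2 h3
      exact ⟨x, y, z, Or.inl c1, Or.inl c2, Or.inl c3⟩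
    · -- e < g < f
      obtain ⟨x, y, z, c1, c2, c3⟩ := SqG.cube hG h2 h1 h3
      exact ⟨x, z, y, Or.inr c1, Or.inl c3, Or.inl c2⟩
    · have l1 := h1.lt
      have l2 := h2.lt
      have l3 := h3.lt
      omega
    · -- g < e < f
      obtain ⟨x, y, z, c1, c2, c3⟩ := SqG.cube hG h2 h3 h1
      exact ⟨y, z, x, Or.inr c2, Or.inr c3, Or.inl c1⟩
    · -- f < e < g
      obtain ⟨x, y, z, c1, c2, c3⟩ := SqG.cube hG h1 h3 h2
      exact ⟨y, x, z, Or.inl c2, Or.inl c1, Or.inr c3⟩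
    · have l1 := h1.lt
      have l2 := h2.lt
      have l3 := h3.lt
      omega
    · -- f < g < e
      obtain ⟨x, y, z, c1, c2, c3⟩ := SqG.cube hG h3 h1 h2
      exact ⟨z, x, y, Or.inl c3, Or.inr c1, Or.inr c2⟩
    · -- g < f < e
      obtain ⟨x, y, z, c1, c2, c3⟩ := SqG.cube hG h3 h2 h1
      exact ⟨z, y, x, Or.inr c3, Or.inr c2, Or.inr c1⟩

/-- position of an edge -/
def gpos (e : GE Y Good) : ℕ := e.1.a.length

theorem gpos_ok (hG : GoodOK Y Good) : PosOK (StrS Y Good hG) gpos where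
  ne := by
    rintro e f x y (h | h)
    · exact h.lt.ne
    · exact h.lt.ne'
  par := by
    rintro e f g x x' y y' z w h1 h2 -
    have p1 := fro_pos Y e.1.g e.1.s
    have p2 := too_pos Y e.1.g e.1.s
    have p3 := fro_pos Y f.1.g f.1.s
    have p4 := fro_pos Y g.1.g g.1.s
    unfold gpos
    rcases h1 with ⟨m, h1⟩ | ⟨m, h1⟩
    · have l1 := h1.len
      rcases h2 with ⟨m', h2⟩ | ⟨m', h2⟩
      · have l2 := h2.len
        omega
      · have l2 := h2.len
        rw [l2.2.2]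
        omega
    · have l1 := h1.len
      rcases h2 with ⟨m', h2⟩ | ⟨m', h2⟩
      · have l2 := h2.len
        rw [l1.2.2]
        omega
      · have l2 := h2.len
        rw [l1.2.2, l2.2.2]
  inv := by
    rintro e f x y h
    have p1 := fro_pos Y e.1.g e.1.s
    have p2 := too_pos Y e.1.g e.1.s
    have p3 := fro_pos Y f.1.g f.1.s
    change e.1.a.length < f.1.a.length ↔ e.1.a.length < x.1.a.length
    rcases h with ⟨m, h1⟩ | ⟨m, h1⟩
    · have l1 := h1.len
      omega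
    · have l1 := h1.len
      rw [l1.2.2]

end Pool.Agent.P8H61
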