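import Pool.Agent.P8H61.Lts
import Pool.Agent.H540R3.DG10

set_option autoImplicit false
set_option linter.unusedSectionVars false

/-!
# The values of the edges in the universal group of the presentation
-/

namespace Pool.Agent.P8H61

open H540DG

variable {A : Type} (P : Pres A)

/-- words modulo the presentation -/
def reachS : Setoid (List A) where
  r u v := ∃ g : U P, Pi u g v
  iseqv := ⟨fun u => ⟨1, Pi.refl u⟩, fun ⟨_, h⟩ => ⟨_, h.symm⟩, fun ⟨_, h⟩ ⟨_, h'⟩ => ⟨_, h.trans h'⟩⟩

/-- the monoid given by the presentation -/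
def Mo : Type := Quotient (reachS P)

/-- the class of a word -/
def clm (u : List A) : Mo P := Quotient.mk (reachS P) u

variable {P}

theorem clm_eq {u v : List A} : clm P u = clm P v ↔ ∃ g : U P, Pi u g v :=
  ⟨fun h => Quotient.exact h, fun h => Quotient.sound h⟩

theorem Pi.app {u v u' v' : List A} {g h : U P} (h1 : Pi u g u') (h2 : Pi v h v') :
    Pi (u ++ v) (wh [] v g * wh u' [] h) (u' ++ v') := by
  have h3 := h1.wh [] v
  have h4 := h2.wh u' []
  simp only [List.nil_append, List.append_nil] at h3 h4
  exact h3.trans h4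

instance : Monoid (Mo P) where
  mul := Quotient.map₂ (fun u v => u ++ v) (by
    rintro u u' ⟨g, h⟩ v v' ⟨g', h'⟩
    exact ⟨_, Pi.app h h'⟩)
  one := clm P []
  mul_assoc := by
    intro x y z
    induction x using Quotient.ind
    induction y using Quotient.ind
    induction z using Quotient.ind
    exact congrArg (clm P) (List.append_assoc _ _ _)
  one_mul := by
    intro x
    induction x using Quotient.ind
    rfl
  mul_one := by
    intro x
    induction x using Quotient.ind
    exact congrArg (clm P) (List.append_nil _)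

theorem clm_append (u v : List A) : clm P (u ++ v) = clm P u * clm P v := rfl
theorem clm_nil : clm P [] = 1 := rfl

/-- a word representing an element of the monoid -/
noncomputable def rep (m : Mo P) : List A := Quotient.out (s := reachS P) m

theorem clm_rep (m : Mo P) : clm P (rep m) = m := Quotient.out_eq (s := reachS P) m

variable (P) in
/-- value of a generator -/
def cA (a : A) : Mo P := clm P [a]

variable (P) in
/-- value of a relation -/
def cR (r : P.rels) : Mo P := clm P r.1.1

theorem cR_eq (r : P.rels) : cR P r = clm P r.1.2 := by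
  refine clm_eq.2 ⟨gen ⟨[], r, []⟩, ?_⟩
  have := Pi.gen (⟨[], r, []⟩ : Edge P)
  simpa [Edge.src, Edge.tgt] using this

/-- letters -/
abbrev LP (P : Pres A) : Type := Lt (Mo P) A P.rels
/-- rules -/
abbrev RP (P : Pres A) : Type := Ru (Mo P) A P.rels
/-- the system of rules -/
abbrev KP (P : Pres A) : Sys (LP P) (RP P) := KS (cA P) (cR P)

/-- standard word of a letter -/
noncomputable def std : LP P → List A
  | .pl m => rep m
  | .sg a => [a]
  | .rl r => rep (cR P r)

/-- standard word of a word -/
noncomputable def stw (l : List (LP P)) : List A := (l.map std).flatten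

@[simp] theorem stw_nil : stw ([] : List (LP P)) = [] := rfl
@[simp] theorem stw_cons (x : LP P) (l : List (LP P)) : stw (x :: l) = std x ++ stw l := by
  simp [stw]
@[simp] theorem stw_append (l m : List (LP P)) : stw (l ++ m) = stw l ++ stw m := by
  simp [stw]

/-- the values of the rules -/
structure RuVal (C : RP P → U P) : Prop where
  pi : ∀ g, Pi (stw ((KP P).top g)) (C g) (stw ((KP P).bot g))

theorem exists_mg (m m' : Mo P) : ∃ g : U P, Pi (rep m ++ rep m') g (rep (m * m')) := by
  rw [← clm_eq, clm_append, clm_rep, clm_rep, clm_rep]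

theorem exists_sg (a : A) : ∃ g : U P, Pi [a] g (rep (cA P a)) := by
  rw [← clm_eq, clm_rep]
  rfl

/-- provisional values of the rules -/
noncomputable def C0 : RP P → U P
  | .mg m m' => (exists_mg m m').choose
  | .sg a => (exists_sg a).choose
  | .rl _ _ => 1

theorem C0_val : RuVal (C0 (P := P)) where
  pi := by
    rintro (⟨m, m'⟩ | a | ⟨r, s⟩)
    · have := (exists_mg m m').choose_spec
      simpa [KS, std, C0] using this
    · have := (exists_sg (P := P) a).choose_spec
      simpa [KS, std, C0] using this
    · have := Pi.refl (P := P) (rep (cR P r))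
      simpa [KS, std, C0] using this

/-- value of an oriented rule -/
def sv (g : U P) : Bool → U P
  | true => g
  | false => g⁻¹

/-- value of an edge -/
noncomputable def RV (C : RP P → U P) (e : RE (LP P) (RP P)) : U P :=
  wh (stw e.a) (stw e.c) (sv (C e.g) e.s)

theorem RuVal.sv {C : RP P → U P} (hC : RuVal C) (g : RP P) (s : Bool) :
    Pi (stw (fro (KP P) g s)) (sv (C g) s) (stw (too (KP P) g s)) := by
  cases s
  · exact (hC.pi g).symm
  · exact hC.pi g

theorem RuVal.edge {C : RP P → U P} (hC : RuVal C) (e : RE (LP P) (RP P)) :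
    Pi (stw (e.src (KP P))) (RV C e) (stw (e.tgt (KP P))) := by
  have h := (hC.sv e.g e.s).wh (stw e.a) (stw e.c)
  simpa [RE.src, RE.tgt, RV] using h

theorem RV_inv (C : RP P → U P) (e : RE (LP P) (RP P)) : RV C e.inv = (RV C e)⁻¹ := by
  rcases e with ⟨a, g, s, c⟩
  cases s <;> simp [RV, RE.inv, sv]

theorem RuVal.sq {C : RP P → U P} (hC : RuVal C) {m : List (LP P)} {e f x y : RE (LP P) (RP P)}
    (h : SqL (KP P) m e f x y) : RV C e * RV C x = RV C f * RV C y := by
  obtain ⟨h1, h2, h3, h4⟩ := h
  have h5 : Pi (stw m ++ stw (fro (KP P) f.g f.s)) (wh (stw m) [] (Pool.Agent.P8H61.sv (C f.g) f.s))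
      (stw m ++ stw (too (KP P) f.g f.s)) := by
    simpa using (hC.sv f.g f.s).wh (stw m) []
  have h6 := congrArg (wh (stw e.a) (stw f.c)) (interchange (hC.sv e.g e.s) h5)
  simp only [map_mul, wh_wh, List.append_nil, List.nil_append, List.append_assoc] at h6
  have hc : stw e.c = stw m ++ (stw (fro (KP P) f.g f.s) ++ stw f.c) := by rw [h2]; simp
  have ha : stw f.a = stw e.a ++ (stw (fro (KP P) e.g e.s) ++ stw m) := by rw [h1]; simp
  unfold RV
  rw [h3, h4]
  simp only [hc, ha, stw_append]
  exact h6

/-- value of a path -/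
noncomputable def PV (C : RP P → U P) (l : List (RE (LP P) (RP P))) : U P := (l.map (RV C)).prod

@[simp] theorem PV_nil (C : RP P → U P) : PV C [] = 1 := rfl
@[simp] theorem PV_cons (C : RP P → U P) (e : RE (LP P) (RP P)) (l : List (RE (LP P) (RP P))) :
    PV C (e :: l) = RV C e * PV C l := by simp [PV]
@[simp] theorem PV_append (C : RP P → U P) (l m : List (RE (LP P) (RP P))) :
    PV C (l ++ m) = PV C l * PV C m := by simp [PV]

section raw

variable {L Γ : Type} (Y : Sys L Γ)

/-- paths of edges -/
def RPath : List L → List (RE L Γ) → List L → Prop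
  | w, [], w' => w = w'
  | w, e :: l, w' => w = e.src Y ∧ RPath (e.tgt Y) l w'

variable {Y}

theorem RPath.append {l l' : List (RE L Γ)} : ∀ {w w' w'' : List L}, RPath Y w l w' →
    RPath Y w' l' w'' → RPath Y w (l ++ l') w'' := by
  induction l with
  | nil => intro w w' w'' h1 h2; cases h1; exact h2
  | cons e l ih => intro w w' w'' h1 h2; exact ⟨h1.1, ih h1.2 h2⟩

/-- reversed path -/
def rvp (l : List (RE L Γ)) : List (RE L Γ) := (l.map RE.inv).reverse

theorem rvp_append (l m : List (RE L Γ)) : rvp (l ++ m) = rvp m ++ rvp l := by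
  simp [rvp]

theorem rvp_cons (e : RE L Γ) (l : List (RE L Γ)) : rvp (e :: l) = rvp l ++ [e.inv] := by
  simp [rvp]

theorem rvp_rvp (l : List (RE L Γ)) : rvp (rvp l) = l := by
  induction l with
  | nil => rfl
  | cons e l ih => rw [rvp_cons, rvp_append, ih]; simp [rvp]

theorem RPath.rvp {l : List (RE L Γ)} : ∀ {w w' : List L}, RPath Y w l w' →
    RPath Y w' (rvp l) w := by
  induction l with
  | nil => intro w w' h; exact Eq.symm h
  | cons e l ih =>
    intro w w' h
    obtain ⟨rfl, h2⟩ := h
    rw [rvp_cons]
    exact (ih h2).append ⟨(RE.src_inv Y e).symm, RE.tgt_inv Y e⟩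

/-- whiskering -/
def whk (p q : List L) (e : RE L Γ) : RE L Γ := ⟨p ++ e.a, e.g, e.s, e.c ++ q⟩

theorem whk_src (p q : List L) (e : RE L Γ) : (whk p q e).src Y = p ++ (e.src Y ++ q) := by
  simp [whk, RE.src]

theorem whk_tgt (p q : List L) (e : RE L Γ) : (whk p q e).tgt Y = p ++ (e.tgt Y ++ q) := by
  simp [whk, RE.tgt]

theorem whk_inv (p q : List L) (e : RE L Γ) : (whk p q e).inv = whk p q e.inv := rfl

theorem whk_rvp (p q : List L) (l : List (RE L Γ)) : (rvp l).map (whk p q) =
    rvp (l.map (whk p q)) := by
  simp only [rvp, List.map_reverse, List.map_map]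
  rfl

theorem RPath.whk {l : List (RE L Γ)} (p q : List L) : ∀ {w w' : List L}, RPath Y w l w' →
    RPath Y (p ++ (w ++ q)) (l.map (whk p q)) (p ++ (w' ++ q)) := by
  induction l with
  | nil => intro w w' h; cases h; exact rfl
  | cons e l ih =>
    intro w w' h
    obtain ⟨rfl, h2⟩ := h
    refine ⟨(whk_src p q e).symm, ?_⟩
    rw [whk_tgt]
    exact ih h2

end raw

theorem PV_rvp (C : RP P → U P) (l : List (RE (LP P) (RP P))) : PV C (rvp l) = (PV C l)⁻¹ := by
  induction l with
  | nil => simp [rvp]
  | cons e l ih => rw [rvp_cons, PV_append, ih]; simp [RV_inv]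

theorem PV_whk (C : RP P → U P) (p q : List (LP P)) (l : List (RE (LP P) (RP P))) :
    PV C (l.map (whk p q)) = wh (stw p) (stw q) (PV C l) := by
  induction l with
  | nil => simp
  | cons e l ih =>
    rw [List.map_cons, PV_cons, ih, PV_cons, map_mul]
    congr 1
    simp [RV, whk, wh_wh]

theorem RuVal.path {C : RP P → U P} (hC : RuVal C) {l : List (RE (LP P) (RP P))} :
    ∀ {w w' : List (LP P)}, RPath (KP P) w l w' → Pi (stw w) (PV C l) (stw w') := by
  induction l with
  | nil => intro w w' h; cases h; exact Pi.refl _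
  | cons e l ih =>
    intro w w' h
    obtain ⟨rfl, h2⟩ := h
    rw [PV_cons]
    exact (hC.edge e).trans (ih h2)

/-- the word `u` as a word of extra letters -/
def sgw (u : List A) : List (LP P) := u.map Lt.sg

@[simp] theorem sgw_nil : sgw (P := P) [] = [] := rfl
@[simp] theorem sgw_cons (a : A) (u : List A) : sgw (P := P) (a :: u) = .sg a :: sgw u := rfl
@[simp] theorem sgw_append (u v : List A) : sgw (P := P) (u ++ v) = sgw u ++ sgw v := by
  simp [sgw]

@[simp] theorem stw_sgw (u : List A) : stw (sgw (P := P) u) = u := by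
  induction u with
  | nil => rfl
  | cons a u ih => simp [std, ih]

/-- collapsing a word to a plain letter -/
theorem exists_col (u : List A) (hu : u ≠ []) : ∃ l : List (RE (LP P) (RP P)),
    RPath (KP P) (sgw u) l [.pl (clm P u)] ∧ ∀ e ∈ l, ∀ r s, e.g ≠ .rl r s := by
  induction u with
  | nil => exact absurd rfl hu
  | cons a u ih =>
    by_cases h : u = []
    · subst h
      refine ⟨[⟨[], .sg a, true, []⟩], ⟨?_, ?_⟩, ?_⟩
      · simp [RE.src, fro, KS]
      · simp only [RE.tgt, too, KS]
        rfl
      · intro e he r s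
        rw [List.mem_singleton.1 he]
        simp
    · obtain ⟨l, h1, h2⟩ := ih h
      have h3 := h1.whk [.sg a] []
      simp only [List.append_nil] at h3
      refine ⟨l.map (whk [.sg a] []) ++ [⟨[], .sg a, true, [.pl (clm P u)]⟩,
        ⟨[], .mg (cA P a) (clm P u), true, []⟩], h3.append ⟨?_, ?_, ?_⟩, ?_⟩
      · simp [RE.src, fro, KS]
      · simp [RE.src, RE.tgt, fro, too, KS]
      · simp only [RE.tgt, too, KS]
        rfl
      · intro e he r s
        rcases List.mem_append.1 he with he | he
        · obtain ⟨f, hf, rfl⟩ := List.mem_map.1 he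
          exact h2 f hf r s
        · simp only [List.mem_cons, List.not_mem_nil, or_false] at he
          rcases he with rfl | rfl <;> simp

/-- the chosen collapse -/
noncomputable def col (u : List A) : List (RE (LP P) (RP P)) :=
  open Classical in if h : u ≠ [] then (exists_col u h).choose else []

theorem col_path {u : List A} (h : u ≠ []) : RPath (KP P) (sgw u) (col u) [.pl (clm P u)] := by
  unfold col
  rw [dif_pos h]
  exact (exists_col u h).choose_spec.1

theorem col_rule (u : List A) : ∀ e ∈ col (P := P) u, ∀ r s, e.g ≠ .rl r s := by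
  unfold col
  split
  · rename_i h
    exact (exists_col u h).choose_spec.2
  · simp

/-- the values of the rules -/
noncomputable def C1 : RP P → U P
  | .mg m m' => C0 (.mg m m')
  | .sg a => C0 (.sg a)
  | .rl _ true => 1
  | .rl r false => (PV C0 (col r.1.1))⁻¹ * (gen ⟨[], r, []⟩ * PV C0 (col r.1.2))

theorem C1_val : RuVal (C1 (P := P)) where
  pi := by
    rintro (⟨m, m'⟩ | a | ⟨r, s⟩)
    · exact C0_val.pi _
    · exact C0_val.pi _
    · cases s
      · have h1 := C0_val.path (col_path (P := P) (P.ne _ r.2).1)
        have h2 := C0_val.path (col_path (P := P) (P.ne _ r.2).2)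
        have h3 := Pi.gen (⟨[], r, []⟩ : Edge P)
        simp only [stw_sgw, stw_cons, stw_nil, List.append_nil] at h1 h2
        simp only [Edge.src, Edge.tgt, List.append_nil, List.nil_append] at h3
        have h4 := h1.symm.trans (h3.trans h2)
        have h5 : std (P := P) (.pl (clm P r.1.2)) = rep (cR P r) := by
          rw [cR_eq]
          rfl
        rw [h5] at h4
        have h6 : stw ((KP P).top (.rl r false)) = rep (cR P r) := by simp [KS, std]
        have h7 : stw ((KP P).bot (.rl r false)) = rep (cR P r) := by simp [KS, std]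
        rw [h6, h7]
        exact h4
      · exact C0_val.pi _

theorem PV_col (u : List A) : PV C1 (col (P := P) u) = PV C0 (col u) := by
  unfold PV
  congr 1
  apply List.map_congr_left
  intro e he
  have h := col_rule u e he
  unfold RV
  rcases e with ⟨a, (⟨m, m'⟩ | b | ⟨r, s⟩), t, c⟩
  · rfl
  · rfl
  · exact absurd rfl (h r s)

/-- the lift of a relation -/
noncomputable def core (r : P.rels) : List (RE (LP P) (RP P)) :=
  col r.1.1 ++ (⟨[], .rl r true, false, []⟩ :: ⟨[], .rl r false, true, []⟩ :: rvp (col r.1.2))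

theorem core_path (r : P.rels) : RPath (KP P) (sgw r.1.1) (core r) (sgw r.1.2) := by
  have h1 := col_path (P := P) (P.ne _ r.2).1
  have h2 := (col_path (P := P) (P.ne _ r.2).2).rvp
  refine h1.append ⟨?_, ?_, ?_⟩
  · simp [RE.src, fro, KS, cR]
  · simp [RE.src, RE.tgt, fro, too, KS]
  · have h3 : RE.tgt (KP P) (⟨[], .rl r false, true, []⟩ : RE (LP P) (RP P)) =
        [.pl (clm P r.1.2)] := by
      simp [RE.tgt, too, KS, cR_eq]
    rw [h3]
    exact h2

theorem core_val (r : P.rels) : PV C1 (core r) = gen ⟨[], r, []⟩ := by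
  unfold core
  rw [PV_append, PV_cons, PV_cons, PV_rvp, PV_col, PV_col]
  have h1 : RV C1 (⟨[], .rl r true, false, []⟩ : RE (LP P) (RP P)) = 1 := by
    simp [RV, sv, C1]
  have h2 : RV C1 (⟨[], .rl r false, true, []⟩ : RE (LP P) (RP P)) =
      (PV C0 (col r.1.1))⁻¹ * (gen ⟨[], r, []⟩ * PV C0 (col r.1.2)) := by
    change wh [] [] _ = _
    rw [wh_nil]
    rfl
  rw [h1, h2]
  group

/-- the lift of an oriented relation -/
noncomputable def core2 (r : P.rels) : Bool → List (RE (LP P) (RP P))
  | true => core r
  | false => rvp (core r)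

theorem core2_path (r : P.rels) (s : Bool) :
    RPath (KP P) (sgw (lhs r s)) (core2 r s) (sgw (rhs r s)) := by
  cases s
  · exact (core_path r).rvp
  · exact core_path r

/-- the lift of an edge -/
noncomputable def lam (x : OE P) : List (RE (LP P) (RP P)) :=
  (core2 x.r x.s).map (whk (sgw x.a) (sgw x.c))

theorem lam_path (x : OE P) : RPath (KP P) (sgw x.src) (lam x) (sgw x.tgt) := by
  have h := (core2_path x.r x.s).whk (sgw x.a) (sgw x.c)
  rw [← sgw_append, ← sgw_append, ← sgw_append, ← sgw_append] at h
  exact h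

theorem lam_inv (x : OE P) : lam x.inv = rvp (lam x) := by
  rcases x with ⟨a, r, s, c⟩
  unfold lam
  rw [← whk_rvp]
  cases s
  · simp [OE.inv, core2, rvp_rvp]
  · simp [OE.inv, core2]

theorem lam_val (x : OE P) : PV C1 (lam x) = x.val := by
  rcases x with ⟨a, r, s, c⟩
  unfold lam
  rw [PV_whk, stw_sgw, stw_sgw]
  cases s
  · simp only [core2, PV_rvp, core_val, map_inv, wh_gen, wE, List.append_nil, List.nil_append,
      val_f]
  · simp only [core2, core_val, wh_gen, wE, List.append_nil, List.nil_append, val_t]

/-- the lift of a path -/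
noncomputable def lamP (l : List (OE P)) : List (RE (LP P) (RP P)) := (l.map lam).flatten

@[simp] theorem lamP_nil : lamP ([] : List (OE P)) = [] := rfl
@[simp] theorem lamP_cons (x : OE P) (l : List (OE P)) : lamP (x :: l) = lam x ++ lamP l := by
  simp [lamP]
@[simp] theorem lamP_append (l m : List (OE P)) : lamP (l ++ m) = lamP l ++ lamP m := by
  simp [lamP]

theorem lamP_path {l : List (OE P)} : ∀ {w w' : List A}, IsPath w l w' →
    RPath (KP P) (sgw w) (lamP l) (sgw w') := by
  induction l with
  | nil => intro w w' h; cases h; exact rfl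
  | cons x l ih =>
    intro w w' h
    obtain ⟨rfl, h2⟩ := h
    rw [lamP_cons]
    exact (lam_path x).append (ih h2)

theorem lamP_revp (l : List (OE P)) : lamP (revp l) = rvp (lamP l) := by
  induction l with
  | nil => rfl
  | cons x l ih => rw [revp_cons, lamP_append, ih, lamP_cons, lamP_cons, rvp_append, lam_inv]; simp

theorem lamP_val (l : List (OE P)) : PV C1 (lamP l) = pv l := by
  induction l with
  | nil => rfl
  | cons x l ih => rw [lamP_cons, PV_append, ih, lam_val, pv_cons]

end Pool.Agent.P8H61
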